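import Mathlib
import Pool.Agent.H709U.MA
import Pool.Agent.H709U.MB
import Pool.Agent.H709U.TopR

/-! Euclidean estimates for normalised planar fields. -/

open Real Set MeasureTheory Topology Filter
open scoped ENNReal

namespace Pool.Agent.Q62.HB

noncomputable section

open Pool.Agent.H709R2 (rot wedge ClosedOrbit divW divRot Jac)
open Pool.Agent.H709U (dot rf Orb InBox)

/-- Euclidean norm -/
def nm (v : ℝ × ℝ) : ℝ := √(v.1 ^ 2 + v.2 ^ 2)

lemma nm_nonneg (v : ℝ × ℝ) : 0 ≤ nm v := Real.sqrt_nonneg _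

lemma nm_sq (v : ℝ × ℝ) : nm v ^ 2 = v.1 ^ 2 + v.2 ^ 2 := Real.sq_sqrt (by positivity)

lemma nm_sq' (v : ℝ × ℝ) : nm v ^ 2 = H709R2.sq v := nm_sq v

lemma nm_pos {v : ℝ × ℝ} (h : v ≠ 0) : 0 < nm v :=
  Real.sqrt_pos.2 (H709R2.sq_pos h)

lemma nm_zero : nm 0 = 0 := by simp [nm]

lemma nm_eq_zero {v : ℝ × ℝ} (h : nm v = 0) : v = 0 := by
  by_contra hc
  exact (nm_pos hc).ne' h

lemma le_of_sq {a b : ℝ} (hb : 0 ≤ b) (h : a ^ 2 ≤ b ^ 2) : a ≤ b :=
  le_of_sq_le_sq h hb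

lemma dot_le (a b : ℝ × ℝ) : |dot a b| ≤ nm a * nm b := by
  refine abs_le_of_sq_le_sq ?_ (mul_nonneg (nm_nonneg _) (nm_nonneg _))
  rw [mul_pow, nm_sq, nm_sq]
  unfold dot
  nlinarith [sq_nonneg (a.1 * b.2 - a.2 * b.1)]

lemma wedge_le (a b : ℝ × ℝ) : |wedge a b| ≤ nm a * nm b := by
  refine abs_le_of_sq_le_sq ?_ (mul_nonneg (nm_nonneg _) (nm_nonneg _))
  rw [mul_pow, nm_sq, nm_sq]
  unfold wedge
  nlinarith [sq_nonneg (a.1 * b.1 + a.2 * b.2)]

lemma dot_self (a : ℝ × ℝ) : dot a a = nm a ^ 2 := by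
  rw [nm_sq]; unfold dot; ring

lemma nm_add_le (a b : ℝ × ℝ) : nm (a + b) ≤ nm a + nm b := by
  refine le_of_sq (add_nonneg (nm_nonneg _) (nm_nonneg _)) ?_
  have h1 := (abs_le.1 (dot_le a b)).2
  have h2 := nm_sq a
  have h3 := nm_sq b
  have h4 : nm (a + b) ^ 2 = nm a ^ 2 + nm b ^ 2 + 2 * dot a b := by
    rw [nm_sq, nm_sq, nm_sq]; unfold dot; simp only [Prod.fst_add, Prod.snd_add]; ring
  rw [h4]
  nlinarith

lemma nm_smul (c : ℝ) (v : ℝ × ℝ) : nm (c • v) = |c| * nm v := by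
  unfold nm
  simp only [Prod.smul_fst, Prod.smul_snd, smul_eq_mul]
  rw [show (c * v.1) ^ 2 + (c * v.2) ^ 2 = c ^ 2 * (v.1 ^ 2 + v.2 ^ 2) by ring,
    Real.sqrt_mul (sq_nonneg c), Real.sqrt_sq_eq_abs]

lemma nm_neg (v : ℝ × ℝ) : nm (-v) = nm v := by
  unfold nm; simp

lemma nm_sub_comm (a b : ℝ × ℝ) : nm (a - b) = nm (b - a) := by
  rw [← nm_neg, neg_sub]

lemma nm_sub_le (a b : ℝ × ℝ) : nm a - nm b ≤ nm (a - b) := by
  have := nm_add_le (a - b) b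
  rw [sub_add_cancel] at this
  linarith

lemma nm_tri (a b c : ℝ × ℝ) : nm (a - c) ≤ nm (a - b) + nm (b - c) := by
  have := nm_add_le (a - b) (b - c)
  rwa [sub_add_sub_cancel] at this

lemma nm_rot (α : ℝ) (v : ℝ × ℝ) : nm (rot α v) = nm v := by
  have := H709R2.sq_rot α v
  unfold H709R2.sq at this
  unfold nm
  rw [this]

lemma abs_fst_le (v : ℝ × ℝ) : |v.1| ≤ nm v :=
  Real.abs_le_sqrt (by nlinarith [sq_nonneg v.2])

lemma abs_snd_le (v : ℝ × ℝ) : |v.2| ≤ nm v :=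
  Real.abs_le_sqrt (by nlinarith [sq_nonneg v.1])

/-- the field is normalised on the convex set `K` -/
structure Nrm (X : ℝ × ℝ → ℝ × ℝ) (K : Set (ℝ × ℝ)) : Prop where
  cd : ContDiff ℝ 2 X
  conv : Convex ℝ K
  d1 : ∀ z ∈ K, ∀ v, nm (fderiv ℝ X z v) ≤ nm v
  d2 : ∀ z ∈ K, ∀ z' ∈ K, ∀ v, nm (fderiv ℝ X z v - fderiv ℝ X z' v) ≤ nm (z - z') * nm v

variable {X : ℝ × ℝ → ℝ × ℝ} {K : Set (ℝ × ℝ)}

lemma Nrm.fd (h : Nrm X K) (z : ℝ × ℝ) : HasFDerivAt X (fderiv ℝ X z) z :=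
  (h.cd.differentiable (by norm_num) z).hasFDerivAt

lemma hasDerivAt_dot {f : ℝ → ℝ × ℝ} {f' : ℝ × ℝ} {t : ℝ} (hf : HasDerivAt f f' t) (e : ℝ × ℝ) :
    HasDerivAt (fun t => dot (f t) e) (dot f' e) t := by
  have h1 : HasDerivAt (fun t => (f t).1) f'.1 t :=
    (ContinuousLinearMap.fst ℝ ℝ ℝ).hasFDerivAt.comp_hasDerivAt t hf
  have h2 : HasDerivAt (fun t => (f t).2) f'.2 t :=
    (ContinuousLinearMap.snd ℝ ℝ ℝ).hasFDerivAt.comp_hasDerivAt t hf
  exact (h1.mul_const e.1).add (h2.mul_const e.2)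

lemma seg_mem (h : Nrm X K) {p z : ℝ × ℝ} (hp : p ∈ K) (hz : z ∈ K) {t : ℝ}
    (ht : t ∈ Icc (0:ℝ) 1) : p + t • (z - p) ∈ K :=
  h.conv.add_smul_sub_mem hp hz ht

lemma seg_deriv (h : Nrm X K) (p z e : ℝ × ℝ) (t : ℝ) :
    HasDerivAt (fun t : ℝ => dot (X (p + t • (z - p))) e)
      (dot (fderiv ℝ X (p + t • (z - p)) (z - p)) e) t := by
  have h1 : HasDerivAt (fun t : ℝ => p + t • (z - p)) (z - p) t := by
    have := ((hasDerivAt_id t).smul_const (z - p)).const_add p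
    simpa using this
  exact hasDerivAt_dot ((h.fd _).comp_hasDerivAt t h1) e

/-- the field is Lipschitz -/
lemma Nrm.lip (h : Nrm X K) {p z : ℝ × ℝ} (hp : p ∈ K) (hz : z ∈ K) :
    nm (X z - X p) ≤ nm (z - p) := by
  set e := X z - X p with he
  rcases (nm_nonneg e).eq_or_lt with h0 | h0
  · rw [← h0]; exact nm_nonneg _
  have hmv := (convex_Icc (0:ℝ) 1).norm_image_sub_le_of_norm_hasDerivWithin_le
    (f := fun t : ℝ => dot (X (p + t • (z - p))) e)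
    (f' := fun t => dot (fderiv ℝ X (p + t • (z - p)) (z - p)) e) (C := nm (z - p) * nm e)
    (fun t _ => (seg_deriv h p z e t).hasDerivWithinAt)
    (fun t ht => (dot_le _ _).trans (mul_le_mul_of_nonneg_right (h.d1 _ (seg_mem h hp hz ht) _)
      (nm_nonneg _)))
    (x := 0) (y := 1) (by simp) (by simp)
  simp only [one_smul, zero_smul, add_zero, add_sub_cancel, sub_zero, norm_one, mul_one] at hmv
  have e1 : dot (X z) e - dot (X p) e = nm e ^ 2 := by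
    rw [← dot_self, he]; unfold dot; simp only [Prod.fst_sub, Prod.snd_sub]; ring
  rw [e1, Real.norm_eq_abs, abs_of_nonneg (sq_nonneg _)] at hmv
  nlinarith

/-- the second order Taylor estimate -/
lemma Nrm.taylor (h : Nrm X K) {p z : ℝ × ℝ} (hp : p ∈ K) (hz : z ∈ K) :
    nm (X z - X p - fderiv ℝ X p (z - p)) ≤ nm (z - p) ^ 2 / 2 := by
  set e := X z - X p - fderiv ℝ X p (z - p) with he
  rcases (nm_nonneg e).eq_or_lt with h0 | h0
  · rw [← h0]; positivity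
  obtain ⟨C, hC⟩ : ∃ C, C = nm (z - p) ^ 2 * nm e := ⟨_, rfl⟩
  set g : ℝ → ℝ := fun t => C * t ^ 2 / 2 + t * dot (fderiv ℝ X p (z - p)) e -
    dot (X (p + t • (z - p))) e with hg
  have hgd : ∀ t, HasDerivAt g (C * t + dot (fderiv ℝ X p (z - p)) e -
      dot (fderiv ℝ X (p + t • (z - p)) (z - p)) e) t := by
    intro t
    have h1 : HasDerivAt (fun t : ℝ => C * t ^ 2 / 2) (C * t) t := by
      have := ((hasDerivAt_pow 2 t).const_mul C).div_const 2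
      refine this.congr_deriv ?_
      ring
    have h2 : HasDerivAt (fun t : ℝ => t * dot (fderiv ℝ X p (z - p)) e)
        (dot (fderiv ℝ X p (z - p)) e) t := by
      simpa using (hasDerivAt_id t).mul_const (dot (fderiv ℝ X p (z - p)) e)
    exact (h1.add h2).sub (seg_deriv h p z e t)
  have hmono : MonotoneOn g (Icc 0 1) := by
    refine monotoneOn_of_deriv_nonneg (convex_Icc _ _)
      (fun t _ => (hgd t).continuousAt.continuousWithinAt)
      (fun t _ => (hgd t).differentiableAt.differentiableWithinAt) (fun t ht => ?_)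
    rw [interior_Icc] at ht
    rw [(hgd t).deriv]
    have ht' : t ∈ Icc (0:ℝ) 1 := ⟨ht.1.le, ht.2.le⟩
    have h1 := h.d2 _ (seg_mem h hp hz ht') p hp (z - p)
    have e1 : p + t • (z - p) - p = t • (z - p) := by abel
    rw [e1, nm_smul, abs_of_pos ht.1] at h1
    have h2 := (abs_le.1 (dot_le (fderiv ℝ X (p + t • (z - p)) (z - p) - fderiv ℝ X p (z - p)) e)).2
    have e2 : dot (fderiv ℝ X (p + t • (z - p)) (z - p) - fderiv ℝ X p (z - p)) e =
        dot (fderiv ℝ X (p + t • (z - p)) (z - p)) e - dot (fderiv ℝ X p (z - p)) e := by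
      unfold dot; simp only [Prod.fst_sub, Prod.snd_sub]; ring
    rw [e2] at h2
    have h3 := mul_le_mul_of_nonneg_right h1 (nm_nonneg e)
    have h4 : t * nm (z - p) * nm (z - p) * nm e = C * t := by rw [hC]; ring
    rw [h4] at h3
    linarith
  have h1 := hmono (left_mem_Icc.2 zero_le_one) (right_mem_Icc.2 zero_le_one) zero_le_one
  simp only [hg, one_smul, zero_smul, add_zero, add_sub_cancel] at h1
  have e1 : dot (X z) e - dot (X p) e - dot (fderiv ℝ X p (z - p)) e = nm e ^ 2 := by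
    have e2 : dot (X z) e - dot (X p) e - dot (fderiv ℝ X p (z - p)) e =
        dot (X z - X p - fderiv ℝ X p (z - p)) e := by
      unfold dot; simp only [Prod.fst_sub, Prod.snd_sub]; ring
    rw [e2, ← he, dot_self]
  have h2 : nm e ^ 2 ≤ C / 2 := by
    have h3 : C * 0 ^ 2 / 2 + 0 * dot (fderiv ℝ X p (z - p)) e - dot (X p) e ≤
      C * 1 ^ 2 / 2 + 1 * dot (fderiv ℝ X p (z - p)) e - dot (X z) e := h1
    linarith
  rw [hC] at h2
  have h5 : nm e * nm e ≤ (nm (z - p) ^ 2 / 2) * nm e := by linarith [sq (nm e)]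
  exact le_of_mul_le_mul_right h5 h0

lemma clm_eq (A : (ℝ × ℝ) →L[ℝ] (ℝ × ℝ)) (v : ℝ × ℝ) :
    A v = v.1 • A (1, 0) + v.2 • A (0, 1) := H709R2.clm_decomp A v

lemma nm_e1 : nm (1, 0) = 1 := by simp [nm]

lemma nm_e2 : nm (0, 1) = 1 := by simp [nm]

/-- the determinant is at most the smallest singular value -/
lemma det_lower {A : (ℝ × ℝ) →L[ℝ] (ℝ × ℝ)} (hA : ∀ v, nm (A v) ≤ nm v) (v : ℝ × ℝ) :
    |wedge (A (1, 0)) (A (0, 1))| * nm v ≤ nm (A v) := by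
  rcases (nm_nonneg v).eq_or_lt with h0 | h0
  · rw [← h0, mul_zero]; exact nm_nonneg _
  have h1 := wedge_le (A v) (A (-v.2, v.1))
  have h2 : wedge (A v) (A (-v.2, v.1)) = wedge (A (1, 0)) (A (0, 1)) * nm v ^ 2 := by
    rw [clm_eq A v, clm_eq A (-v.2, v.1), nm_sq]
    unfold wedge
    simp only [Prod.fst_add, Prod.snd_add, Prod.smul_fst, Prod.smul_snd, smul_eq_mul]
    ring
  have h3 : nm (-v.2, v.1) = nm v := by unfold nm; simp only; congr 1; ring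
  have h4 := hA (-v.2, v.1)
  rw [h3] at h4
  rw [h2, abs_mul, abs_of_nonneg (sq_nonneg (nm v))] at h1
  have h5 := mul_le_mul_of_nonneg_left h4 (nm_nonneg (A v))
  have h6 : (|wedge (A (1, 0)) (A (0, 1))| * nm v) * nm v ≤ nm (A v) * nm v := by
    linarith [sq (nm v)]
  exact le_of_mul_le_mul_right h6 h0

lemma Jac_eq (X : ℝ × ℝ → ℝ × ℝ) (z : ℝ × ℝ) :
    Jac X z = wedge (fderiv ℝ X z (1, 0)) (fderiv ℝ X z (0, 1)) := rfl

lemma Nrm.jac_lower (h : Nrm X K) {p : ℝ × ℝ} (hp : p ∈ K) (v : ℝ × ℝ) :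
    |Jac X p| * nm v ≤ nm (fderiv ℝ X p v) := det_lower (h.d1 p hp) v

lemma Nrm.jac_le_one (h : Nrm X K) {p : ℝ × ℝ} (hp : p ∈ K) : |Jac X p| ≤ 1 := by
  have h1 := h.jac_lower hp (1, 0)
  have h2 := h.d1 p hp (1, 0)
  rw [nm_e1] at h1 h2
  linarith

lemma Nrm.jac_lip (h : Nrm X K) {p z : ℝ × ℝ} (hp : p ∈ K) (hz : z ∈ K) :
    |Jac X z - Jac X p| ≤ 2 * nm (z - p) := by
  have e : Jac X z - Jac X p = wedge (fderiv ℝ X z (1, 0)) (fderiv ℝ X z (0, 1) -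
      fderiv ℝ X p (0, 1)) + wedge (fderiv ℝ X z (1, 0) - fderiv ℝ X p (1, 0))
      (fderiv ℝ X p (0, 1)) := by
    rw [Jac_eq, Jac_eq]; unfold wedge; simp only [Prod.fst_sub, Prod.snd_sub]; ring
  rw [e]
  refine (abs_add_le _ _).trans ?_
  have h1 := wedge_le (fderiv ℝ X z (1, 0)) (fderiv ℝ X z (0, 1) - fderiv ℝ X p (0, 1))
  have h2 := wedge_le (fderiv ℝ X z (1, 0) - fderiv ℝ X p (1, 0)) (fderiv ℝ X p (0, 1))
  have h3 := h.d1 z hz (1, 0)
  have h4 := h.d1 p hp (0, 1)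
  have h5 := h.d2 z hz p hp (0, 1)
  have h6 := h.d2 z hz p hp (1, 0)
  rw [nm_e1] at h3 h6
  rw [nm_e2] at h4 h5
  have n1 := nm_nonneg (fderiv ℝ X z (1, 0))
  have n2 := nm_nonneg (fderiv ℝ X p (0, 1))
  have n3 := nm_nonneg (fderiv ℝ X z (0, 1) - fderiv ℝ X p (0, 1))
  have n4 := nm_nonneg (fderiv ℝ X z (1, 0) - fderiv ℝ X p (1, 0))
  nlinarith

/-- lower bound for the field near a zero -/
lemma Nrm.lower (h : Nrm X K) {p z : ℝ × ℝ} (hp : p ∈ K) (hz : z ∈ K) (h0 : X p = 0) :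
    |Jac X p| * nm (z - p) - nm (z - p) ^ 2 / 2 ≤ nm (X z) := by
  have h1 := h.taylor hp hz
  rw [h0, sub_zero] at h1
  have h2 := h.jac_lower hp (z - p)
  have h3 := nm_sub_le (fderiv ℝ X p (z - p)) (X z)
  rw [nm_sub_comm] at h3
  linarith

/-- zeros are separated -/
lemma Nrm.sep (h : Nrm X K) {p q : ℝ × ℝ} (hp : p ∈ K) (hq : q ∈ K) (h0 : X p = 0) (h1 : X q = 0)
    (hne : q ≠ p) : 2 * |Jac X p| ≤ nm (q - p) := by
  have h2 := h.lower hp hq h0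
  rw [h1, nm_zero] at h2
  have h3 := nm_pos (sub_ne_zero.2 hne)
  by_contra hc
  push Not at hc
  nlinarith

end

end Pool.Agent.Q62.HB
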