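import Pool.Agent.Q62.HB.Lin

/-! Closed orbits near an equilibrium with positive determinant: the weight. -/

open Real Set MeasureTheory Topology Filter
open scoped ENNReal

namespace Pool.Agent.Q62.HB

noncomputable section

open Pool.Agent.H709R2 (rot wedge ClosedOrbit divW divRot Jac)
open Pool.Agent.H709U (dot rf Orb InBox)

variable {X : ℝ × ℝ → ℝ × ℝ} {K : Set (ℝ × ℝ)}

lemma rot_sub (α : ℝ) (a b : ℝ × ℝ) : rot α (a - b) = rot α a - rot α b := by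
  unfold rot
  ext <;> simp <;> ring

lemma rot_zero' (α : ℝ) : rot α (0 : ℝ × ℝ) = 0 := by
  unfold rot
  ext <;> simp

lemma Nrm.divRot_le (h : Nrm X K) {z : ℝ × ℝ} (hz : z ∈ K) (α : ℝ) : |divRot X α z| ≤ 2 := by
  have h1 := h.d1 z hz (1, 0)
  have h2 := h.d1 z hz (0, 1)
  rw [nm_e1] at h1
  rw [nm_e2] at h2
  have h3 := abs_fst_le (rot α (fderiv ℝ X z (1, 0)))
  have h4 := abs_snd_le (rot α (fderiv ℝ X z (0, 1)))
  rw [nm_rot] at h3 h4
  unfold divRot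
  refine (abs_add_le _ _).trans ?_
  linarith

lemma Nrm.divRot_sub (h : Nrm X K) {z o : ℝ × ℝ} (hz : z ∈ K) (ho : o ∈ K) (α : ℝ) :
    |divRot X α z - divRot X α o| ≤ 2 * nm (z - o) := by
  have h1 := h.d2 z hz o ho (1, 0)
  have h2 := h.d2 z hz o ho (0, 1)
  rw [nm_e1] at h1
  rw [nm_e2] at h2
  have h3 := abs_fst_le (rot α (fderiv ℝ X z (1, 0) - fderiv ℝ X o (1, 0)))
  have h4 := abs_snd_le (rot α (fderiv ℝ X z (0, 1) - fderiv ℝ X o (0, 1)))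
  rw [nm_rot] at h3 h4
  have e : divRot X α z - divRot X α o =
      (rot α (fderiv ℝ X z (1, 0) - fderiv ℝ X o (1, 0))).1 +
      (rot α (fderiv ℝ X z (0, 1) - fderiv ℝ X o (0, 1))).2 := by
    unfold divRot
    rw [rot_sub, rot_sub]
    simp only [Prod.fst_sub, Prod.snd_sub]
    ring
  rw [e]
  refine (abs_add_le _ _).trans ?_
  linarith

section
variable {o : ℝ × ℝ} {c s u p q N : ℝ}

lemma grad_field (h : Nrm X K) (ho : o ∈ K) (h0 : X o = 0) (C : Cen (fderiv ℝ X o) c s u p q N)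
    {z : ℝ × ℝ} (hz : z ∈ K) (α : ℝ) :
    |(u * (z - o).1 - p * (z - o).2) * (rot α (X z)).1 -
        (p * (z - o).1 + q * (z - o).2) * (rot α (X z)).2 +
        (Real.sin α * c - Real.cos α * s) * nm (fderiv ℝ X o (z - o)) ^ 2| ≤
      nm (fderiv ℝ X o (z - o)) * (nm (z - o) ^ 2 / 2) := by
  have h1 := h.taylor ho hz
  rw [h0, sub_zero] at h1
  have h2 := C.grad_le (z - o) (rot α (X z - fderiv ℝ X o (z - o)))
  rw [nm_rot] at h2
  have h3 := C.grad_rot α (z - o)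
  have e : (u * (z - o).1 - p * (z - o).2) * (rot α (X z)).1 -
        (p * (z - o).1 + q * (z - o).2) * (rot α (X z)).2 +
        (Real.sin α * c - Real.cos α * s) * nm (fderiv ℝ X o (z - o)) ^ 2 =
      (u * (z - o).1 - p * (z - o).2) * (rot α (X z - fderiv ℝ X o (z - o))).1 -
        (p * (z - o).1 + q * (z - o).2) * (rot α (X z - fderiv ℝ X o (z - o))).2 := by
    rw [rot_sub]
    simp only [Prod.fst_sub (rot α (X z)), Prod.snd_sub (rot α (X z))]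
    linarith
  rw [e]
  exact h2.trans (mul_le_mul_of_nonneg_left h1 (nm_nonneg _))

/-- a continuous periodic function attains its minimum -/
lemma exists_min {φ : ℝ → ℝ} {T : ℝ} (hT : 0 < T) (hc : Continuous φ) (hp : ∀ t, φ (t + T) = φ t) :
    ∃ t₀, ∀ t, φ t₀ ≤ φ t := by
  obtain ⟨t₀, _, h⟩ := isCompact_Icc.exists_isMinOn (nonempty_Icc.2 hT.le) hc.continuousOn
  refine ⟨t₀, fun t => ?_⟩
  obtain ⟨y, hy, hyt⟩ := Function.Periodic.exists_mem_Ico₀ (f := φ) hp hT t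
  rw [hyt]
  exact h ⟨hy.1, hy.2.le⟩

lemma orb_cont {Y : ℝ × ℝ → ℝ × ℝ} {γ : ℝ → ℝ × ℝ} {T : ℝ} (h : Orb Y γ T) : Continuous γ :=
  continuous_iff_continuousAt.2 fun t => (h.ode t).continuousAt

lemma orb_ne (h0 : X o = 0) {α T : ℝ} {γ : ℝ → ℝ × ℝ} (hγ : Orb (rf X α) γ T) (t : ℝ) :
    γ t - o ≠ 0 := by
  intro hc
  have h1 := hγ.ne t
  rw [sub_eq_zero.1 hc] at h1
  apply h1
  unfold rf
  rw [h0, rot_zero']

/-- closed orbits avoid a neighbourhood of the equilibrium -/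
lemma orbit_min (h : Nrm X K) (ho : o ∈ K) (h0 : X o = 0) (C : Cen (fderiv ℝ X o) c s u p q N)
    {α T : ℝ} {γ : ℝ → ℝ × ℝ} (hγ : Orb (rf X α) γ T) (hK : ∀ t, γ t ∈ K) (t : ℝ) :
    Jac X o ^ 3 * (Real.sin α * c - Real.cos α * s) ^ 2 ≤ Hf u p q (γ t - o) := by
  have hD : 0 < Jac X o := C.dpos
  have hφd : ∀ t, HasDerivAt (fun t => Hf u p q (γ t - o))
      ((u * (γ t - o).1 - p * (γ t - o).2) * (rot α (X (γ t))).1 -
        (p * (γ t - o).1 + q * (γ t - o).2) * (rot α (X (γ t))).2) t := by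
    intro t
    have h1 : HasDerivAt (fun t => γ t - o) (rot α (X (γ t))) t := (hγ.ode t).sub_const o
    have h2 := (Hf_fderiv (u := u) (p := p) (q := q) (γ t - o)).comp_hasDerivAt t h1
    refine h2.congr_deriv ?_
    simp
  obtain ⟨t₀, hmin⟩ := exists_min (φ := fun t => Hf u p q (γ t - o)) hγ.pos
    (Hf_cont.comp ((orb_cont hγ).sub continuous_const)) (fun t => by
      beta_reduce
      rw [hγ.per])
  refine le_trans ?_ (hmin t)
  have hd0 : (u * (γ t₀ - o).1 - p * (γ t₀ - o).2) * (rot α (X (γ t₀))).1 -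
        (p * (γ t₀ - o).1 + q * (γ t₀ - o).2) * (rot α (X (γ t₀))).2 = 0 := by
    have hloc : IsLocalMin (fun t => Hf u p q (γ t - o)) t₀ := Filter.Eventually.of_forall hmin
    exact hloc.hasDerivAt_eq_zero (hφd t₀)
  have h1 := grad_field h ho h0 C (hK t₀) α
  rw [hd0, zero_add] at h1
  have h2 := h.jac_lower ho (γ t₀ - o)
  rw [abs_of_pos hD] at h2
  have h3 := C.four (γ t₀ - o)
  change nm (fderiv ℝ X o (γ t₀ - o)) ^ 2 + Jac X o * nm (γ t₀ - o) ^ 2 ≤ _ at h3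
  have hn := nm_pos (orb_ne h0 hγ t₀)
  obtain ⟨n, hn'⟩ : ∃ n, n = nm (γ t₀ - o) := ⟨_, rfl⟩
  obtain ⟨m, hm'⟩ : ∃ m, m = nm (fderiv ℝ X o (γ t₀ - o)) := ⟨_, rfl⟩
  obtain ⟨σ, hσ⟩ : ∃ σ, σ = Real.sin α * c - Real.cos α * s := ⟨_, rfl⟩
  obtain ⟨D, hDD⟩ : ∃ D, D = Jac X o := ⟨_, rfl⟩
  rw [← hσ, ← hm', ← hn'] at h1
  rw [← hDD, ← hn', ← hm'] at h2
  rw [← hDD, ← hn', ← hm'] at h3
  rw [← hn'] at hn
  rw [← hDD] at hD
  rw [← hσ, ← hDD]
  have hm : 0 < m := lt_of_lt_of_le (mul_pos hD hn) h2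
  rw [abs_mul, abs_of_nonneg (sq_nonneg m)] at h1
  have h4 : |σ| * m ≤ n ^ 2 / 2 := by
    have : (|σ| * m) * m ≤ (n ^ 2 / 2) * m := by linarith [sq m]
    exact le_of_mul_le_mul_right this hm
  have h5 : |σ| * D ≤ n / 2 := by
    have h6 : |σ| * (D * n) ≤ |σ| * m := mul_le_mul_of_nonneg_left h2 (abs_nonneg _)
    have : (|σ| * D) * n ≤ (n / 2) * n := by nlinarith
    exact le_of_mul_le_mul_right this hn
  have h6 : σ ^ 2 * D ^ 2 ≤ n ^ 2 / 4 := by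
    have h7 : (|σ| * D) ^ 2 ≤ (n / 2) ^ 2 :=
      pow_le_pow_left₀ (mul_nonneg (abs_nonneg _) hD.le) h5 2
    rw [mul_pow, sq_abs] at h7
    linarith
  have h8 : D * (σ ^ 2 * D ^ 2) ≤ D * (n ^ 2 / 4) := mul_le_mul_of_nonneg_left h6 hD.le
  nlinarith [sq_nonneg m]

/-- the divergence of the field with the weight -/
lemma div_bound (h : Nrm X K) (ho : o ∈ K) (h0 : X o = 0) (C : Cen (fderiv ℝ X o) c s u p q N)
    {z : ℝ × ℝ} (hz : z ∈ K) {α : ℝ}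
    (hF : Jac X o ^ 3 / 2 * (Real.sin α * c - Real.cos α * s) ^ 2 < Hf u p q (z - o)) :
    |divW (fun z => (Hf u p q (z - o))⁻¹) X α z| ≤ 22 / Jac X o ^ 2 / nm (z - o) := by
  have hD : 0 < Jac X o := C.dpos
  have hD1 : Jac X o ≤ 1 := (le_abs_self _).trans (h.jac_le_one ho)
  have hHpos : 0 < Hf u p q (z - o) := lt_of_le_of_lt (by positivity) hF
  have hH0 : Hf u p q (z - o) ≠ 0 := hHpos.ne'
  have hne : z - o ≠ 0 := by
    intro hc
    rw [hc] at hHpos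
    simp [Hf] at hHpos
  have hn := nm_pos hne
  -- the derivative of the weight
  have hw : HasFDerivAt (fun z => (Hf u p q (z - o))⁻¹)
      ((-(Hf u p q (z - o) ^ 2)⁻¹) • ((u * (z - o).1 - p * (z - o).2) •
        ContinuousLinearMap.fst ℝ ℝ ℝ - (p * (z - o).1 + q * (z - o).2) •
        ContinuousLinearMap.snd ℝ ℝ ℝ)) z := by
    have h1 : HasFDerivAt (fun z : ℝ × ℝ => Hf u p q (z - o))
        (((u * (z - o).1 - p * (z - o).2) • ContinuousLinearMap.fst ℝ ℝ ℝ -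
          (p * (z - o).1 + q * (z - o).2) • ContinuousLinearMap.snd ℝ ℝ ℝ).comp
          (ContinuousLinearMap.id ℝ (ℝ × ℝ))) z := by
      have hs : HasFDerivAt (fun z : ℝ × ℝ => z - o) (ContinuousLinearMap.id ℝ (ℝ × ℝ)) z :=
        (hasFDerivAt_id z).sub_const o
      exact (Hf_fderiv (u := u) (p := p) (q := q) (z - o)).comp z hs
    rw [ContinuousLinearMap.comp_id] at h1
    exact (hasDerivAt_inv hH0).comp_hasFDerivAt z h1
  have hval : divW (fun z => (Hf u p q (z - o))⁻¹) X α z =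
      (-((u * (z - o).1 - p * (z - o).2) * (rot α (X z)).1 -
        (p * (z - o).1 + q * (z - o).2) * (rot α (X z)).2) +
        divRot X α z * Hf u p q (z - o)) / Hf u p q (z - o) ^ 2 := by
    unfold divW
    rw [hw.fderiv]
    simp only [ContinuousLinearMap.smul_apply, ContinuousLinearMap.sub_apply,
      ContinuousLinearMap.coe_fst', ContinuousLinearMap.coe_snd', smul_eq_mul]
    field_simp
  have g1 := grad_field h ho h0 C hz α
  have g2 := h.divRot_sub hz ho α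
  have g3 := C.trace α
  have g4 : divRot X α o = -(N * (Real.sin α * c - Real.cos α * s)) := g3
  rw [g4] at g2
  have g5 := C.five (z - o)
  change 2 * N * Hf u p q (z - o) = nm (fderiv ℝ X o (z - o)) ^ 2 + Jac X o * nm (z - o) ^ 2 at g5
  have g6 := C.four (z - o)
  change nm (fderiv ℝ X o (z - o)) ^ 2 + Jac X o * nm (z - o) ^ 2 ≤ _ at g6
  have hN2 := C.N2
  have hN0 := C.N0
  rw [hval]
  obtain ⟨G, hG⟩ : ∃ G, G = (u * (z - o).1 - p * (z - o).2) * (rot α (X z)).1 -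
        (p * (z - o).1 + q * (z - o).2) * (rot α (X z)).2 := ⟨_, rfl⟩
  obtain ⟨R, hR⟩ : ∃ R, R = divRot X α z := ⟨_, rfl⟩
  obtain ⟨n, hn'⟩ : ∃ n, n = nm (z - o) := ⟨_, rfl⟩
  obtain ⟨m, hm'⟩ : ∃ m, m = nm (fderiv ℝ X o (z - o)) := ⟨_, rfl⟩
  have hm0 : 0 ≤ m := hm' ▸ nm_nonneg _
  obtain ⟨σ, hσ⟩ : ∃ σ, σ = Real.sin α * c - Real.cos α * s := ⟨_, rfl⟩
  obtain ⟨D, hDD⟩ : ∃ D, D = Jac X o := ⟨_, rfl⟩
  obtain ⟨H, hHH⟩ : ∃ H, H = Hf u p q (z - o) := ⟨_, rfl⟩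
  rw [← hG, ← hR, ← hHH]
  rw [← hG, ← hm', ← hn', ← hσ] at g1
  rw [← hR, ← hσ, ← hn'] at g2
  rw [← hHH, ← hm', ← hDD, ← hn'] at g5 g6
  rw [← hDD, ← hσ, ← hHH] at hF
  rw [← hHH] at hHpos
  rw [← hn'] at hn ⊢
  rw [← hDD] at hD hD1 ⊢
  -- square roots
  obtain ⟨η, hη⟩ : ∃ η, η = √H := ⟨_, rfl⟩
  obtain ⟨d, hd⟩ : ∃ d, d = √D := ⟨_, rfl⟩
  have hηp : 0 < η := hη ▸ Real.sqrt_pos.2 hHpos
  have hdp : 0 < d := hd ▸ Real.sqrt_pos.2 hD
  have eH : H = η ^ 2 := by rw [hη, Real.sq_sqrt hHpos.le]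
  have eD : D = d ^ 2 := by rw [hd, Real.sq_sqrt hD.le]
  have hd1 : d ≤ 1 := by
    rw [hd]; exact Real.sqrt_le_one.2 hD1
  have k1 : n * d ≤ 2 * η := by
    refine le_of_sq (by positivity) ?_
    rw [eH, eD] at g6
    nlinarith [sq_nonneg m]
  have k2 : m ≤ 2 * η := by
    refine le_of_sq (by positivity) ?_
    rw [eH] at g6
    have : 0 ≤ D * n ^ 2 := by positivity
    nlinarith
  have k3 : |σ| * d ^ 3 ≤ 3 / 2 * η := by
    refine le_of_sq (by positivity) ?_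
    rw [mul_pow, sq_abs]
    rw [eH, eD] at hF
    nlinarith [sq_nonneg η]
  have k4 : |m ^ 2 - N * H| ≤ 2 * H := by
    have : 0 ≤ D * n ^ 2 := by positivity
    rw [abs_le]
    constructor
    · nlinarith [sq_nonneg m]
    · nlinarith [sq_nonneg m]
  have k5 : |-G + R * H| ≤ m * (n ^ 2 / 2) + 2 * n * H + |σ| * (2 * H) := by
    have e : -G + R * H = -(G + σ * m ^ 2) + (R - -(N * σ)) * H + σ * (m ^ 2 - N * H) := by ring
    rw [e]
    refine (abs_add_three _ _ _).trans ?_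
    rw [abs_neg, abs_mul (R - -(N * σ)), abs_mul σ, abs_of_pos hHpos]
    have j1 := mul_le_mul_of_nonneg_right g2 hHpos.le
    have j2 := mul_le_mul_of_nonneg_left k4 (abs_nonneg σ)
    linarith
  rw [abs_div, abs_of_nonneg (sq_nonneg H), div_div, div_le_div_iff₀ (by positivity) (by positivity)]
  -- final inequality
  have hn0 := hn.le
  have m1 : m * (n ^ 2 / 2) ≤ η * n ^ 2 := by nlinarith [sq_nonneg n]
  have f1 : |-G + R * H| ≤ η * n ^ 2 + 2 * n * η ^ 2 + 2 * |σ| * η ^ 2 := by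
    rw [← eH]
    linarith
  have f2 : |-G + R * H| * (D ^ 2 * n) ≤ (η * n ^ 2 + 2 * n * η ^ 2 + 2 * |σ| * η ^ 2) * (D ^ 2 * n) :=
    mul_le_mul_of_nonneg_right f1 (by positivity)
  refine f2.trans ?_
  have e : (η * n ^ 2 + 2 * n * η ^ 2 + 2 * |σ| * η ^ 2) * (D ^ 2 * n) =
      η * ((n * d) ^ 3 * d + 2 * η * ((n * d) ^ 2 * d ^ 2) + 2 * η * ((|σ| * d ^ 3) * (n * d))) := by
    rw [eD]; ring
  rw [e, eH]
  have hnd : 0 ≤ n * d := by positivity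
  have p1 : (n * d) ^ 3 * d ≤ (2 * η) ^ 3 * 1 :=
    mul_le_mul (pow_le_pow_left₀ hnd k1 3) hd1 hdp.le (by positivity)
  have p2 : (n * d) ^ 2 * d ^ 2 ≤ (2 * η) ^ 2 * 1 :=
    mul_le_mul (pow_le_pow_left₀ hnd k1 2) (pow_le_one₀ hdp.le hd1) (by positivity) (by positivity)
  have p3 : (|σ| * d ^ 3) * (n * d) ≤ (3 / 2 * η) * (2 * η) :=
    mul_le_mul k3 k1 hnd (by positivity)
  have p4 : (n * d) ^ 3 * d + 2 * η * ((n * d) ^ 2 * d ^ 2) + 2 * η * ((|σ| * d ^ 3) * (n * d)) ≤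
      22 * η ^ 3 := by
    have q2 := mul_le_mul_of_nonneg_left p2 (by positivity : (0:ℝ) ≤ 2 * η)
    have q3 := mul_le_mul_of_nonneg_left p3 (by positivity : (0:ℝ) ≤ 2 * η)
    calc _ ≤ (2 * η) ^ 3 * 1 + 2 * η * ((2 * η) ^ 2 * 1) + 2 * η * ((3 / 2 * η) * (2 * η)) := by
          linarith
      _ = 22 * η ^ 3 := by ring
  calc η * _ ≤ η * (22 * η ^ 3) := mul_le_mul_of_nonneg_left p4 hηp.le
    _ = 22 * (η ^ 2) ^ 2 := by ring

end

end

end Pool.Agent.Q62.HB
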