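import Pool.Agent.Q62.HB.Main

/-! Integrals over the parameters of an affine perturbation. -/

open Real Set MeasureTheory Topology Filter
open scoped ENNReal

namespace Pool.Agent.Q62.HB

noncomputable section

lemma lint_one_log {ρ σ : ℝ} (hρ : 0 < ρ) (hσ : 0 < σ) :
    ∫⁻ x in Ioc 0 ρ, ENNReal.ofReal (x / (x ^ 2 + σ ^ 2)) =
      ENNReal.ofReal (Real.log (1 + ρ ^ 2 / σ ^ 2) / 2) := by
  have hc : Continuous fun x : ℝ => x / (x ^ 2 + σ ^ 2) :=
    continuous_id.div (by fun_prop) fun x => by positivity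
  rw [← ofReal_integral_eq_lintegral_ofReal]
  · congr 1
    rw [← intervalIntegral.integral_of_le hρ.le]
    have hd : ∀ x ∈ uIcc 0 ρ, HasDerivAt (fun x : ℝ => Real.log (x ^ 2 + σ ^ 2) / 2)
        (x / (x ^ 2 + σ ^ 2)) x := by
      intro x _
      have h1 : HasDerivAt (fun x : ℝ => x ^ 2 + σ ^ 2) (2 * x) x := by
        simpa using (hasDerivAt_pow 2 x).add_const (σ ^ 2)
      have h2 := (h1.log (by positivity)).div_const 2
      refine h2.congr_deriv ?_
      field_simp
    rw [intervalIntegral.integral_eq_sub_of_hasDerivAt hd (hc.intervalIntegrable _ _)]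
    have e : 1 + ρ ^ 2 / σ ^ 2 = (ρ ^ 2 + σ ^ 2) / σ ^ 2 := by field_simp; ring
    rw [e, Real.log_div (by positivity) (by positivity)]
    norm_num
    ring
  · exact (hc.continuousOn.integrableOn_Icc (a := 0) (b := ρ)).mono_set Ioc_subset_Icc_self
  · filter_upwards [ae_restrict_mem measurableSet_Ioc] with x hx
    have := hx.1
    positivity

lemma lint_polar_log {ρ σ : ℝ} (hρ : 0 < ρ) (hσ : 0 < σ) :
    ∫⁻ y in {y : ℝ × ℝ | nm y ≤ ρ}, ENNReal.ofReal (1 / (nm y ^ 2 + σ ^ 2)) ≤
      ENNReal.ofReal (π * Real.log (1 + ρ ^ 2 / σ ^ 2)) := by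
  set G : ℝ × ℝ → ℝ≥0∞ := fun v => indicator {v | nm v ≤ ρ}
    (fun v => ENNReal.ofReal (1 / (nm v ^ 2 + σ ^ 2))) v with hG
  have hm : MeasurableSet {z : ℝ × ℝ | nm z ≤ ρ} :=
    (isClosed_le nm_cont continuous_const).measurableSet
  have e1 : ∫⁻ y in {y : ℝ × ℝ | nm y ≤ ρ}, ENNReal.ofReal (1 / (nm y ^ 2 + σ ^ 2)) =
      ∫⁻ z, G z := by
    rw [← lintegral_indicator hm]
  rw [e1, ← lintegral_comp_polarCoord_symm G]
  have hle : ∫⁻ p in polarCoord.target, ENNReal.ofReal p.1 • G (polarCoord.symm p) ≤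
      ∫⁻ p, indicator (Ioc 0 ρ ×ˢ Ioo (-π) π)
        (fun p => ENNReal.ofReal (p.1 / (p.1 ^ 2 + σ ^ 2)) * (fun _ => 1) p.2) p := by
    rw [← lintegral_indicator polarCoord.open_target.measurableSet]
    refine lintegral_mono fun p => ?_
    by_cases hp : p ∈ polarCoord.target
    · rw [indicator_of_mem hp]
      have hp' : 0 < p.1 ∧ p.2 ∈ Ioo (-π) π := by
        rw [polarCoord_target] at hp
        exact ⟨hp.1, hp.2⟩
      have hn : nm (polarCoord.symm p) = p.1 := by
        rw [polarCoord_symm_apply]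
        unfold nm
        have : (p.1 * Real.cos p.2) ^ 2 + (p.1 * Real.sin p.2) ^ 2 = p.1 ^ 2 := by
          have := Real.sin_sq_add_cos_sq p.2
          linear_combination p.1 ^ 2 * this
        rw [this, Real.sqrt_sq hp'.1.le]
      simp only [hG]
      by_cases hr : p.1 ≤ ρ
      · rw [indicator_of_mem (show polarCoord.symm p ∈ {v | nm v ≤ ρ} by
          show nm _ ≤ ρ
          rw [hn]; exact hr), indicator_of_mem (show p ∈ Ioc 0 ρ ×ˢ Ioo (-π) π from
          ⟨⟨hp'.1, hr⟩, hp'.2⟩), hn, smul_eq_mul, ← ENNReal.ofReal_mul hp'.1.le, mul_one]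
        refine le_of_eq ?_
        congr 1
        field_simp
      · rw [indicator_of_notMem (show polarCoord.symm p ∉ {v | nm v ≤ ρ} by
          show ¬ nm _ ≤ ρ
          rw [hn]; exact hr), smul_zero]
        exact bot_le
    · rw [indicator_of_notMem hp]
      exact bot_le
  refine hle.trans ?_
  have hmf : Measurable fun x : ℝ => ENNReal.ofReal (x / (x ^ 2 + σ ^ 2)) := by fun_prop
  rw [lintegral_indicator (measurableSet_Ioc.prod measurableSet_Ioo), Measure.volume_eq_prod,
    ← Measure.prod_restrict, lintegral_prod_mul (f := fun x : ℝ =>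
      ENNReal.ofReal (x / (x ^ 2 + σ ^ 2))) (g := fun _ : ℝ => (1:ℝ≥0∞)) hmf.aemeasurable
      aemeasurable_const, lint_one_log hρ hσ, lintegral_one, Measure.restrict_apply
      MeasurableSet.univ, univ_inter, Real.volume_Ioo, ← ENNReal.ofReal_mul (by
        have : 1 ≤ 1 + ρ ^ 2 / σ ^ 2 := by
          have : 0 ≤ ρ ^ 2 / σ ^ 2 := by positivity
          linarith
        have := Real.log_nonneg this
        positivity)]
  refine ENNReal.ofReal_le_ofReal (le_of_eq ?_)
  ring

/-- the inverse square root, with the value infinity at zero -/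
def isq (x : ℝ) : ℝ≥0∞ := (ENNReal.ofReal |x|) ^ (-(1 / 2) : ℝ)

lemma isq_meas : Measurable isq := by
  unfold isq
  fun_prop

lemma isq_zero : isq 0 = ⊤ := by
  unfold isq
  rw [abs_zero, ENNReal.ofReal_zero, ENNReal.zero_rpow_of_neg (by norm_num)]

lemma isq_eq {x : ℝ} (hx : x ≠ 0) : isq x = ENNReal.ofReal (|x| ^ (-(1 / 2) : ℝ)) := by
  unfold isq
  rw [ENNReal.ofReal_rpow_of_pos (abs_pos.2 hx)]

lemma lint_isq_pos {β : ℝ} (hβ : 0 < β) : ∫⁻ x in Ioc 0 β, isq x ≤ ENNReal.ofReal (2 * √β) := by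
  have h1 : ∫⁻ x in Ioc 0 β, isq x = ∫⁻ x in Ioc 0 β, ENNReal.ofReal (x ^ (-(1 / 2) : ℝ)) := by
    refine setLIntegral_congr_fun measurableSet_Ioc (fun x hx => ?_)
    rw [isq_eq hx.1.ne', abs_of_pos hx.1]
  have hint : IntervalIntegrable (fun x : ℝ => x ^ (-(1 / 2) : ℝ)) volume 0 β :=
    intervalIntegral.intervalIntegrable_rpow' (by norm_num)
  rw [h1, ← ofReal_integral_eq_lintegral_ofReal]
  · refine ENNReal.ofReal_le_ofReal (le_of_eq ?_)
    rw [← intervalIntegral.integral_of_le hβ.le, integral_rpow (Or.inl (by norm_num)),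
      Real.zero_rpow (by norm_num), Real.sqrt_eq_rpow]
    norm_num
    ring
  · exact (intervalIntegrable_iff_integrableOn_Ioc_of_le hβ.le).1 hint
  · filter_upwards [ae_restrict_mem measurableSet_Ioc] with x hx
    have := hx.1
    positivity

lemma isq_neg (x : ℝ) : isq (-x) = isq x := by unfold isq; rw [abs_neg]

lemma lint_isq_zero {β : ℝ} (hβ : 0 < β) :
    ∫⁻ x, indicator (Icc (-β) β) isq x ≤ ENNReal.ofReal (4 * √β) := by
  have h1 : ∀ x, indicator (Icc (-β) β) isq x ≤ indicator (Ioc 0 β) isq x +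
      (indicator (Ioc 0 β) isq (-x) + indicator {0} isq x) := by
    intro x
    by_cases hx : x ∈ Icc (-β) β
    · rw [indicator_of_mem hx]
      rcases lt_trichotomy x 0 with h | h | h
      · rw [indicator_of_mem (show -x ∈ Ioc 0 β from ⟨by linarith, by linarith [hx.1]⟩), isq_neg]
        exact le_add_left (le_add_right le_rfl)
      · subst h
        rw [indicator_of_mem (mem_singleton (0:ℝ))]
        exact le_add_left (le_add_left le_rfl)
      · rw [indicator_of_mem (show x ∈ Ioc 0 β from ⟨h, hx.2⟩)]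
        exact le_add_right le_rfl
    · rw [indicator_of_notMem hx]
      exact bot_le
  have hm1 : Measurable (indicator (Ioc 0 β) isq) := isq_meas.indicator measurableSet_Ioc
  have hm2 : Measurable fun x => indicator (Ioc 0 β) isq (-x) := hm1.comp measurable_neg
  refine (lintegral_mono h1).trans ?_
  rw [lintegral_add_left hm1, lintegral_add_left hm2]
  have e1 : ∫⁻ x, indicator (Ioc 0 β) isq (-x) = ∫⁻ x, indicator (Ioc 0 β) isq x :=
    lintegral_neg_eq_self (fun x => indicator (Ioc 0 β) isq x)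
  have e2 : ∫⁻ x, indicator ({0} : Set ℝ) isq x = 0 := by
    rw [lintegral_indicator (measurableSet_singleton _)]
    exact setLIntegral_measure_zero _ _ (by simp)
  rw [e1, e2, add_zero, lintegral_indicator measurableSet_Ioc]
  have h2 := lint_isq_pos hβ
  calc _ ≤ ENNReal.ofReal (2 * √β) + ENNReal.ofReal (2 * √β) := add_le_add h2 h2
    _ = _ := by
        rw [← ENNReal.ofReal_add (by positivity) (by positivity)]
        congr 1
        ring

/-- translated interval -/
lemma lint_isq {β : ℝ} (hβ : 0 < β) (s : ℝ) :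
    ∫⁻ t in Icc (-β) β, isq (s + t) ≤ ENNReal.ofReal (6 * √β) := by
  have h1 : ∀ t, isq (s + t) ≤ indicator (Icc (-β) β) isq (s + t) + ENNReal.ofReal (1 / √β) := by
    intro t
    by_cases ht : s + t ∈ Icc (-β) β
    · rw [indicator_of_mem ht]
      exact le_add_right le_rfl
    · have h2 : β < |s + t| := by
        by_contra hc
        push Not at hc
        exact ht (abs_le.1 hc)
      have h3 : s + t ≠ 0 := by
        intro h
        rw [h, abs_zero] at h2
        linarith
      rw [isq_eq h3]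
      refine le_add_left (ENNReal.ofReal_le_ofReal ?_)
      have h4 : |s + t| ^ (-(1 / 2) : ℝ) ≤ β ^ (-(1 / 2) : ℝ) :=
        Real.rpow_le_rpow_of_nonpos hβ h2.le (by norm_num)
      refine h4.trans (le_of_eq ?_)
      rw [Real.rpow_neg hβ.le, ← Real.sqrt_eq_rpow, one_div]
  have hm : Measurable fun t => indicator (Icc (-β) β) isq (s + t) :=
    (isq_meas.indicator measurableSet_Icc).comp (measurable_const_add s)
  calc ∫⁻ t in Icc (-β) β, isq (s + t) ≤
        ∫⁻ t in Icc (-β) β, (indicator (Icc (-β) β) isq (s + t) + ENNReal.ofReal (1 / √β)) :=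
        lintegral_mono h1
    _ = (∫⁻ t in Icc (-β) β, indicator (Icc (-β) β) isq (s + t)) +
          ENNReal.ofReal (1 / √β) * ENNReal.ofReal (2 * β) := by
        rw [lintegral_add_left hm, lintegral_const, Measure.restrict_apply MeasurableSet.univ,
          univ_inter, Real.volume_Icc]
        congr 3
        ring
    _ ≤ (∫⁻ t, indicator (Icc (-β) β) isq (s + t)) + ENNReal.ofReal (2 * √β) := by
        refine add_le_add (setLIntegral_le_lintegral _ _) ?_
        rw [← ENNReal.ofReal_mul (by positivity)]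
        refine ENNReal.ofReal_le_ofReal (le_of_eq ?_)
        have h5 : √β ^ 2 = β := Real.sq_sqrt hβ.le
        have h6 : 0 < √β := Real.sqrt_pos.2 hβ
        rw [one_div, inv_mul_eq_div, div_eq_iff h6.ne']
        nlinarith
    _ = (∫⁻ t, indicator (Icc (-β) β) isq t) + ENNReal.ofReal (2 * √β) := by
        rw [lintegral_add_left_eq_self (fun t => indicator (Icc (-β) β) isq t) s]
    _ ≤ ENNReal.ofReal (4 * √β) + ENNReal.ofReal (2 * √β) := by
        gcongr
        exact lint_isq_zero hβ
    _ = _ := by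
        rw [← ENNReal.ofReal_add (by positivity) (by positivity)]
        congr 1
        ring

lemma isq_mul {v x : ℝ} (hv : v ≠ 0) : isq (v * x) = isq v * isq x := by
  unfold isq
  rw [abs_mul, ENNReal.ofReal_mul (abs_nonneg v),
    ENNReal.mul_rpow_of_ne_top ENNReal.ofReal_ne_top ENNReal.ofReal_ne_top]

/-- affine argument -/
lemma lint_isq_lin {β : ℝ} (hβ : 0 < β) (c v w : ℝ) :
    ∫⁻ t in Icc (-β) β, isq ((c + t) * v - w) ≤ isq v * ENNReal.ofReal (6 * √β) := by
  by_cases hv : v = 0
  · rw [hv, isq_zero, ENNReal.top_mul (by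
      rw [Ne, ENNReal.ofReal_eq_zero, not_le]
      have := Real.sqrt_pos.2 hβ
      positivity)]
    exact le_top
  have h1 : ∀ t, isq ((c + t) * v - w) = isq v * isq ((c - w / v) + t) := by
    intro t
    rw [← isq_mul hv]
    congr 1
    field_simp
    ring
  simp only [h1]
  have hm : Measurable fun t => isq ((c - w / v) + t) := isq_meas.comp (measurable_const_add _)
  rw [lintegral_const_mul _ hm]
  exact mul_le_mul_right (lint_isq hβ _) _

end

end Pool.Agent.Q62.HB
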