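import Pool.Agent.Q62.HB.Int

/-! Integrals over the parameters of an affine perturbation, part two. -/

open Real Set MeasureTheory Topology Filter
open scoped ENNReal

namespace Pool.Agent.Q62.HB

noncomputable section

/-- the square of half side `β` -/
def Q2 (β : ℝ) : Set (ℝ × ℝ) := Icc (-β) β ×ˢ Icc (-β) β

lemma Q2_meas (β : ℝ) : MeasurableSet (Q2 β) := measurableSet_Icc.prod measurableSet_Icc

lemma Q2_vol {β : ℝ} (hβ : 0 < β) : volume (Q2 β) = ENNReal.ofReal (4 * β ^ 2) := by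
  unfold Q2
  rw [Measure.volume_eq_prod, Measure.prod_prod, Real.volume_Icc,
    ← ENNReal.ofReal_mul (by linarith)]
  congr 1
  ring

/-- the integral over the constant part of the perturbation -/
lemma lint_b {β σ : ℝ} (hβ : 0 < β) (hσ : 0 < σ) (w : ℝ × ℝ) :
    ∫⁻ b in Q2 β, ENNReal.ofReal (1 / (nm (w + b) ^ 2 + σ ^ 2)) ≤
      ENNReal.ofReal (π * Real.log (1 + β ^ 2 / σ ^ 2) + 4) := by
  set f : ℝ × ℝ → ℝ≥0∞ := fun v => ENNReal.ofReal (1 / (nm v ^ 2 + σ ^ 2)) with hf
  have hfm : Measurable f := by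
    have : Continuous fun v : ℝ × ℝ => 1 / (nm v ^ 2 + σ ^ 2) :=
      continuous_const.div ((nm_cont.pow 2).add continuous_const) fun v => by positivity
    exact ENNReal.measurable_ofReal.comp this.measurable
  set B : Set (ℝ × ℝ) := {v | nm v ≤ β} with hB
  have hBm : MeasurableSet B := (isClosed_le nm_cont continuous_const).measurableSet
  have h1 : ∀ b, f (w + b) ≤ indicator B f (w + b) + ENNReal.ofReal (1 / β ^ 2) := by
    intro b
    by_cases hb : w + b ∈ B
    · rw [indicator_of_mem hb]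
      exact le_add_right le_rfl
    · refine le_add_left (ENNReal.ofReal_le_ofReal ?_)
      have h2 : β < nm (w + b) := not_le.1 hb
      refine one_div_le_one_div_of_le (by positivity) ?_
      have : β ^ 2 ≤ nm (w + b) ^ 2 := pow_le_pow_left₀ hβ.le h2.le 2
      nlinarith [sq_nonneg σ]
  have hm : Measurable fun b => indicator B f (w + b) :=
    (hfm.indicator hBm).comp (measurable_const_add w)
  have hlog : 0 ≤ Real.log (1 + β ^ 2 / σ ^ 2) := by
    refine Real.log_nonneg ?_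
    have : 0 ≤ β ^ 2 / σ ^ 2 := by positivity
    linarith
  calc ∫⁻ b in Q2 β, f (w + b) ≤
        ∫⁻ b in Q2 β, (indicator B f (w + b) + ENNReal.ofReal (1 / β ^ 2)) := lintegral_mono h1
    _ = (∫⁻ b in Q2 β, indicator B f (w + b)) + ENNReal.ofReal (1 / β ^ 2) *
          ENNReal.ofReal (4 * β ^ 2) := by
        rw [lintegral_add_left hm, lintegral_const, Measure.restrict_apply MeasurableSet.univ,
          univ_inter, Q2_vol hβ]
    _ ≤ (∫⁻ b, indicator B f (w + b)) + ENNReal.ofReal 4 := by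
        refine add_le_add (setLIntegral_le_lintegral _ _) ?_
        rw [← ENNReal.ofReal_mul (by positivity)]
        refine ENNReal.ofReal_le_ofReal (le_of_eq ?_)
        field_simp
    _ = (∫⁻ b, indicator B f b) + ENNReal.ofReal 4 := by
        rw [lintegral_add_left_eq_self (fun b => indicator B f b) w]
    _ = (∫⁻ b in B, f b) + ENNReal.ofReal 4 := by rw [lintegral_indicator hBm]
    _ ≤ ENNReal.ofReal (π * Real.log (1 + β ^ 2 / σ ^ 2)) + ENNReal.ofReal 4 := by
        gcongr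
        exact lint_polar_log hβ hσ
    _ = _ := by
        rw [← ENNReal.ofReal_add (by positivity) (by norm_num)]

/-- the determinant of the sum of the matrices with columns `c.1, c.2` and `m.1, m.2` -/
def Wd (c m : (ℝ × ℝ) × (ℝ × ℝ)) : ℝ :=
  (c.1.1 + m.1.1) * (c.2.2 + m.2.2) - (c.1.2 + m.1.2) * (c.2.1 + m.2.1)

lemma Wd_cont : Continuous fun x : ((ℝ × ℝ) × (ℝ × ℝ)) × ((ℝ × ℝ) × (ℝ × ℝ)) => Wd x.1 x.2 := by
  unfold Wd
  fun_prop

lemma Wd_meas (c : (ℝ × ℝ) × (ℝ × ℝ)) : Measurable (Wd c) := by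
  have : Continuous (Wd c) := by unfold Wd; fun_prop
  exact this.measurable

lemma lint_isq_row {β : ℝ} (hβ : 0 < β) (c1 c2 v u : ℝ) :
    ∫⁻ p in Q2 β, isq ((c1 + p.1) * v - (c2 + p.2) * u) ≤
      isq v * ENNReal.ofReal (12 * (β * √β)) := by
  have hm : Measurable fun p : ℝ × ℝ => isq ((c1 + p.1) * v - (c2 + p.2) * u) :=
    isq_meas.comp (by fun_prop)
  unfold Q2
  rw [Measure.volume_eq_prod, ← Measure.prod_restrict, lintegral_prod_symm _ hm.aemeasurable]
  calc ∫⁻ y in Icc (-β) β, ∫⁻ x in Icc (-β) β, isq ((c1 + x) * v - (c2 + y) * u) ≤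
        ∫⁻ _y in Icc (-β) β, isq v * ENNReal.ofReal (6 * √β) :=
        lintegral_mono fun y => lint_isq_lin hβ c1 v ((c2 + y) * u)
    _ = isq v * ENNReal.ofReal (12 * (β * √β)) := by
        rw [lintegral_const, Measure.restrict_apply MeasurableSet.univ, univ_inter,
          Real.volume_Icc, mul_assoc, ← ENNReal.ofReal_mul (by positivity)]
        congr 2
        ring

lemma lint_isq_det {β : ℝ} (hβ : 0 < β) (c : (ℝ × ℝ) × (ℝ × ℝ)) :
    ∫⁻ m in Q2 β ×ˢ Q2 β, isq (Wd c m) ≤ ENNReal.ofReal (144 * β ^ 3) := by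
  have hm : Measurable fun m : (ℝ × ℝ) × (ℝ × ℝ) => isq (Wd c m) := isq_meas.comp (Wd_meas c)
  rw [Measure.volume_eq_prod, ← Measure.prod_restrict, lintegral_prod_symm _ hm.aemeasurable]
  have hs : √β ^ 2 = β := Real.sq_sqrt hβ.le
  calc ∫⁻ q in Q2 β, ∫⁻ p in Q2 β, isq (Wd c (p, q)) ≤
        ∫⁻ q in Q2 β, isq (c.2.2 + q.2) * ENNReal.ofReal (12 * (β * √β)) := by
        refine lintegral_mono fun q => ?_
        exact lint_isq_row hβ c.1.1 c.1.2 (c.2.2 + q.2) (c.2.1 + q.1)
    _ = (∫⁻ q in Q2 β, isq (c.2.2 + q.2)) * ENNReal.ofReal (12 * (β * √β)) := by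
        have hmq : Measurable fun q : ℝ × ℝ => isq (c.2.2 + q.2) := isq_meas.comp (by fun_prop)
        rw [lintegral_mul_const _ hmq]
    _ ≤ ENNReal.ofReal (12 * (β * √β)) * ENNReal.ofReal (12 * (β * √β)) := by
        gcongr
        have hmq : Measurable fun q : ℝ × ℝ => isq (c.2.2 + q.2) := isq_meas.comp (by fun_prop)
        unfold Q2
        rw [Measure.volume_eq_prod, ← Measure.prod_restrict, lintegral_prod _ hmq.aemeasurable]
        calc ∫⁻ _x in Icc (-β) β, ∫⁻ y in Icc (-β) β, isq (c.2.2 + y) ≤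
              ∫⁻ _x in Icc (-β) β, ENNReal.ofReal (6 * √β) :=
              lintegral_mono fun x => lint_isq hβ c.2.2
          _ = ENNReal.ofReal (12 * (β * √β)) := by
              rw [lintegral_const, Measure.restrict_apply MeasurableSet.univ, univ_inter,
                Real.volume_Icc, ← ENNReal.ofReal_mul (by positivity)]
              congr 1
              ring
    _ = ENNReal.ofReal (144 * β ^ 3) := by
        rw [← ENNReal.ofReal_mul (by positivity)]
        congr 1
        calc 12 * (β * √β) * (12 * (β * √β)) = 144 * β ^ 2 * √β ^ 2 := by ring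
          _ = _ := by rw [hs]; ring

/-- Fubini on a product set -/
lemma fub {A : Set (ℝ × ℝ)} {B : Set ((ℝ × ℝ) × (ℝ × ℝ))}
    (f : (ℝ × ℝ) × ((ℝ × ℝ) × (ℝ × ℝ)) → ℝ≥0∞) (hf : Measurable f) :
    ∫⁻ a in A ×ˢ B, f a = ∫⁻ m in B, ∫⁻ b in A, f (b, m) := by
  have h1 : (volume : Measure ((ℝ × ℝ) × ((ℝ × ℝ) × (ℝ × ℝ)))).restrict (A ×ˢ B) =
      ((volume : Measure (ℝ × ℝ)).restrict A).prod
        ((volume : Measure ((ℝ × ℝ) × (ℝ × ℝ))).restrict B) := by
    rw [Measure.prod_restrict]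
    rfl
  rw [h1]
  exact lintegral_prod_symm f hf.aemeasurable

end

end Pool.Agent.Q62.HB
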