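import Pool.Agent.Q62.HB.Weight

/-! The closed orbits which are not contained in a small disc about an equilibrium. -/

open Real Set MeasureTheory Topology Filter
open scoped ENNReal

namespace Pool.Agent.Q62.HB

noncomputable section

open Pool.Agent.H709R2 (rot wedge ClosedOrbit divW divRot Jac)
open Pool.Agent.H709U (dot rf Orb InBox)

variable {X : ℝ × ℝ → ℝ × ℝ} {K : Set (ℝ × ℝ)}

/-- oscillation and derivative -/
lemma osc_le {f f' g : ℝ → ℝ} {T : ℝ} (hf : ∀ t, HasDerivAt f (f' t) t) (hf' : Continuous f')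
    (hg : Continuous g) (hle : ∀ t, |f' t| ≤ g t) {s t : ℝ} (hs : s ∈ Icc 0 T)
    (ht : t ∈ Icc 0 T) : |f s - f t| ≤ ∫ t in (0:ℝ)..T, g t := by
  have hst : ∀ {s t : ℝ}, s ∈ Icc 0 T → t ∈ Icc 0 T → s ≤ t →
      |f s - f t| ≤ ∫ t in (0:ℝ)..T, g t := by
    intro s t hs ht hst
    rw [abs_sub_comm, ← intervalIntegral.integral_eq_sub_of_hasDerivAt (fun x _ => hf x)
      (hf'.intervalIntegrable _ _)]
    refine (intervalIntegral.abs_integral_le_integral_abs hst).trans ?_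
    refine (intervalIntegral.integral_mono_on hst (hf'.abs.intervalIntegrable _ _)
      (hg.intervalIntegrable _ _) (fun x _ => hle x)).trans ?_
    exact intervalIntegral.integral_mono_interval hs.1 hst ht.2
      (Filter.Eventually.of_forall fun x => (abs_nonneg _).trans (hle x))
      (hg.intervalIntegrable _ _)
  rcases le_total s t with h | h
  · exact hst hs ht h
  · rw [abs_sub_comm]; exact hst ht hs h

lemma hasDerivAt_maxsq (x : ℝ) : HasDerivAt (fun x : ℝ => (max 0 x) ^ 2) (2 * max 0 x) x := by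
  rcases lt_trichotomy x 0 with h | h | h
  · have h1 : (fun x : ℝ => (max 0 x) ^ 2) =ᶠ[𝓝 x] fun _ => 0 := by
      filter_upwards [gt_mem_nhds h] with y hy
      rw [max_eq_left (le_of_lt hy)]; norm_num
    rw [max_eq_left h.le, mul_zero]
    exact (hasDerivAt_const x (0:ℝ)).congr_of_eventuallyEq h1
  · subst h
    rw [max_self, mul_zero, hasDerivAt_iff_isLittleO_nhds_zero]
    simp only [zero_add, max_self, ne_eq, OfNat.ofNat_ne_zero, not_false_eq_true, zero_pow,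
      sub_zero, smul_zero]
    refine Asymptotics.IsBigO.trans_isLittleO (g := fun h : ℝ => h ^ 2) ?_
      (Asymptotics.isLittleO_pow_id one_lt_two)
    refine Asymptotics.IsBigO.of_bound 1 (Filter.Eventually.of_forall fun y => ?_)
    rw [one_mul, Real.norm_eq_abs, Real.norm_eq_abs, abs_of_nonneg (sq_nonneg _),
      abs_of_nonneg (sq_nonneg _)]
    rcases le_total y 0 with hy | hy
    · rw [max_eq_left hy]; nlinarith [sq_nonneg y]
    · rw [max_eq_right hy]
  · have h1 : (fun x : ℝ => (max 0 x) ^ 2) =ᶠ[𝓝 x] fun x => x ^ 2 := by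
      filter_upwards [lt_mem_nhds h] with y hy
      rw [max_eq_right (le_of_lt hy)]
    rw [max_eq_right h.le]
    refine HasDerivAt.congr_of_eventuallyEq ?_ h1
    simpa using hasDerivAt_pow 2 x

lemma hasDerivAt_nmsq {γ : ℝ → ℝ × ℝ} {γ' p : ℝ × ℝ} {t : ℝ} (h : HasDerivAt γ γ' t) :
    HasDerivAt (fun t => nm (γ t - p) ^ 2) (2 * dot (γ t - p) γ') t := by
  have h1 : HasDerivAt (fun t => (γ t).1 - p.1) γ'.1 t :=
    ((ContinuousLinearMap.fst ℝ ℝ ℝ).hasFDerivAt.comp_hasDerivAt t h).sub_const _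
  have h2 : HasDerivAt (fun t => (γ t).2 - p.2) γ'.2 t :=
    ((ContinuousLinearMap.snd ℝ ℝ ℝ).hasFDerivAt.comp_hasDerivAt t h).sub_const _
  have h3 := (h1.pow 2).add (h2.pow 2)
  have e : (fun t => nm (γ t - p) ^ 2) = fun t => ((γ t).1 - p.1) ^ 2 + ((γ t).2 - p.2) ^ 2 := by
    funext t; rw [nm_sq]; rfl
  rw [e]
  refine h3.congr_deriv ?_
  unfold dot
  simp
  ring

/-- **the large closed orbits carry a fixed amount of the weight** -/
theorem large_len (h : Nrm X K) {K₀ : Set (ℝ × ℝ)}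
    (hK₀ : ∀ z ∈ K₀, ∀ y, nm (y - z) ≤ 1 → y ∈ K) {α T : ℝ} {γ : ℝ → ℝ × ℝ}
    (hγ : Orb (rf X α) γ T) (hγK : ∀ t, γ t ∈ K₀)
    (hlarge : ∀ p, X p = 0 → Jac X p ≠ 0 → (∃ z ∈ K₀, nm (p - z) ≤ 1 / 2) →
      ∃ t, |Jac X p| ^ 3 / 256 < nm (γ t - p)) :
    1 / 10 ≤ ∫ t in (0:ℝ)..T, (V X (γ t))⁻¹ * H709R2.sq (X (γ t)) := by
  have hsub : ∀ z ∈ K₀, z ∈ K := fun z hz => hK₀ z hz z (by rw [sub_self, nm_zero]; norm_num)
  have hγK' : ∀ t, γ t ∈ K := fun t => hsub _ (hγK t)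
  have hγc := orb_cont hγ
  have hXc := h.cd.continuous
  have hXne : ∀ t, X (γ t) ≠ 0 := fun t hc => hγ.ne t (by unfold rf; rw [hc, rot_zero'])
  have hc : Continuous fun t => (V X (γ t))⁻¹ * nm (X (γ t)) ^ 2 :=
    ((h.V_contDiff.continuous.comp hγc).inv₀ fun t => (V_pos (hXne t)).ne').mul
      ((nm_cont.comp (hXc.comp hγc)).pow 2)
  simp only [← nm_sq']
  by_cases hcase : ∀ t, 1 / 4096 * |Jac X (γ t)| ^ 4 ≤ nm (X (γ t))
  · -- the field is nowhere small
    have hpt : ∀ t, (1:ℝ) / 2 ≤ (V X (γ t))⁻¹ * nm (X (γ t)) ^ 2 := by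
      intro t
      have h1 := V_pos (hXne t)
      have h2 : V X (γ t) ≤ 2 * nm (X (γ t)) ^ 2 := by
        unfold V
        have h3 : (1 / 4096 * |Jac X (γ t)| ^ 4) ^ 2 ≤ nm (X (γ t)) ^ 2 :=
          pow_le_pow_left₀ (by positivity) (hcase t) 2
        have h4 : (1 / 4096 * |Jac X (γ t)| ^ 4) ^ 2 = (1 / 4096) ^ 2 * Jac X (γ t) ^ 8 := by
          rw [mul_pow, ← pow_mul, show 4 * 2 = 8 by norm_num, ← abs_pow,
            abs_of_nonneg (show (0:ℝ) ≤ Jac X (γ t) ^ 8 by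
              rw [show (8:ℕ) = 2 * 4 by norm_num, pow_mul]; positivity)]
        rw [h4] at h3
        linarith
      rw [inv_mul_eq_div, le_div_iff₀ h1]
      linarith
    have hmono := intervalIntegral.integral_mono_on (μ := volume) hγ.pos.le
      (continuous_const (y := (1:ℝ) / 2) |>.intervalIntegrable 0 T)
      (hc.intervalIntegrable 0 T) (fun t _ => hpt t)
    rw [intervalIntegral.integral_const, smul_eq_mul, sub_zero] at hmono
    have hT := period_ge h hγ hγK'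
    linarith
  · push Not at hcase
    obtain ⟨t₀', ht₀'⟩ := hcase
    obtain ⟨t₀, ht₀m, ht₀e⟩ := mem_period hγ.pos hγ.per t₀'
    rw [← ht₀e] at ht₀'
    obtain ⟨j, hj⟩ : ∃ j, j = |Jac X (γ t₀)| := ⟨_, rfl⟩
    obtain ⟨x₀, hx₀⟩ : ∃ x₀, x₀ = nm (X (γ t₀)) := ⟨_, rfl⟩
    rw [← hj, ← hx₀] at ht₀'
    have hj1 : j ≤ 1 := hj ▸ h.jac_le_one (hγK' t₀)
    have hj0' : 0 ≤ j := hj ▸ abs_nonneg _
    have hx₀0 : 0 ≤ x₀ := hx₀ ▸ nm_nonneg _
    have hjp : 0 < j := by
      rcases hj0'.eq_or_lt with h0 | h0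
      · rw [← h0] at ht₀'
        norm_num at ht₀'
        linarith
      · exact h0
    have hj4 : j ^ 4 ≤ j ^ 2 := pow_le_pow_of_le_one hj0' hj1 (by norm_num)
    have hj3 : j ^ 3 ≤ j := by
      calc j ^ 3 ≤ j ^ 1 := pow_le_pow_of_le_one hj0' hj1 (by norm_num)
        _ = j := pow_one j
    obtain ⟨p, hp0, hpz⟩ := newton h (hK₀ _ (hγK t₀)) (by rw [← hj]; exact hjp)
      (by rw [← hj, ← hx₀]; linarith [sq_nonneg j])
    rw [← hj, ← hx₀] at hpz
    have hpz2 : nm (p - γ t₀) ≤ 3 / 4096 * j ^ 3 := by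
      refine hpz.trans ?_
      rw [div_le_iff₀ hjp]
      nlinarith
    have hpK : p ∈ K := hK₀ _ (hγK t₀) p (by linarith)
    obtain ⟨D, hDD⟩ : ∃ D, D = |Jac X p| := ⟨_, rfl⟩
    have hDj : |D - j| ≤ 6 / 4096 * j := by
      rw [hDD, hj]
      refine (abs_abs_sub_abs_le_abs_sub _ _).trans ?_
      refine (h.jac_lip (hγK' t₀) hpK).trans ?_
      rw [← hj]
      linarith
    have hDj' := abs_le.1 hDj
    have hD1 : D ≤ 1 := hDD ▸ h.jac_le_one hpK
    have hDp : 0 < D := by linarith [hDj'.1]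
    have hjD : j ≤ 1.0015 * D := by linarith [hDj'.1]
    have hjD3 : j ^ 3 ≤ 1.005 * D ^ 3 := by
      calc j ^ 3 ≤ (1.0015 * D) ^ 3 := pow_le_pow_left₀ hj0' hjD 3
        _ = 1.0015 ^ 3 * D ^ 3 := by ring
        _ ≤ 1.005 * D ^ 3 := by
            refine mul_le_mul_of_nonneg_right (by norm_num) (by positivity)
    obtain ⟨ρ, hρ⟩ : ∃ ρ, ρ = D ^ 3 / 256 := ⟨_, rfl⟩
    have hρp : 0 < ρ := by rw [hρ]; positivity
    have hD3 : D ^ 3 ≤ D := by
      calc D ^ 3 ≤ D ^ 1 := pow_le_pow_of_le_one hDp.le hD1 (by norm_num)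
        _ = D := pow_one D
    have hρD : ρ ≤ D / 256 := by rw [hρ]; linarith
    have hclose : nm (γ t₀ - p) ≤ ρ / 4 := by
      rw [nm_sub_comm, hρ]
      have : 0 < D ^ 3 := by positivity
      linarith
    have hJp : Jac X p ≠ 0 := by
      intro hc
      rw [hc, abs_zero] at hDD
      exact hDp.ne' hDD
    obtain ⟨t₂', ht₂'⟩ := hlarge p hp0 hJp ⟨γ t₀, hγK t₀, by linarith⟩
    obtain ⟨t₂, ht₂m, ht₂e⟩ := mem_period hγ.pos hγ.per t₂'
    rw [← ht₂e, ← hDD, ← hρ] at ht₂'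
    -- the test function
    set U : ℝ → ℝ := fun t => (max 0 (ρ ^ 2 - nm (γ t - p) ^ 2)) ^ 2 with hU
    have hUd : ∀ t, HasDerivAt U (2 * max 0 (ρ ^ 2 - nm (γ t - p) ^ 2) *
        (-(2 * dot (γ t - p) (rot α (X (γ t)))))) t := by
      intro t
      have h1 := (hasDerivAt_nmsq (p := p) (hγ.ode t)).const_sub (ρ ^ 2)
      exact (hasDerivAt_maxsq (ρ ^ 2 - nm (γ t - p) ^ 2)).comp t h1
    have hrc : Continuous fun t => rot α (X (γ t)) := (H709R2.continuous_rot α).comp (hXc.comp hγc)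
    have hUc : Continuous fun t => 2 * max 0 (ρ ^ 2 - nm (γ t - p) ^ 2) *
        (-(2 * dot (γ t - p) (rot α (X (γ t))))) := by
      have hn : Continuous fun t => nm (γ t - p) := nm_cont.comp (hγc.sub continuous_const)
      have hd : Continuous fun t => dot (γ t - p) (rot α (X (γ t))) := by
        unfold dot
        exact ((continuous_fst.comp (hγc.sub continuous_const)).mul (continuous_fst.comp hrc)).add
          ((continuous_snd.comp (hγc.sub continuous_const)).mul (continuous_snd.comp hrc))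
      exact (continuous_const.mul (continuous_const.max (continuous_const.sub (hn.pow 2)))).mul
        ((continuous_const.mul hd).neg)
    have hpt : ∀ t, |2 * max 0 (ρ ^ 2 - nm (γ t - p) ^ 2) *
        (-(2 * dot (γ t - p) (rot α (X (γ t)))))| ≤
        8 * ρ ^ 4 * ((V X (γ t))⁻¹ * nm (X (γ t)) ^ 2) := by
      intro t
      have hVp := V_pos (hXne t)
      have hdot := dot_le (γ t - p) (rot α (X (γ t)))
      rw [nm_rot] at hdot
      have hlip := h.lip hpK (hγK' t)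
      rw [hp0, sub_zero] at hlip
      have hlow := h.lower hpK (hγK' t) hp0
      rw [← hDD] at hlow
      have hjl := h.jac_lip hpK (hγK' t)
      have hJt : |Jac X (γ t)| ≤ D + 2 * nm (γ t - p) := by
        have := abs_sub_abs_le_abs_sub (Jac X (γ t)) (Jac X p)
        rw [← hDD] at this
        linarith
      have hxp := nm_pos (hXne t)
      have hVe : V X (γ t) = nm (X (γ t)) ^ 2 + (1 / 4096) ^ 2 * |Jac X (γ t)| ^ 8 := by
        unfold V
        rw [← abs_pow, abs_of_nonneg (show (0:ℝ) ≤ Jac X (γ t) ^ 8 by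
          rw [show (8:ℕ) = 2 * 4 by norm_num, pow_mul]; positivity)]
      obtain ⟨n, hn⟩ : ∃ n, n = nm (γ t - p) := ⟨_, rfl⟩
      obtain ⟨x, hx⟩ : ∃ x, x = nm (X (γ t)) := ⟨_, rfl⟩
      obtain ⟨J, hJ⟩ : ∃ J, J = |Jac X (γ t)| := ⟨_, rfl⟩
      obtain ⟨W, hW⟩ : ∃ W, W = V X (γ t) := ⟨_, rfl⟩
      have hn0 : 0 ≤ n := hn ▸ nm_nonneg _
      have hJ0 : 0 ≤ J := hJ ▸ abs_nonneg _
      rw [← hn, ← hx] at hdot hlip hlow
      rw [← hn, ← hJ] at hJt
      rw [← hx] at hxp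
      rw [← hx, ← hJ, ← hW] at hVe
      rw [← hW] at hVp
      rw [← hn, ← hx, ← hW]
      rcases le_or_gt ρ n with hr | hr
      · have : ρ ^ 2 - n ^ 2 ≤ 0 := by nlinarith
        rw [max_eq_left this]
        simp only [mul_zero, zero_mul, abs_zero]
        positivity
      · have h0 : 0 ≤ ρ ^ 2 - n ^ 2 := by nlinarith
        rw [max_eq_right h0, abs_mul, abs_neg, abs_mul 2 (dot _ _), abs_of_pos (by norm_num : (0:ℝ) < 2),
          abs_of_nonneg (by positivity)]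
        have k1 : 2 * (ρ ^ 2 - n ^ 2) * (2 * |dot (γ t - p) (rot α (X (γ t)))|) ≤
            4 * ρ ^ 2 * (n * x) := by
          have : (ρ ^ 2 - n ^ 2) ≤ ρ ^ 2 := by nlinarith
          calc 2 * (ρ ^ 2 - n ^ 2) * (2 * |dot (γ t - p) (rot α (X (γ t)))|)
              ≤ 2 * ρ ^ 2 * (2 * (n * x)) := by gcongr
            _ = _ := by ring
        refine k1.trans ?_
        have hnD : n ≤ D / 256 := hr.le.trans hρD
        have k2 : D * n ≤ 2 * x := by nlinarith
        have k3 : J ≤ 129 / 128 * D := by linarith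
        have k4 : J ^ 8 ≤ 1.065 * D ^ 8 := by
          calc J ^ 8 ≤ (129 / 128 * D) ^ 8 := pow_le_pow_left₀ hJ0 k3 8
            _ = (129 / 128) ^ 8 * D ^ 8 := by ring
            _ ≤ 1.065 * D ^ 8 := mul_le_mul_of_nonneg_right (by norm_num) (by positivity)
        have k5 : n * W ≤ 2 * ρ ^ 2 * x := by
          rw [hVe]
          have a1 : n * x ^ 2 ≤ ρ ^ 2 * x := by
            have : n * x ≤ ρ * ρ := mul_le_mul hr.le (hlip.trans hr.le) hxp.le hρp.le
            nlinarith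
          have a2 : n * ((1 / 4096) ^ 2 * J ^ 8) ≤ ρ ^ 2 * x := by
            have b1 : n * ((1 / 4096) ^ 2 * J ^ 8) ≤ n * ((1 / 4096) ^ 2 * (1.065 * D ^ 8)) := by
              gcongr
            have b2 : n * ((1 / 4096) ^ 2 * (1.065 * D ^ 8)) =
                (D * n) * ((1 / 4096) ^ 2 * 1.065 * D ^ 7) := by ring
            have b3 : (D * n) * ((1 / 4096) ^ 2 * 1.065 * D ^ 7) ≤
                (2 * x) * ((1 / 4096) ^ 2 * 1.065 * D ^ 7) := by gcongr
            have b4 : D ^ 7 ≤ D ^ 6 := pow_le_pow_of_le_one hDp.le hD1 (by norm_num)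
            have b5 : (2 * x) * ((1 / 4096) ^ 2 * 1.065 * D ^ 7) ≤
                (2 * x) * ((1 / 4096) ^ 2 * 1.065 * D ^ 6) := by gcongr
            have b6 : ρ ^ 2 * x = x * (D ^ 6 * (1 / 65536)) := by rw [hρ]; ring
            rw [b6]
            have b7 : 0 ≤ x * D ^ 6 := by positivity
            nlinarith
          linarith
        have k6 : n * x ≤ 2 * ρ ^ 2 * (W⁻¹ * x ^ 2) := by
          have : n * x = (n * W) * (W⁻¹ * x) := by field_simp
          rw [this]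
          calc (n * W) * (W⁻¹ * x) ≤ (2 * ρ ^ 2 * x) * (W⁻¹ * x) := by gcongr
            _ = _ := by ring
        calc 4 * ρ ^ 2 * (n * x) ≤ 4 * ρ ^ 2 * (2 * ρ ^ 2 * (W⁻¹ * x ^ 2)) := by gcongr
          _ = _ := by ring
    have hosc := osc_le (g := fun t => 8 * ρ ^ 4 * ((V X (γ t))⁻¹ * nm (X (γ t)) ^ 2)) hUd hUc
      (continuous_const.mul hc) hpt ht₀m ht₂m
    rw [intervalIntegral.integral_const_mul] at hosc
    have hU0 : 15 ^ 2 / 16 ^ 2 * ρ ^ 4 ≤ U t₀ := by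
      have h1 : 15 / 16 * ρ ^ 2 ≤ ρ ^ 2 - nm (γ t₀ - p) ^ 2 := by
        have := pow_le_pow_left₀ (nm_nonneg (γ t₀ - p)) hclose 2
        nlinarith
      have h2 : 15 / 16 * ρ ^ 2 ≤ max 0 (ρ ^ 2 - nm (γ t₀ - p) ^ 2) := h1.trans (le_max_right _ _)
      have h3 := pow_le_pow_left₀ (by positivity) h2 2
      calc 15 ^ 2 / 16 ^ 2 * ρ ^ 4 = (15 / 16 * ρ ^ 2) ^ 2 := by ring
        _ ≤ _ := h3
    have hU2 : U t₂ = 0 := by
      have h1 : ρ ^ 2 - nm (γ t₂ - p) ^ 2 ≤ 0 := by nlinarith [nm_nonneg (γ t₂ - p)]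
      simp only [hU]
      rw [max_eq_left h1]
      norm_num
    rw [hU2, sub_zero] at hosc
    have h1 := (le_abs_self (U t₀)).trans hosc
    have hρ4 : 0 < ρ ^ 4 := by positivity
    have h2 : ρ ^ 4 * (15 ^ 2 / 16 ^ 2) ≤
        ρ ^ 4 * (8 * ∫ t in (0:ℝ)..T, (V X (γ t))⁻¹ * nm (X (γ t)) ^ 2) := by linarith
    have h3 := le_of_mul_le_mul_left h2 hρ4
    linarith

end

end Pool.Agent.Q62.HB
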