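import Pool.Agent.Q62.HB.Basic

/-! The invariant quadratic form of the linear centre in the family of the rotated linear fields. -/

open Real Set MeasureTheory Topology Filter
open scoped ENNReal

namespace Pool.Agent.Q62.HB

noncomputable section

open Pool.Agent.H709R2 (rot wedge ClosedOrbit divW divRot Jac)
open Pool.Agent.H709U (dot rf Orb InBox)

/-- data of the linear centre: the rotated matrix is `[[p, q], [u, -p]]` -/
structure Cen (A : (ℝ × ℝ) →L[ℝ] (ℝ × ℝ)) (c s u p q N : ℝ) : Prop where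
  cs : c ^ 2 + s ^ 2 = 1
  N0 : 0 < N
  N2 : N ≤ 2
  tr : u - q = N
  det : -p ^ 2 - q * u = wedge (A (1, 0)) (A (0, 1))
  dpos : 0 < wedge (A (1, 0)) (A (0, 1))
  e11 : c * (A (1, 0)).1 - s * (A (1, 0)).2 = p
  e12 : s * (A (1, 0)).1 + c * (A (1, 0)).2 = u
  e21 : c * (A (0, 1)).1 - s * (A (0, 1)).2 = q
  e22 : s * (A (0, 1)).1 + c * (A (0, 1)).2 = -p

lemma exists_cen {A : (ℝ × ℝ) →L[ℝ] (ℝ × ℝ)} (hA : ∀ v, nm (A v) ≤ nm v)
    (hD : 0 < wedge (A (1, 0)) (A (0, 1))) : ∃ c s u p q N, Cen A c s u p q N := by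
  have h1 := hA (1, 0)
  have h2 := hA (0, 1)
  rw [nm_e1] at h1
  rw [nm_e2] at h2
  have s1 : nm (A (1, 0)) ^ 2 ≤ 1 := by nlinarith [nm_nonneg (A (1, 0))]
  have s2 : nm (A (0, 1)) ^ 2 ≤ 1 := by nlinarith [nm_nonneg (A (0, 1))]
  rw [nm_sq] at s1 s2
  obtain ⟨a, ha⟩ : ∃ a, a = (A (1, 0)).1 := ⟨_, rfl⟩
  obtain ⟨b, hb⟩ : ∃ b, b = (A (1, 0)).2 := ⟨_, rfl⟩
  obtain ⟨d, hd⟩ : ∃ d, d = (A (0, 1)).1 := ⟨_, rfl⟩
  obtain ⟨e, he⟩ : ∃ e, e = (A (0, 1)).2 := ⟨_, rfl⟩
  have hD' : 0 < a * e - b * d := by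
    have : wedge (A (1, 0)) (A (0, 1)) = a * e - b * d := by rw [ha, hb, hd, he]; rfl
    rwa [this] at hD
  rw [← ha, ← hb] at s1
  rw [← hd, ← he] at s2
  have hpos : 0 < (a + e) ^ 2 + (b - d) ^ 2 := by nlinarith [sq_nonneg (a - e), sq_nonneg (b + d)]
  obtain ⟨N, hN⟩ : ∃ N, N = √((a + e) ^ 2 + (b - d) ^ 2) := ⟨_, rfl⟩
  have hN0 : 0 < N := hN ▸ Real.sqrt_pos.2 hpos
  have hNsq : N ^ 2 = (a + e) ^ 2 + (b - d) ^ 2 := by rw [hN, Real.sq_sqrt hpos.le]
  have hNe := hN0.ne'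
  obtain ⟨c, hc⟩ : ∃ c, c = (b - d) / N := ⟨_, rfl⟩
  obtain ⟨s, hs⟩ : ∃ s, s = (a + e) / N := ⟨_, rfl⟩
  have hcN : c * N = b - d := by rw [hc]; field_simp
  have hsN : s * N = a + e := by rw [hs]; field_simp
  have hcs : c ^ 2 + s ^ 2 = 1 := by
    have : (c ^ 2 + s ^ 2) * N ^ 2 = N ^ 2 := by
      have e1 : (c ^ 2 + s ^ 2) * N ^ 2 = (c * N) ^ 2 + (s * N) ^ 2 := by ring
      rw [e1, hcN, hsN, hNsq]; ring
    exact mul_right_cancel₀ (pow_ne_zero 2 hNe) (by rw [this, one_mul])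
  have htr : (s * a + c * b) - (c * d - s * e) = N := by
    have : ((s * a + c * b) - (c * d - s * e)) * N = N * N := by
      have e1 : ((s * a + c * b) - (c * d - s * e)) * N = (s * N) * (a + e) + (c * N) * (b - d) := by
        ring
      rw [e1, hcN, hsN]
      linear_combination -hNsq
    exact mul_right_cancel₀ hNe this
  have hv : s * d + c * e = -(c * a - s * b) := by
    have : (s * d + c * e) * N = -(c * a - s * b) * N := by
      have e1 : (s * d + c * e) * N = (s * N) * d + (c * N) * e := by ring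
      have e2 : -(c * a - s * b) * N = -((c * N) * a) + (s * N) * b := by ring
      rw [e1, e2, hcN, hsN]; ring
    exact mul_right_cancel₀ hNe this
  have hdet : -(c * a - s * b) ^ 2 - (c * d - s * e) * (s * a + c * b) = a * e - b * d := by
    have e1 : -(c * a - s * b) ^ 2 = (c * a - s * b) * (s * d + c * e) := by rw [hv]; ring
    rw [e1]
    linear_combination (a * e - b * d) * hcs
  refine ⟨c, s, s * a + c * b, c * a - s * b, c * d - s * e, N, hcs, hN0, ?_, htr, ?_, hD,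
    by rw [ha, hb], by rw [ha, hb], by rw [hd, he], ?_⟩
  · have h3 : (s * a + c * b) ≤ 1 := by
      have : (s * a + c * b) ^ 2 ≤ 1 := by
        have : (s * a + c * b) ^ 2 + (c * a - s * b) ^ 2 = a ^ 2 + b ^ 2 := by
          linear_combination (a ^ 2 + b ^ 2) * hcs
        nlinarith [sq_nonneg (c * a - s * b)]
      nlinarith
    have h4 : -(c * d - s * e) ≤ 1 := by
      have : (c * d - s * e) ^ 2 ≤ 1 := by
        have : (c * d - s * e) ^ 2 + (s * d + c * e) ^ 2 = d ^ 2 + e ^ 2 := by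
          linear_combination (d ^ 2 + e ^ 2) * hcs
        nlinarith [sq_nonneg (s * d + c * e)]
      nlinarith
    linarith
  · rw [hdet, ha, hb, hd, he]; rfl
  · rw [← hd, ← he]; exact hv

/-- the quadratic form -/
def Hf (u p q : ℝ) (v : ℝ × ℝ) : ℝ := (u * v.1 ^ 2 - 2 * p * v.1 * v.2 - q * v.2 ^ 2) / 2

variable {A : (ℝ × ℝ) →L[ℝ] (ℝ × ℝ)} {c s u p q N : ℝ}

lemma Hf_cont : Continuous (Hf u p q) := by unfold Hf; fun_prop

lemma Hf_fderiv (v : ℝ × ℝ) : HasFDerivAt (Hf u p q)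
    ((u * v.1 - p * v.2) • ContinuousLinearMap.fst ℝ ℝ ℝ -
      (p * v.1 + q * v.2) • ContinuousLinearMap.snd ℝ ℝ ℝ) v := by
  have h1 : HasFDerivAt (fun v : ℝ × ℝ => v.1) (ContinuousLinearMap.fst ℝ ℝ ℝ) v := hasFDerivAt_fst
  have h2 : HasFDerivAt (fun v : ℝ × ℝ => v.2) (ContinuousLinearMap.snd ℝ ℝ ℝ) v := hasFDerivAt_snd
  have h3 := ((((h1.pow 2).const_mul u).sub ((h1.mul h2).const_mul (2 * p))).sub
    ((h2.pow 2).const_mul q)).mul_const (1 / 2)
  have e : (fun v : ℝ × ℝ => (u * v.1 ^ 2 - 2 * p * (v.1 * v.2) - q * v.2 ^ 2) * (1 / 2)) =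
      Hf u p q := by
    funext v; unfold Hf; ring
  have h4 : HasFDerivAt (fun v : ℝ × ℝ => (u * v.1 ^ 2 - 2 * p * (v.1 * v.2) - q * v.2 ^ 2) *
    (1 / 2)) _ v := h3
  rw [e] at h4
  refine h4.congr_fderiv ?_
  ext
  · simp; ring
  · simp; ring

/-- the rotated vector -/
lemma Cen.rot_eq (h : Cen A c s u p q N) (α : ℝ) (v : ℝ × ℝ) :
    rot α (A v) =
      ((Real.cos α * c + Real.sin α * s) * (p * v.1 + q * v.2) -
        (Real.sin α * c - Real.cos α * s) * (u * v.1 - p * v.2),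
       (Real.sin α * c - Real.cos α * s) * (p * v.1 + q * v.2) +
        (Real.cos α * c + Real.sin α * s) * (u * v.1 - p * v.2)) := by
  have e1 : p * v.1 + q * v.2 = c * (A v).1 - s * (A v).2 := by
    rw [clm_eq A v, ← h.e11, ← h.e21]
    simp only [Prod.fst_add, Prod.snd_add, Prod.smul_fst, Prod.smul_snd, smul_eq_mul]
    ring
  have e2 : u * v.1 - p * v.2 = s * (A v).1 + c * (A v).2 := by
    have e3 : u * v.1 - p * v.2 = u * v.1 + (-p) * v.2 := by ring
    rw [e3, clm_eq A v, ← h.e12, ← h.e22]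
    simp only [Prod.fst_add, Prod.snd_add, Prod.smul_fst, Prod.smul_snd, smul_eq_mul]
    ring
  rw [e1, e2]
  unfold rot
  ext
  · simp only
    linear_combination (-Real.cos α * (A v).1 + Real.sin α * (A v).2) * h.cs
  · simp only
    linear_combination (-Real.sin α * (A v).1 - Real.cos α * (A v).2) * h.cs

lemma Cen.nm_A (h : Cen A c s u p q N) (v : ℝ × ℝ) :
    nm (A v) ^ 2 = (p * v.1 + q * v.2) ^ 2 + (u * v.1 - p * v.2) ^ 2 := by
  have h1 := h.rot_eq 0 v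
  have h2 := nm_rot 0 (A v)
  rw [← h2, nm_sq, h1]
  simp only [Real.cos_zero, Real.sin_zero]
  linear_combination ((p * v.1 + q * v.2) ^ 2 + (u * v.1 - p * v.2) ^ 2) * h.cs

lemma Cen.five (h : Cen A c s u p q N) (v : ℝ × ℝ) :
    2 * N * Hf u p q v = nm (A v) ^ 2 + wedge (A (1, 0)) (A (0, 1)) * nm v ^ 2 := by
  rw [h.nm_A, nm_sq, ← h.det, ← h.tr]
  unfold Hf
  ring

lemma Cen.nonneg (h : Cen A c s u p q N) (v : ℝ × ℝ) : 0 ≤ Hf u p q v := by
  have h1 := h.five v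
  have h2 := h.N0
  have h3 : 0 ≤ 2 * N * Hf u p q v := by
    rw [h1]
    have := h.dpos
    positivity
  have h4 : 0 < 2 * N := by positivity
  exact nonneg_of_mul_nonneg_right h3 h4

lemma Cen.four (h : Cen A c s u p q N) (v : ℝ × ℝ) :
    nm (A v) ^ 2 + wedge (A (1, 0)) (A (0, 1)) * nm v ^ 2 ≤ 4 * Hf u p q v := by
  rw [← h.five]
  have h1 := h.nonneg v
  have h2 := h.N2
  nlinarith

lemma Cen.upper (h : Cen A c s u p q N) (v : ℝ × ℝ) : 2 * Hf u p q v ≤ nm v * nm (A v) := by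
  have h1 := (abs_le.1 (wedge_le v (p * v.1 + q * v.2, u * v.1 - p * v.2))).2
  have h2 : nm (p * v.1 + q * v.2, u * v.1 - p * v.2) = nm (A v) := by
    unfold nm
    congr 1
    have := h.nm_A v
    rw [nm_sq] at this
    rw [this]
  rw [h2] at h1
  refine le_trans (le_of_eq ?_) h1
  unfold Hf wedge
  simp only
  ring

lemma Cen.sdcd (h : Cen A c s u p q N) (α : ℝ) :
    (Real.sin α * c - Real.cos α * s) ^ 2 + (Real.cos α * c + Real.sin α * s) ^ 2 = 1 := by
  have := Real.sin_sq_add_cos_sq α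
  linear_combination (c ^ 2 + s ^ 2) * this + h.cs

/-- the derivative of the form along the rotated linear field -/
lemma Cen.grad_rot (h : Cen A c s u p q N) (α : ℝ) (v : ℝ × ℝ) :
    (u * v.1 - p * v.2) * (rot α (A v)).1 - (p * v.1 + q * v.2) * (rot α (A v)).2 =
      -(Real.sin α * c - Real.cos α * s) * nm (A v) ^ 2 := by
  rw [h.nm_A, h.rot_eq]
  simp only
  ring

lemma Cen.grad_le (h : Cen A c s u p q N) (v w : ℝ × ℝ) :
    |(u * v.1 - p * v.2) * w.1 - (p * v.1 + q * v.2) * w.2| ≤ nm (A v) * nm w := by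
  have h1 := wedge_le (p * v.1 + q * v.2, u * v.1 - p * v.2) w
  have h2 : nm (p * v.1 + q * v.2, u * v.1 - p * v.2) = nm (A v) := by
    unfold nm
    congr 1
    have := h.nm_A v
    rw [nm_sq] at this
    rw [this]
  rw [h2] at h1
  rw [← abs_neg] at h1
  refine le_trans (le_of_eq ?_) h1
  congr 1
  unfold wedge
  simp only
  ring

/-- the trace of the rotated linear field -/
lemma Cen.trace (h : Cen A c s u p q N) (α : ℝ) :
    (rot α (A (1, 0))).1 + (rot α (A (0, 1))).2 =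
      -(N * (Real.sin α * c - Real.cos α * s)) := by
  rw [h.rot_eq, h.rot_eq, ← h.tr]
  simp only
  ring

end

end Pool.Agent.Q62.HB
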