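import Pool.Agent.Q62.HB.Large

/-! The number of closed orbits of the rotated fields is bounded by an integral, on average. -/

open Real Set MeasureTheory Topology Filter
open scoped ENNReal

namespace Pool.Agent.Q62.HB

noncomputable section

open Pool.Agent.H709R2 (rot wedge ClosedOrbit divW divRot Jac)
open Pool.Agent.H709U (dot rf Orb InBox)

variable {X : ℝ × ℝ → ℝ × ℝ} {K : Set (ℝ × ℝ)}

/-- a rectangle -/
def Bx (a b c e : ℝ) : Set (ℝ × ℝ) := Icc a b ×ˢ Icc c e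

/-- the bounding box of a small closed orbit contains the equilibrium -/
lemma box_zero (h : Nrm X K) {a b c e : ℝ} (hsub : Bx a b c e ⊆ K) {o : ℝ × ℝ} (ho : o ∈ K)
    (h0 : X o = 0) {ρ : ℝ} (hρ : ρ < |Jac X o|) {α : ℝ} {C : Set (ℝ × ℝ)}
    (hC : ClosedOrbit (rf X α) C) (hCK : C ⊆ Bx a b c e) (hCρ : ∀ z ∈ C, nm (z - o) ≤ ρ) :
    InBox o C := by
  obtain ⟨p, hp0, hpb⟩ := H709U.t3' X h.cd α C hC
  have hpp := hpb
  obtain ⟨⟨x, hx, y, hy, h1, h2⟩, ⟨x', hx', y', hy', h3, h4⟩⟩ := hpb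
  have hpK : p ∈ K := by
    refine hsub ⟨⟨?_, ?_⟩, ⟨?_, ?_⟩⟩
    · exact (hCK hx).1.1.trans h1
    · exact h2.trans (hCK hy).1.2
    · exact (hCK hx').2.1.trans h3
    · exact h4.trans (hCK hy').2.2
  by_cases hne : p = o
  · rw [← hne]; exact hpp
  · exfalso
    have hsep := h.sep ho hpK h0 hp0 hne
    have k1 := abs_le.1 ((abs_fst_le (x - o)).trans (hCρ x hx))
    have k2 := abs_le.1 ((abs_fst_le (y - o)).trans (hCρ y hy))
    have k3 := abs_le.1 ((abs_snd_le (x' - o)).trans (hCρ x' hx'))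
    have k4 := abs_le.1 ((abs_snd_le (y' - o)).trans (hCρ y' hy'))
    simp only [Prod.fst_sub, Prod.snd_sub] at k1 k2 k3 k4
    have hρ0 : 0 ≤ ρ := (nm_nonneg _).trans (hCρ x hx)
    have c1 : (p - o).1 ^ 2 ≤ ρ ^ 2 := by
      simp only [Prod.fst_sub]
      refine sq_le_sq' ?_ ?_ <;> linarith [k1.1, k2.2]
    have c2 : (p - o).2 ^ 2 ≤ ρ ^ 2 := by
      simp only [Prod.snd_sub]
      refine sq_le_sq' ?_ ?_ <;> linarith [k3.1, k4.2]
    have : nm (p - o) ≤ 2 * ρ := by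
      refine le_of_sq (by positivity) ?_
      rw [nm_sq]
      nlinarith
    linarith

/-- the majorant for a small disc about a nondegenerate equilibrium -/
theorem small_zero (h : Nrm X K) {a b c e : ℝ} (hsub : Bx a b c e ⊆ K) {o : ℝ × ℝ} (ho : o ∈ K)
    (h0 : X o = 0) (hD : Jac X o ≠ 0) :
    ∃ g : ℝ → ℝ≥0∞, Measurable g ∧ (∀ α ∈ Ioo 0 π,
      ({C | ClosedOrbit (rf X α) C ∧ C ⊆ Bx a b c e ∧
        ∀ z ∈ C, nm (z - o) ≤ |Jac X o| ^ 3 / 256}.encard : ℝ≥0∞) ≤ g α) ∧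
      ∫⁻ α, g α ≤ 1 := by
  have hp : 0 < |Jac X o| := abs_pos.2 hD
  have h1 : |Jac X o| ≤ 1 := h.jac_le_one ho
  have h3 : |Jac X o| ^ 3 ≤ |Jac X o| := by
    calc |Jac X o| ^ 3 ≤ |Jac X o| ^ 1 := pow_le_pow_of_le_one hp.le h1 (by norm_num)
      _ = |Jac X o| := pow_one _
  have hρ : |Jac X o| ^ 3 / 256 < |Jac X o| := by linarith
  rcases lt_or_gt_of_ne hD with hneg | hpos
  · refine ⟨fun _ => 0, measurable_const, fun α _ => ?_, by simp⟩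
    have hem : {C | ClosedOrbit (rf X α) C ∧ C ⊆ Bx a b c e ∧
        ∀ z ∈ C, nm (z - o) ≤ |Jac X o| ^ 3 / 256} = ∅ := by
      refine eq_empty_of_forall_notMem fun C hC => ?_
      obtain ⟨hC1, hC2, hC3⟩ := hC
      obtain ⟨γ, T, hγ, rfl⟩ := H709U.m0 X h.cd α C hC1
      exact no_saddle h ho h0 hneg hγ (fun t => hsub (hC2 ⟨t, rfl⟩))
        (fun t => (hC3 _ ⟨t, rfl⟩).trans_lt hρ)
    rw [hem]
    simp
  · exact small_center h (isCompact_Icc.prod isCompact_Icc) hsub ho h0 hpos (by positivity)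
      (le_of_eq (by rw [abs_of_pos hpos])) (fun α C hC hCK hCρ => box_zero h hsub ho h0 hρ hC hCK hCρ)

/-- the nondegenerate equilibria near `K₀` -/
def Zs (X : ℝ × ℝ → ℝ × ℝ) (K₀ : Set (ℝ × ℝ)) : Set (ℝ × ℝ) :=
  {p | X p = 0 ∧ Jac X p ≠ 0 ∧ ∃ z ∈ K₀, nm (p - z) ≤ 1 / 2}

/-- the square about an equilibrium -/
def Sq (X : ℝ × ℝ → ℝ × ℝ) (p : ℝ × ℝ) : Set (ℝ × ℝ) :=
  Bx (p.1 - |Jac X p| ^ 3 / 512) (p.1 + |Jac X p| ^ 3 / 512)
    (p.2 - |Jac X p| ^ 3 / 512) (p.2 + |Jac X p| ^ 3 / 512)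

lemma Sq_nm {p z : ℝ × ℝ} (hz : z ∈ Sq X p) : nm (z - p) ^ 2 ≤ (|Jac X p| ^ 3 / 256) ^ 2 / 2 := by
  obtain ⟨⟨h1, h2⟩, ⟨h3, h4⟩⟩ := hz
  rw [nm_sq]
  simp only [Prod.fst_sub, Prod.snd_sub]
  have c1 : (z.1 - p.1) ^ 2 ≤ (|Jac X p| ^ 3 / 512) ^ 2 := by
    refine sq_le_sq' ?_ ?_ <;> linarith
  have c2 : (z.2 - p.2) ^ 2 ≤ (|Jac X p| ^ 3 / 512) ^ 2 := by
    refine sq_le_sq' ?_ ?_ <;> linarith
  nlinarith

/-- each equilibrium contributes at least one to the integral -/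
lemma Sq_int (h : Nrm X K) {p : ℝ × ℝ} (hp : p ∈ K) (h0 : X p = 0) (hD : Jac X p ≠ 0)
    (hSK : Sq X p ⊆ K) : 1 ≤ ∫⁻ z in Sq X p, ENNReal.ofReal (V X z)⁻¹ := by
  obtain ⟨D, hDD⟩ : ∃ D, D = |Jac X p| := ⟨_, rfl⟩
  have hDp : 0 < D := hDD ▸ abs_pos.2 hD
  have hD1 : D ≤ 1 := hDD ▸ h.jac_le_one hp
  obtain ⟨ρ, hρ⟩ : ∃ ρ, ρ = D ^ 3 / 256 := ⟨_, rfl⟩
  have hρp : 0 < ρ := by rw [hρ]; positivity
  have hD3 : D ^ 3 ≤ D := by
    calc D ^ 3 ≤ D ^ 1 := pow_le_pow_of_le_one hDp.le hD1 (by norm_num)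
      _ = D := pow_one D
  have hpt : ∀ z ∈ Sq X p, ENNReal.ofReal (1 / ρ ^ 2) ≤ ENNReal.ofReal (V X z)⁻¹ := by
    intro z hz
    refine ENNReal.ofReal_le_ofReal ?_
    have h1 := Sq_nm hz
    rw [← hDD, ← hρ] at h1
    have h2 : nm (z - p) ≤ ρ := le_of_sq hρp.le (by nlinarith)
    have h3 := h.lip hp (hSK hz)
    rw [h0, sub_zero] at h3
    have h4 := h.jac_lip hp (hSK hz)
    have h5 := abs_sub_abs_le_abs_sub (Jac X z) (Jac X p)
    have h6 := abs_sub_abs_le_abs_sub (Jac X p) (Jac X z)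
    rw [abs_sub_comm (Jac X p)] at h6
    rw [← hDD] at h5 h6
    have h7 : |Jac X z| ≤ 129 / 128 * D := by rw [hρ] at h2; linarith
    have h8 : 0 < |Jac X z| := by rw [hρ] at h2; linarith
    have hVp : 0 < V X z := V_pos' (abs_pos.1 h8)
    have h9 : |Jac X z| ^ 8 ≤ 1.065 * D ^ 8 := by
      calc |Jac X z| ^ 8 ≤ (129 / 128 * D) ^ 8 := pow_le_pow_left₀ (abs_nonneg _) h7 8
        _ = (129 / 128) ^ 8 * D ^ 8 := by ring
        _ ≤ 1.065 * D ^ 8 := mul_le_mul_of_nonneg_right (by norm_num) (by positivity)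
    rw [← one_div, div_le_div_iff₀ (by positivity) hVp, one_mul, one_mul]
    unfold V
    have h10 : Jac X z ^ 8 = |Jac X z| ^ 8 := by
      rw [← abs_pow, abs_of_nonneg (show (0:ℝ) ≤ Jac X z ^ 8 by
          rw [show (8:ℕ) = 2 * 4 by norm_num, pow_mul]; positivity)]
    rw [h10]
    have h11 : nm (X z) ^ 2 ≤ ρ ^ 2 / 2 := (pow_le_pow_left₀ (nm_nonneg _) h3 2).trans h1
    have h12 : (1 / 4096) ^ 2 * |Jac X z| ^ 8 ≤ ρ ^ 2 / 2 := by
      have : D ^ 8 ≤ D ^ 6 := pow_le_pow_of_le_one hDp.le hD1 (by norm_num)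
      have e : ρ ^ 2 / 2 = D ^ 6 / 131072 := by rw [hρ]; ring
      rw [e]
      have : 0 < D ^ 6 := by positivity
      nlinarith
    linarith
  have hvol : volume (Sq X p) = ENNReal.ofReal (ρ ^ 2) := by
    unfold Sq Bx
    rw [Measure.volume_eq_prod, Measure.prod_prod, Real.volume_Icc, Real.volume_Icc,
      ← ENNReal.ofReal_mul (by rw [← hDD]; ring_nf; positivity), ← hDD, hρ]
    congr 1
    ring
  calc (1:ℝ≥0∞) = ENNReal.ofReal (1 / ρ ^ 2) * volume (Sq X p) := by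
        rw [hvol, ← ENNReal.ofReal_mul (by positivity)]
        rw [one_div_mul_cancel (by positivity), ENNReal.ofReal_one]
    _ = ∫⁻ _z in Sq X p, ENNReal.ofReal (1 / ρ ^ 2) := by rw [setLIntegral_const]
    _ ≤ _ := setLIntegral_mono' (measurableSet_Icc.prod measurableSet_Icc) hpt

lemma Sq_sub {K₀ : Set (ℝ × ℝ)} (h : Nrm X K) (hK₀ : ∀ z ∈ K₀, ∀ y, nm (y - z) ≤ 1 → y ∈ K)
    {p : ℝ × ℝ} (hp : p ∈ Zs X K₀) : p ∈ K ∧ Sq X p ⊆ K := by
  obtain ⟨-, -, z, hz, hpz⟩ := hp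
  have hpK : p ∈ K := hK₀ z hz p (by linarith)
  refine ⟨hpK, fun y hy => hK₀ z hz y ?_⟩
  have h1 := Sq_nm hy
  have h2 : |Jac X p| ≤ 1 := h.jac_le_one hpK
  have h3 : |Jac X p| ^ 3 ≤ 1 := pow_le_one₀ (abs_nonneg _) h2
  have h4 : nm (y - p) ≤ 1 / 2 := by
    refine le_of_sq (by norm_num) ?_
    have : (|Jac X p| ^ 3 / 256) ^ 2 ≤ (1 / 256) ^ 2 :=
      pow_le_pow_left₀ (by positivity) (by linarith) 2
    nlinarith
  have h5 := nm_tri y p z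
  linarith

lemma Sq_disj {K₀ : Set (ℝ × ℝ)} (h : Nrm X K) (hK₀ : ∀ z ∈ K₀, ∀ y, nm (y - z) ≤ 1 → y ∈ K)
    {p q : ℝ × ℝ} (hp : p ∈ Zs X K₀) (hq : q ∈ Zs X K₀) (hne : p ≠ q) :
    Disjoint (Sq X p) (Sq X q) := by
  rw [Set.disjoint_left]
  intro z hz1 hz2
  have hpK := (Sq_sub h hK₀ hp).1
  have hqK := (Sq_sub h hK₀ hq).1
  have s1 := h.sep hpK hqK hp.1 hq.1 hne.symm
  have s2 := h.sep hqK hpK hq.1 hp.1 hne
  rw [nm_sub_comm] at s1
  have key : ∀ {p : ℝ × ℝ}, p ∈ K → Jac X p ≠ 0 → z ∈ Sq X p → nm (z - p) ≤ |Jac X p| / 256 := by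
    intro p hpK hJ hz
    have h1 := Sq_nm hz
    have h2 : |Jac X p| ≤ 1 := h.jac_le_one hpK
    have h3 : |Jac X p| ^ 3 ≤ |Jac X p| := by
      calc |Jac X p| ^ 3 ≤ |Jac X p| ^ 1 := pow_le_pow_of_le_one (abs_nonneg _) h2 (by norm_num)
        _ = |Jac X p| := pow_one _
    refine le_of_sq (by positivity) ?_
    have : (|Jac X p| ^ 3 / 256) ^ 2 ≤ (|Jac X p| / 256) ^ 2 :=
      pow_le_pow_left₀ (by positivity) (by linarith) 2
    nlinarith [sq_nonneg (|Jac X p| / 256)]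
  have k1 := key hpK hp.2.1 hz1
  have k2 := key hqK hq.2.1 hz2
  have h5 := nm_tri p z q
  rw [nm_sub_comm p z] at h5
  have p1 : 0 < |Jac X p| := abs_pos.2 hp.2.1
  have p2 : 0 < |Jac X q| := abs_pos.2 hq.2.1
  linarith

/-- the number of the nondegenerate equilibria is bounded by the integral -/
lemma card_le {K₀ : Set (ℝ × ℝ)} (h : Nrm X K) (hK₀ : ∀ z ∈ K₀, ∀ y, nm (y - z) ≤ 1 → y ∈ K)
    (F : Finset (ℝ × ℝ)) (hF : ∀ p ∈ F, p ∈ Zs X K₀) :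
    (F.card : ℝ≥0∞) ≤ ∫⁻ z in K, ENNReal.ofReal (V X z)⁻¹ := by
  calc (F.card : ℝ≥0∞) = ∑ _p ∈ F, (1:ℝ≥0∞) := by simp
    _ ≤ ∑ p ∈ F, ∫⁻ z in Sq X p, ENNReal.ofReal (V X z)⁻¹ :=
        Finset.sum_le_sum fun p hp => Sq_int h (Sq_sub h hK₀ (hF p hp)).1 (hF p hp).1 (hF p hp).2.1
          (Sq_sub h hK₀ (hF p hp)).2
    _ = ∫⁻ z in ⋃ p ∈ F, Sq X p, ENNReal.ofReal (V X z)⁻¹ := by
        rw [lintegral_biUnion_finset]
        · intro p hp q hq hne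
          exact Sq_disj h hK₀ (hF p hp) (hF q hq) hne
        · intro p _
          exact measurableSet_Icc.prod measurableSet_Icc
    _ ≤ _ := lintegral_mono_set (iUnion₂_subset fun p hp => (Sq_sub h hK₀ (hF p hp)).2)

/-- **The main inequality.** -/
theorem main (h : Nrm X K) {a b c e : ℝ}
    (hK₀ : ∀ z ∈ Bx a b c e, ∀ y, nm (y - z) ≤ 1 → y ∈ K) :
    ∃ g : ℝ → ℝ≥0∞, Measurable g ∧ (∀ α ∈ Ioo 0 π,
      ({C | ClosedOrbit (rf X α) C ∧ C ⊆ Bx a b c e}.encard : ℝ≥0∞) ≤ g α) ∧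
      ∫⁻ α, g α ≤ 51 * ∫⁻ z in K, ENNReal.ofReal (V X z)⁻¹ := by
  classical
  set I := ∫⁻ z in K, ENNReal.ofReal (V X z)⁻¹ with hI
  rcases eq_or_ne I ⊤ with htop | htop
  · refine ⟨fun _ => ⊤, measurable_const, fun _ _ => le_top, ?_⟩
    rw [htop, ENNReal.mul_top (by norm_num)]
    exact le_top
  have hsub : Bx a b c e ⊆ K := fun z hz => hK₀ z hz z (by rw [sub_self, nm_zero]; norm_num)
  -- finitely many equilibria
  have hfin : (Zs X (Bx a b c e)).Finite := by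
    by_contra hinf
    rw [Set.not_finite] at hinf
    apply htop
    refine ENNReal.eq_top_of_forall_nnreal_le fun r => ?_
    obtain ⟨n, hn⟩ := exists_nat_ge r
    obtain ⟨F, hF, hFc⟩ := hinf.exists_subset_card_eq n
    have := card_le h hK₀ F (fun p hp => hF hp)
    rw [hFc] at this
    refine le_trans ?_ this
    exact_mod_cast hn
  -- the large closed orbits
  have hXc := h.cd.continuous
  obtain ⟨g, hg1, hg2, hg3⟩ := H709U.mb X h.cd (fun z => (V X z)⁻¹)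
    (fun z hz => (h.V_contDiff.contDiffAt).inv (V_pos hz).ne') (Bx a b c e)
    (isCompact_Icc.prod isCompact_Icc) (fun z => ENNReal.ofReal (5 * (V X z)⁻¹))
    (ENNReal.measurable_ofReal.comp (measurable_const.mul h.V_contDiff.continuous.measurable.inv))
    (1 / 10) (by norm_num) (by
      intro α hα z hz hXz
      refine ENNReal.ofReal_le_ofReal ?_
      refine h.divW_V ?_ hXz α
      have hop : IsOpen {y : ℝ × ℝ | nm (y - z) < 1} :=
        isOpen_lt (nm_cont.comp (continuous_id.sub continuous_const)) continuous_const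
      exact Filter.mem_of_superset (hop.mem_nhds (by
        show nm (z - z) < 1
        rw [sub_self, nm_zero]; norm_num)) (fun y (hy : nm (y - z) < 1) => hK₀ z hz y hy.le))
  -- the small ones
  have hsmall : ∀ p, ∃ g : ℝ → ℝ≥0∞, p ∈ Zs X (Bx a b c e) → Measurable g ∧ (∀ α ∈ Ioo 0 π,
      ({C | ClosedOrbit (rf X α) C ∧ C ⊆ Bx a b c e ∧
        ∀ z ∈ C, nm (z - p) ≤ |Jac X p| ^ 3 / 256}.encard : ℝ≥0∞) ≤ g α) ∧
      ∫⁻ α, g α ≤ 1 := by
    intro p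
    by_cases hp : p ∈ Zs X (Bx a b c e)
    · obtain ⟨g, h1, h2, h3⟩ := small_zero h hsub (Sq_sub h hK₀ hp).1 hp.1 hp.2.1
      exact ⟨g, fun _ => ⟨h1, h2, h3⟩⟩
    · exact ⟨fun _ => 0, fun h => absurd h hp⟩
  choose G hG using hsmall
  set F := hfin.toFinset with hF
  have hFm : ∀ p ∈ F, p ∈ Zs X (Bx a b c e) := fun p hp => hfin.mem_toFinset.1 hp
  refine ⟨fun α => g α + ∑ p ∈ F, G p α, ?_, fun α hα => ?_, ?_⟩
  · exact hg1.add (Finset.measurable_fun_sum _ fun p hp => (hG p (hFm p hp)).1)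
  · -- the union
    set L : Set (Set (ℝ × ℝ)) := {C | ∃ γ T, Orb (rf X α) γ T ∧ C = range γ ∧ C ⊆ Bx a b c e ∧
      1 / 10 ≤ ∫ t in (0:ℝ)..T, (V X (γ t))⁻¹ * H709R2.sq (X (γ t))} with hL
    set S : ℝ × ℝ → Set (Set (ℝ × ℝ)) := fun p => {C | ClosedOrbit (rf X α) C ∧
      C ⊆ Bx a b c e ∧ ∀ z ∈ C, nm (z - p) ≤ |Jac X p| ^ 3 / 256} with hS
    have hcov : {C | ClosedOrbit (rf X α) C ∧ C ⊆ Bx a b c e} ⊆ L ∪ ⋃ p ∈ F, S p := by
      rintro C ⟨hC, hCK⟩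
      obtain ⟨γ, T, hγ, rfl⟩ := H709U.m0 X h.cd α C hC
      by_cases hl : ∀ p, X p = 0 → Jac X p ≠ 0 → (∃ z ∈ Bx a b c e, nm (p - z) ≤ 1 / 2) →
          ∃ t, |Jac X p| ^ 3 / 256 < nm (γ t - p)
      · exact Or.inl ⟨γ, T, hγ, rfl, hCK, large_len h hK₀ hγ (fun t => hCK ⟨t, rfl⟩) hl⟩
      · push Not at hl
        obtain ⟨p, hp0, hpJ, hpz, hpt⟩ := hl
        refine Or.inr (mem_biUnion (x := p) (hfin.mem_toFinset.2 ⟨hp0, hpJ, hpz⟩) ?_)
        refine ⟨hC, hCK, ?_⟩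
        rintro _ ⟨t, rfl⟩
        exact hpt t
    have h1 : ({C | ClosedOrbit (rf X α) C ∧ C ⊆ Bx a b c e}.encard : ℝ≥0∞) ≤
        (L.encard : ℝ≥0∞) + ((⋃ p ∈ F, S p).encard : ℝ≥0∞) := by
      have := ENat.toENNReal_le.2 ((Set.encard_le_encard hcov).trans (Set.encard_union_le _ _))
      rwa [ENat.toENNReal_add] at this
    refine h1.trans (add_le_add (hg2 α hα) ?_)
    refine (H709U.encard_biUnion_le' _ F S subset_rfl).trans ?_
    exact Finset.sum_le_sum fun p hp => (hG p (hFm p hp)).2.1 α hα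
  · rw [lintegral_add_left hg1, lintegral_finset_sum _ fun p hp => (hG p (hFm p hp)).1]
    have h1 : ∫⁻ α, g α ≤ 50 * I := by
      refine hg3.trans ?_
      have h2 : ∫⁻ z in Bx a b c e, ENNReal.ofReal (5 * (V X z)⁻¹) ≤ 5 * I := by
        have h3 : ∀ z, ENNReal.ofReal (5 * (V X z)⁻¹) = 5 * ENNReal.ofReal (V X z)⁻¹ := by
          intro z
          rw [ENNReal.ofReal_mul (by norm_num)]
          norm_num
        simp only [h3]
        have hm : Measurable fun z => ENNReal.ofReal (V X z)⁻¹ :=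
          ENNReal.measurable_ofReal.comp h.V_contDiff.continuous.measurable.inv
        rw [lintegral_const_mul 5 hm]
        exact mul_le_mul_right (lintegral_mono_set hsub) 5
      calc ENNReal.ofReal (1 / (1 / 10)) * ∫⁻ z in Bx a b c e, ENNReal.ofReal (5 * (V X z)⁻¹)
          ≤ ENNReal.ofReal (1 / (1 / 10)) * (5 * I) := by gcongr
        _ = 50 * I := by
            rw [← mul_assoc]
            congr 1
            norm_num
    have h2 : ∑ p ∈ F, ∫⁻ α, G p α ≤ I := by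
      refine le_trans (Finset.sum_le_sum fun p hp => (hG p (hFm p hp)).2.2) ?_
      rw [Finset.sum_const, nsmul_eq_mul, mul_one]
      exact card_le h hK₀ F hFm
    calc _ ≤ 50 * I + I := add_le_add h1 h2
      _ = 51 * I := by ring

end

end Pool.Agent.Q62.HB
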