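import Pool.Agent.Q62.HB.Cen

/-! The closed orbits in a small disc about a nondegenerate equilibrium. -/

open Real Set MeasureTheory Topology Filter
open scoped ENNReal

namespace Pool.Agent.Q62.HB

noncomputable section

open Pool.Agent.H709R2 (rot wedge ClosedOrbit divW divRot Jac)
open Pool.Agent.H709U (dot rf Orb InBox)
open Pool.Agent.H709Q (Maj)

variable {X : ℝ × ℝ → ℝ × ℝ} {K : Set (ℝ × ℝ)}

lemma nm_cont : Continuous nm := by unfold nm; fun_prop

lemma lint_inv (o : ℝ × ℝ) {ρ c : ℝ} (hρ : 0 < ρ) (hc : 0 ≤ c) :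
    ∫⁻ z in {z | nm (z - o) ≤ ρ}, ENNReal.ofReal (c / nm (z - o)) ≤
      ENNReal.ofReal (2 * π * c * ρ) := by
  set G : ℝ × ℝ → ℝ≥0∞ := fun v => indicator {v | nm v ≤ ρ} (fun v => ENNReal.ofReal (c / nm v)) v
    with hG
  have hm : MeasurableSet {z : ℝ × ℝ | nm (z - o) ≤ ρ} :=
    (isClosed_le (nm_cont.comp (continuous_id.sub continuous_const)) continuous_const).measurableSet
  have e1 : ∫⁻ z in {z | nm (z - o) ≤ ρ}, ENNReal.ofReal (c / nm (z - o)) = ∫⁻ z, G (z - o) := by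
    rw [← lintegral_indicator hm]
    rfl
  rw [e1, lintegral_sub_right_eq_self G o, ← lintegral_comp_polarCoord_symm G]
  have hle : ∫⁻ p in polarCoord.target, ENNReal.ofReal p.1 • G (polarCoord.symm p) ≤
      ∫⁻ p, indicator (Ioc 0 ρ ×ˢ Ioo (-π) π) (fun _ => ENNReal.ofReal c) p := by
    rw [← lintegral_indicator polarCoord.open_target.measurableSet]
    refine lintegral_mono fun p => ?_
    by_cases hp : p ∈ polarCoord.target
    · rw [indicator_of_mem hp]
      have hp' : 0 < p.1 ∧ p.2 ∈ Ioo (-π) π := by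
        rw [polarCoord_target] at hp
        exact ⟨hp.1, hp.2⟩
      have hn : nm (polarCoord.symm p) = p.1 := by
        rw [polarCoord_symm_apply]
        unfold nm
        have : (p.1 * Real.cos p.2) ^ 2 + (p.1 * Real.sin p.2) ^ 2 = p.1 ^ 2 := by
          have := Real.sin_sq_add_cos_sq p.2
          linear_combination p.1 ^ 2 * this
        rw [this, Real.sqrt_sq hp'.1.le]
      simp only [hG]
      by_cases hr : p.1 ≤ ρ
      · rw [indicator_of_mem (show polarCoord.symm p ∈ {v | nm v ≤ ρ} by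
          show nm _ ≤ ρ
          rw [hn]; exact hr), indicator_of_mem (show p ∈ Ioc 0 ρ ×ˢ Ioo (-π) π from
          ⟨⟨hp'.1, hr⟩, hp'.2⟩), hn, smul_eq_mul, ← ENNReal.ofReal_mul hp'.1.le]
        refine le_of_eq ?_
        congr 1
        have := hp'.1.ne'
        field_simp
      · rw [indicator_of_notMem (show polarCoord.symm p ∉ {v | nm v ≤ ρ} by
          show ¬ nm _ ≤ ρ
          rw [hn]; exact hr), smul_zero]
        exact bot_le
    · rw [indicator_of_notMem hp]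
      exact bot_le
  refine hle.trans ?_
  rw [lintegral_indicator (measurableSet_Ioc.prod measurableSet_Ioo), lintegral_const,
    Measure.restrict_apply MeasurableSet.univ, univ_inter, Measure.volume_eq_prod,
    Measure.prod_prod, Real.volume_Ioc, Real.volume_Ioo, ← ENNReal.ofReal_mul (by linarith),
    ← ENNReal.ofReal_mul hc]
  refine ENNReal.ofReal_le_ofReal (le_of_eq ?_)
  ring

/-- coordinates of a closed orbit vary by at most its length -/
lemma coord_le (hX : Continuous X) {α T : ℝ} {γ : ℝ → ℝ × ℝ} (hγ : Orb (rf X α) γ T)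
    {s t : ℝ} (hs : s ∈ Icc 0 T) (ht : t ∈ Icc 0 T) :
    |(γ s).1 - (γ t).1| ≤ ∫ t in (0:ℝ)..T, nm (X (γ t)) ∧
      |(γ s).2 - (γ t).2| ≤ ∫ t in (0:ℝ)..T, nm (X (γ t)) := by
  have hγc := orb_cont hγ
  have hnc : Continuous fun t => nm (X (γ t)) := nm_cont.comp (hX.comp hγc)
  have hrc : Continuous fun t => rot α (X (γ t)) := (H709R2.continuous_rot α).comp (hX.comp hγc)
  have key : ∀ {f f' : ℝ → ℝ}, (∀ t, HasDerivAt f (f' t) t) → Continuous f' →
      (∀ t, |f' t| ≤ nm (X (γ t))) → ∀ {s t : ℝ}, s ∈ Icc 0 T → t ∈ Icc 0 T →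
      |f s - f t| ≤ ∫ t in (0:ℝ)..T, nm (X (γ t)) := by
    intro f f' hf hf' hle
    have hst : ∀ {s t : ℝ}, s ∈ Icc 0 T → t ∈ Icc 0 T → s ≤ t →
        |f s - f t| ≤ ∫ t in (0:ℝ)..T, nm (X (γ t)) := by
      intro s t hs ht hst
      rw [abs_sub_comm, ← intervalIntegral.integral_eq_sub_of_hasDerivAt (fun x _ => hf x)
        (hf'.intervalIntegrable _ _)]
      refine (intervalIntegral.abs_integral_le_integral_abs hst).trans ?_
      refine (intervalIntegral.integral_mono_on hst (hf'.abs.intervalIntegrable _ _)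
        (hnc.intervalIntegrable _ _) (fun x _ => hle x)).trans ?_
      exact intervalIntegral.integral_mono_interval hs.1 hst ht.2
        (Filter.Eventually.of_forall fun x => nm_nonneg _) (hnc.intervalIntegrable _ _)
    intro s t hs ht
    rcases le_total s t with h | h
    · exact hst hs ht h
    · rw [abs_sub_comm]; exact hst ht hs h
  constructor
  · refine key (f := fun t => (γ t).1) (f' := fun t => (rot α (X (γ t))).1)
      (fun t => (ContinuousLinearMap.fst ℝ ℝ ℝ).hasFDerivAt.comp_hasDerivAt t (hγ.ode t))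
      (continuous_fst.comp hrc) (fun t => ?_) hs ht
    have := abs_fst_le (rot α (X (γ t)))
    rwa [nm_rot] at this
  · refine key (f := fun t => (γ t).2) (f' := fun t => (rot α (X (γ t))).2)
      (fun t => (ContinuousLinearMap.snd ℝ ℝ ℝ).hasFDerivAt.comp_hasDerivAt t (hγ.ode t))
      (continuous_snd.comp hrc) (fun t => ?_) hs ht
    have := abs_snd_le (rot α (X (γ t)))
    rwa [nm_rot] at this

lemma mem_period {γ : ℝ → ℝ × ℝ} {T : ℝ} (hT : 0 < T) (hp : ∀ t, γ (t + T) = γ t) (t : ℝ) :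
    ∃ s ∈ Icc 0 T, γ s = γ t := by
  obtain ⟨y, hy, hyt⟩ := Function.Periodic.exists_mem_Ico₀ (f := γ) hp hT t
  exact ⟨y, ⟨hy.1, hy.2.le⟩, hyt.symm⟩

/-- the length of a closed orbit whose bounding box contains `o` -/
lemma length_ge (hX : Continuous X) {α T : ℝ} {γ : ℝ → ℝ × ℝ} (hγ : Orb (rf X α) γ T)
    {o : ℝ × ℝ} (hbox : InBox o (range γ)) (t : ℝ) :
    7 / 10 * nm (γ t - o) ≤ ∫ t in (0:ℝ)..T, nm (X (γ t)) := by
  set L := ∫ t in (0:ℝ)..T, nm (X (γ t)) with hL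
  obtain ⟨s, hs, hst⟩ := mem_period hγ.pos hγ.per t
  rw [← hst]
  obtain ⟨⟨_, ⟨a, rfl⟩, _, ⟨b, rfl⟩, h1, h2⟩, ⟨_, ⟨a', rfl⟩, _, ⟨b', rfl⟩, h3, h4⟩⟩ := hbox
  obtain ⟨a1, ha1, hae⟩ := mem_period hγ.pos hγ.per a
  obtain ⟨b1, hb1, hbe⟩ := mem_period hγ.pos hγ.per b
  obtain ⟨a2, ha2, hae'⟩ := mem_period hγ.pos hγ.per a'
  obtain ⟨b2, hb2, hbe'⟩ := mem_period hγ.pos hγ.per b'
  rw [← hae] at h1
  rw [← hbe] at h2
  rw [← hae'] at h3
  rw [← hbe'] at h4
  have k1 := abs_le.1 (coord_le hX hγ hs ha1).1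
  have k2 := abs_le.1 (coord_le hX hγ hs hb1).1
  have k3 := abs_le.1 (coord_le hX hγ hs ha2).2
  have k4 := abs_le.1 (coord_le hX hγ hs hb2).2
  rw [← hL] at k1 k2 k3 k4
  have hL0 : 0 ≤ L := by
    rw [hL]
    exact intervalIntegral.integral_nonneg hγ.pos.le fun t _ => nm_nonneg _
  have c1 : ((γ s).1 - o.1) ^ 2 ≤ L ^ 2 := by
    refine sq_le_sq' ?_ ?_ <;> linarith [k1.1, k1.2, k2.1, k2.2]
  have c2 : ((γ s).2 - o.2) ^ 2 ≤ L ^ 2 := by
    refine sq_le_sq' ?_ ?_ <;> linarith [k3.1, k3.2, k4.1, k4.2]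
  refine le_of_sq hL0 ?_
  rw [mul_pow, nm_sq]
  simp only [Prod.fst_sub, Prod.snd_sub]
  nlinarith

lemma closed_of_orb {Y : ℝ × ℝ → ℝ × ℝ} {γ : ℝ → ℝ × ℝ} {T : ℝ} (h : Orb Y γ T) :
    ClosedOrbit Y (range γ) := by
  refine ⟨γ, T, h.pos, h.ode, h.per, ⟨0, T / 2, fun hc => ?_⟩, rfl⟩
  obtain ⟨k, hk⟩ := h.inj _ _ hc
  have hT := h.pos
  have h1 : ((k:ℝ) + 1 / 2) * T = 0 := by linarith
  rcases mul_eq_zero.1 h1 with h2 | h2
  · have h3 : ((2 * k + 1 : ℤ) : ℝ) = 0 := by push_cast; linarith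
    have h4 : (2 * k + 1 : ℤ) = 0 := by exact_mod_cast h3
    omega
  · exact hT.ne' h2

/-- the majorant for a small disc about an equilibrium with positive determinant -/
theorem small_center (h : Nrm X K) {K₀ : Set (ℝ × ℝ)} (hK₀ : IsCompact K₀) (hsub : K₀ ⊆ K)
    {o : ℝ × ℝ} (ho : o ∈ K) (h0 : X o = 0) (hD : 0 < Jac X o) {ρ : ℝ} (hρ : 0 < ρ)
    (hρD : ρ ≤ Jac X o ^ 3 / 256)
    (hbox : ∀ α C, ClosedOrbit (rf X α) C → C ⊆ K₀ → (∀ z ∈ C, nm (z - o) ≤ ρ) → InBox o C) :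
    ∃ g : ℝ → ℝ≥0∞, Measurable g ∧ (∀ α ∈ Ioo 0 π,
      ({C | ClosedOrbit (rf X α) C ∧ C ⊆ K₀ ∧ ∀ z ∈ C, nm (z - o) ≤ ρ}.encard : ℝ≥0∞) ≤ g α) ∧
      ∫⁻ α, g α ≤ 1 := by
  obtain ⟨c, s, u, p, q, N, Cn⟩ := exists_cen (h.d1 o ho) hD
  obtain ⟨D, hDD⟩ : ∃ D, D = Jac X o := ⟨_, rfl⟩
  have hD1 : D ≤ 1 := by rw [hDD]; exact (le_abs_self _).trans (h.jac_le_one ho)
  have hDp : 0 < D := hDD ▸ hD
  have hD3 : D ^ 3 ≤ D := by nlinarith [sq_nonneg D, mul_pos hDp hDp]
  have hρ1 : ρ ≤ D / 256 := by rw [← hDD] at hρD; linarith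
  have hXc := h.cd.continuous
  have hHn : ∀ z ∈ K, Hf u p q (z - o) ≤ nm (z - o) ^ 2 / 2 := by
    intro z hz
    have h1 := Cn.upper (z - o)
    have h2 := h.d1 o ho (z - o)
    nlinarith [nm_nonneg (z - o)]
  have hΩ : IsCompact (K₀ ∩ {z | nm (z - o) ≤ ρ}) :=
    hK₀.inter_right (isClosed_le (nm_cont.comp (continuous_id.sub continuous_const))
      continuous_const)
  obtain ⟨g, hg1, hg2, hg3⟩ := H709U.ma X h.cd (fun _ z => (Hf u p q (z - o))⁻¹)
    (fun x => Hf u p q (x.2 - o) - D ^ 3 / 2 * (Real.sin x.1 * c - Real.cos x.1 * s) ^ 2)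
    (by
      have := Hf_cont (u := u) (p := p) (q := q)
      fun_prop)
    (K₀ ∩ {z | nm (z - o) ≤ ρ}) hΩ (fun z => ENNReal.ofReal (22 / D ^ 2 / nm (z - o)))
    (by
      refine ENNReal.measurable_ofReal.comp ?_
      exact measurable_const.div (nm_cont.measurable.comp (measurable_id.sub_const o)))
    (7 / 10 * D) (by positivity)
    (by
      intro α hα z hz hXz hF
      have hF' : D ^ 3 / 2 * (Real.sin α * c - Real.cos α * s) ^ 2 < Hf u p q (z - o) := by
        linarith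
      have hHp : 0 < Hf u p q (z - o) := lt_of_le_of_lt (by positivity) hF'
      refine ⟨?_, ENNReal.ofReal_le_ofReal ?_⟩
      · have h1 : ContDiff ℝ 1 (fun z : ℝ × ℝ => Hf u p q (z - o)) := by
          unfold Hf
          fun_prop
        exact h1.contDiffAt.inv hHp.ne'
      · rw [hDD] at hF' ⊢
        exact div_bound h ho h0 Cn (hsub hz.1) hF')
    (by
      intro α hα γ T hγ hγΩ hF
      have hin := hbox α (range γ) (closed_of_orb hγ) (by rintro _ ⟨t, rfl⟩; exact (hγΩ t).1)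
        (by rintro _ ⟨t, rfl⟩; exact (hγΩ t).2)
      have hγc := orb_cont hγ
      -- the largest distance
      obtain ⟨t₁, ht₁⟩ := exists_min (φ := fun t => -nm (γ t - o)) hγ.pos
        (nm_cont.comp (hγc.sub continuous_const)).neg (fun t => by beta_reduce; rw [hγ.per])
      have hmax : ∀ t, nm (γ t - o) ≤ nm (γ t₁ - o) := fun t => by linarith [ht₁ t]
      have hlen := length_ge hXc hγ hin t₁
      have hpos : ∀ t, 0 < nm (γ t - o) := fun t => nm_pos (orb_ne h0 hγ t)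
      obtain ⟨n₁, hn₁⟩ : ∃ n₁, n₁ = nm (γ t₁ - o) := ⟨_, rfl⟩
      have hn₁p : 0 < n₁ := hn₁ ▸ hpos t₁
      rw [← hn₁] at hlen hmax
      have hHp : ∀ t, 0 < Hf u p q (γ t - o) := by
        intro t
        have := hF t
        simp only at this
        have h2 : 0 ≤ D ^ 3 / 2 * (Real.sin α * c - Real.cos α * s) ^ 2 := by positivity
        linarith
      have hpt : ∀ t, D / n₁ * nm (X (γ t)) ≤ (Hf u p q (γ t - o))⁻¹ * H709R2.sq (X (γ t)) := by
        intro t
        have hz := hsub (hγΩ t).1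
        have hn := hpos t
        have hnρ : nm (γ t - o) ≤ ρ := (hγΩ t).2
        have l1 := h.lower ho hz h0
        rw [abs_of_pos hD, ← hDD] at l1
        have l2 := hHn _ hz
        have l3 := hmax t
        rw [← nm_sq']
        obtain ⟨n, hne⟩ : ∃ n, n = nm (γ t - o) := ⟨_, rfl⟩
        rw [← hne] at l1 l2 l3 hn hnρ
        have l4 : D * n / 2 ≤ nm (X (γ t)) := by nlinarith
        have hx0 := nm_nonneg (X (γ t))
        have l5 : 2 / n ^ 2 ≤ (Hf u p q (γ t - o))⁻¹ := by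
          rw [← one_div, div_le_div_iff₀ (by positivity) (hHp t)]
          linarith
        calc D / n₁ * nm (X (γ t)) ≤ D / n * nm (X (γ t)) := by
              refine mul_le_mul_of_nonneg_right ?_ hx0
              exact div_le_div_of_nonneg_left hDp.le hn l3
          _ = 2 / n ^ 2 * ((D * n / 2) * nm (X (γ t))) := by field_simp
          _ ≤ 2 / n ^ 2 * (nm (X (γ t)) * nm (X (γ t))) := by
              refine mul_le_mul_of_nonneg_left ?_ (by positivity)
              exact mul_le_mul_of_nonneg_right l4 hx0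
          _ = 2 / n ^ 2 * nm (X (γ t)) ^ 2 := by ring
          _ ≤ _ := mul_le_mul_of_nonneg_right l5 (sq_nonneg _)
      have hc1 : Continuous fun t => D / n₁ * nm (X (γ t)) :=
        continuous_const.mul (nm_cont.comp (hXc.comp hγc))
      have hc2 : Continuous fun t => (Hf u p q (γ t - o))⁻¹ * H709R2.sq (X (γ t)) := by
        refine Continuous.mul ?_ ?_
        · exact (Hf_cont.comp (hγc.sub continuous_const)).inv₀ fun t => (hHp t).ne'
        · unfold H709R2.sq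
          exact ((continuous_fst.comp (hXc.comp hγc)).pow 2).add
            ((continuous_snd.comp (hXc.comp hγc)).pow 2)
      have hmono := intervalIntegral.integral_mono_on (μ := volume) hγ.pos.le
        (hc1.intervalIntegrable 0 T) (hc2.intervalIntegrable 0 T) (fun t _ => hpt t)
      refine le_trans ?_ hmono
      rw [intervalIntegral.integral_const_mul]
      calc 7 / 10 * D = D / n₁ * (7 / 10 * n₁) := by field_simp
        _ ≤ _ := mul_le_mul_of_nonneg_left hlen (by positivity))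
  refine ⟨g, hg1, fun α hα => ?_, ?_⟩
  · refine le_trans ?_ (hg2 α hα)
    refine ENat.toENNReal_le.2 (Set.encard_le_encard ?_)
    rintro C ⟨hC, hCK, hCρ⟩
    refine ⟨hC, fun z hz => ⟨hCK hz, hCρ z hz⟩, ?_⟩
    obtain ⟨γ, T, hγ, rfl⟩ := H709U.m0 X h.cd α C hC
    rintro _ ⟨t, rfl⟩
    have hm := orbit_min h ho h0 Cn hγ (fun t => hsub (hCK ⟨t, rfl⟩)) t
    rw [← hDD] at hm
    have hne := orb_ne h0 hγ t
    have hH : 0 < Hf u p q (γ t - o) := by
      have h1 := Cn.four (γ t - o)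
      change nm (fderiv ℝ X o (γ t - o)) ^ 2 + Jac X o * nm (γ t - o) ^ 2 ≤ _ at h1
      have h2 := nm_pos hne
      have h3 : 0 < Jac X o * nm (γ t - o) ^ 2 := mul_pos hD (pow_pos h2 2)
      nlinarith [sq_nonneg (nm (fderiv ℝ X o (γ t - o)))]
    show 0 < Hf u p q (γ t - o) - D ^ 3 / 2 * (Real.sin α * c - Real.cos α * s) ^ 2
    have h5 : 0 ≤ D ^ 3 * (Real.sin α * c - Real.cos α * s) ^ 2 := by positivity
    nlinarith
  · refine hg3.trans ?_
    have h1 : ∫⁻ z in K₀ ∩ {z | nm (z - o) ≤ ρ}, ENNReal.ofReal (22 / D ^ 2 / nm (z - o)) ≤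
        ENNReal.ofReal (2 * π * (22 / D ^ 2) * ρ) :=
      (lintegral_mono_set inter_subset_right).trans (lint_inv o hρ (by positivity))
    calc ENNReal.ofReal (1 / (7 / 10 * D)) * _ ≤
          ENNReal.ofReal (1 / (7 / 10 * D)) * ENNReal.ofReal (2 * π * (22 / D ^ 2) * ρ) := by
          gcongr
      _ = ENNReal.ofReal (1 / (7 / 10 * D) * (2 * π * (22 / D ^ 2) * ρ)) := by
          rw [← ENNReal.ofReal_mul (by positivity)]
      _ ≤ 1 := by
          rw [ENNReal.ofReal_le_one]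
          have hpi : π ≤ 3.15 := Real.pi_lt_d2.le
          rw [← hDD] at hρD
          have e : 1 / (7 / 10 * D) * (2 * π * (22 / D ^ 2) * ρ) = (440 / 7) * π * ρ / D ^ 3 := by
            field_simp
            ring
          rw [e, div_le_one (by positivity)]
          calc (440 / 7) * π * ρ ≤ (440 / 7) * 3.15 * (D ^ 3 / 256) := by
                have := Real.pi_pos
                gcongr
            _ ≤ D ^ 3 := by
                have : 0 < D ^ 3 := by positivity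
                norm_num
                nlinarith

/-- there are no closed orbits in a small disc about an equilibrium with negative determinant -/
theorem no_saddle (h : Nrm X K) {o : ℝ × ℝ} (ho : o ∈ K) (h0 : X o = 0) (hD : Jac X o < 0)
    {α T : ℝ} {γ : ℝ → ℝ × ℝ} (hγ : Orb (rf X α) γ T) (hK : ∀ t, γ t ∈ K)
    (hsm : ∀ t, nm (γ t - o) < |Jac X o|) : False := by
  set A := fderiv ℝ X o with hA
  obtain ⟨a, ha⟩ : ∃ a, a = (rot α (A (1, 0))).1 := ⟨_, rfl⟩
  obtain ⟨b, hb⟩ : ∃ b, b = (rot α (A (1, 0))).2 := ⟨_, rfl⟩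
  obtain ⟨d, hd⟩ : ∃ d, d = (rot α (A (0, 1))).1 := ⟨_, rfl⟩
  obtain ⟨e, he⟩ : ∃ e, e = (rot α (A (0, 1))).2 := ⟨_, rfl⟩
  have h1 := h.d1 o ho (1, 0)
  have h2 := h.d1 o ho (0, 1)
  rw [nm_e1, ← nm_rot α] at h1
  rw [nm_e2, ← nm_rot α] at h2
  have s1 : nm (rot α (A (1, 0))) ^ 2 ≤ 1 := by nlinarith [nm_nonneg (rot α (A (1, 0)))]
  have s2 : nm (rot α (A (0, 1))) ^ 2 ≤ 1 := by nlinarith [nm_nonneg (rot α (A (0, 1)))]
  rw [nm_sq, ← ha, ← hb] at s1
  rw [nm_sq, ← hd, ← he] at s2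
  have hdet : a * e - b * d = Jac X o := by
    rw [ha, hb, hd, he, Jac_eq]
    unfold rot wedge
    simp only
    have := Real.sin_sq_add_cos_sq α
    rw [← hA]
    linear_combination ((A (1, 0)).1 * (A (0, 1)).2 - (A (1, 0)).2 * (A (0, 1)).1) * this
  -- the rotated linear part
  have hrot : ∀ v, rot α (A v) = (a * v.1 + d * v.2, b * v.1 + e * v.2) := by
    intro v
    rw [clm_eq A v, ha, hb, hd, he]
    unfold rot
    ext
    · simp only [Prod.fst_add, Prod.snd_add, Prod.smul_fst, Prod.smul_snd, smul_eq_mul]; ring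
    · simp only [Prod.fst_add, Prod.snd_add, Prod.smul_fst, Prod.smul_snd, smul_eq_mul]; ring
  obtain ⟨m, hm⟩ : ∃ m, m = (a - e) / 2 := ⟨_, rfl⟩
  obtain ⟨n, hn⟩ : ∃ n, n = (d + b) / 2 := ⟨_, rfl⟩
  have hmn : m ^ 2 + n ^ 2 ≤ 1 := by
    rw [hm, hn]
    nlinarith [sq_nonneg (a + e), sq_nonneg (d - b)]
  -- the form `m x² + 2 n x y - m y²` over two
  have hform : ∀ v : ℝ × ℝ, Hf m (-n) m v = (m * v.1 ^ 2 + 2 * n * v.1 * v.2 - m * v.2 ^ 2) / 2 := by
    intro v; unfold Hf; ring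
  have hφd : ∀ t, HasDerivAt (fun t => Hf m (-n) m (γ t - o))
      ((m * (γ t - o).1 - (-n) * (γ t - o).2) * (rot α (X (γ t))).1 -
        ((-n) * (γ t - o).1 + m * (γ t - o).2) * (rot α (X (γ t))).2) t := by
    intro t
    have h1 : HasDerivAt (fun t => γ t - o) (rot α (X (γ t))) t := (hγ.ode t).sub_const o
    have h2 := (Hf_fderiv (u := m) (p := -n) (q := m) (γ t - o)).comp_hasDerivAt t h1
    refine h2.congr_deriv ?_
    simp
  obtain ⟨t₀, hmin⟩ := exists_min (φ := fun t => Hf m (-n) m (γ t - o)) hγ.pos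
    (Hf_cont.comp ((orb_cont hγ).sub continuous_const)) (fun t => by
      beta_reduce
      rw [hγ.per])
  have hd0 : (m * (γ t₀ - o).1 - (-n) * (γ t₀ - o).2) * (rot α (X (γ t₀))).1 -
        ((-n) * (γ t₀ - o).1 + m * (γ t₀ - o).2) * (rot α (X (γ t₀))).2 = 0 := by
    have hloc : IsLocalMin (fun t => Hf m (-n) m (γ t - o)) t₀ := Filter.Eventually.of_forall hmin
    exact hloc.hasDerivAt_eq_zero (hφd t₀)
  have hne := nm_pos (orb_ne h0 hγ t₀)
  have htay := h.taylor ho (hK t₀)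
  rw [h0, sub_zero, ← nm_rot α, rot_sub, ← hA, hrot] at htay
  have hsm0 := hsm t₀
  obtain ⟨v, hv⟩ : ∃ v, v = γ t₀ - o := ⟨_, rfl⟩
  obtain ⟨w, hw⟩ : ∃ w, w = rot α (X (γ t₀)) := ⟨_, rfl⟩
  rw [← hv] at htay hne hsm0
  rw [← hv, ← hw] at hd0
  rw [← hw] at htay
  have hdot := (abs_le.1 (dot_le (m * v.1 + n * v.2, n * v.1 - m * v.2)
    (w - (a * v.1 + d * v.2, b * v.1 + e * v.2)))).1
  have hB : nm (m * v.1 + n * v.2, n * v.1 - m * v.2) ≤ nm v := by
    refine le_of_sq (nm_nonneg _) ?_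
    rw [nm_sq, nm_sq]
    simp only
    have e1 : (m * v.1 + n * v.2) ^ 2 + (n * v.1 - m * v.2) ^ 2 =
        (m ^ 2 + n ^ 2) * (v.1 ^ 2 + v.2 ^ 2) := by ring
    rw [e1]
    nlinarith [sq_nonneg v.1, sq_nonneg v.2]
  have hprod : nm (m * v.1 + n * v.2, n * v.1 - m * v.2) *
      nm (w - (a * v.1 + d * v.2, b * v.1 + e * v.2)) ≤ nm v * (nm v ^ 2 / 2) :=
    mul_le_mul hB htay (nm_nonneg _) (nm_nonneg _)
  have hid : (m * v.1 + n * v.2) * (a * v.1 + d * v.2) + (n * v.1 - m * v.2) *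
      (b * v.1 + e * v.2) = ((a * v.1 + d * v.2) ^ 2 + (b * v.1 + e * v.2) ^ 2) / 2 -
        (a * e - b * d) * (v.1 ^ 2 + v.2 ^ 2) / 2 := by
    rw [hm, hn]; ring
  rw [hdet] at hid
  have hdot2 : dot (m * v.1 + n * v.2, n * v.1 - m * v.2)
      (w - (a * v.1 + d * v.2, b * v.1 + e * v.2)) =
      ((m * v.1 - (-n) * v.2) * w.1 - ((-n) * v.1 + m * v.2) * w.2) -
      ((m * v.1 + n * v.2) * (a * v.1 + d * v.2) + (n * v.1 - m * v.2) *
      (b * v.1 + e * v.2)) := by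
    unfold dot
    simp only [Prod.fst_sub, Prod.snd_sub]
    ring
  rw [hdot2, hd0, hid, ← nm_sq] at hdot
  rw [abs_of_neg hD] at hsm0
  nlinarith [sq_nonneg (a * v.1 + d * v.2), sq_nonneg (b * v.1 + e * v.2),
    mul_pos hne hne, mul_pos (mul_pos hne hne) hne,
    mul_pos (mul_pos hne hne) (sub_pos.2 hsm0)]

end

end Pool.Agent.Q62.HB
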