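import Pool.Agent.Q62.HB.Int2
import Pool.Agent.H709R2.Smooth2

/-! The mean number of closed orbits of a smooth field after an affine perturbation and rotation. -/

open Real Set MeasureTheory Topology Filter
open scoped ENNReal

namespace Pool.Agent.Q62.HB

noncomputable section

open Pool.Agent.H709R2 (rot wedge ClosedOrbit Jac Aff pert A0 A1 A2)
open Pool.Agent.H709U (dot rf Orb InBox)

/-- the parameters of an affine perturbation: the constant part and the two columns -/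
abbrev Par := (ℝ × ℝ) × ((ℝ × ℝ) × (ℝ × ℝ))

/-- the parameters in the order of the library -/
def toAff (a : Par) : Aff := ![a.1.1, a.2.1.1, a.2.2.1, a.1.2, a.2.1.2, a.2.2.2]

lemma A0_toAff (a : Par) : A0 (toAff a) = a.1 := rfl
lemma A1_toAff (a : Par) : A1 (toAff a) = a.2.1 := rfl
lemma A2_toAff (a : Par) : A2 (toAff a) = a.2.2 := rfl

/-- the box of the parameters -/
def BB (β : ℝ) : Set Par := Q2 β ×ˢ (Q2 β ×ˢ Q2 β)

lemma BB_meas (β : ℝ) : MeasurableSet (BB β) := (Q2_meas β).prod ((Q2_meas β).prod (Q2_meas β))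

lemma Q4_vol {β : ℝ} (hβ : 0 < β) : volume (Q2 β ×ˢ Q2 β) = ENNReal.ofReal (16 * β ^ 4) := by
  rw [Measure.volume_eq_prod, Measure.prod_prod, Q2_vol hβ, ← ENNReal.ofReal_mul (by positivity)]
  congr 1
  ring

lemma BB_vol {β : ℝ} (hβ : 0 < β) : volume (BB β) = ENNReal.ofReal (64 * β ^ 6) := by
  unfold BB
  rw [Measure.volume_eq_prod, Measure.prod_prod, Q4_vol hβ, Q2_vol hβ,
    ← ENNReal.ofReal_mul (by positivity)]
  congr 1
  ring

/-- the normalised perturbed field -/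
def Yf (F : ℝ × ℝ → ℝ × ℝ) (a : Par) (z : ℝ × ℝ) : ℝ × ℝ := (1 / 4 : ℝ) • pert F (toAff a) z

/-- the derivative of the field as a pair of columns -/
def cl (F : ℝ × ℝ → ℝ × ℝ) (z : ℝ × ℝ) : (ℝ × ℝ) × (ℝ × ℝ) := (fderiv ℝ F z (1, 0), fderiv ℝ F z (0, 1))

/-- the perturbed field without the constant part of the perturbation -/
def wf (F : ℝ × ℝ → ℝ × ℝ) (m : (ℝ × ℝ) × (ℝ × ℝ)) (z : ℝ × ℝ) : ℝ × ℝ :=
  F z + (z.1 • m.1 + z.2 • m.2)

variable {F : ℝ × ℝ → ℝ × ℝ} {K : Set (ℝ × ℝ)} {β : ℝ}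

lemma nm_Q2 {β : ℝ} (hβ : 0 ≤ β) {v : ℝ × ℝ} (hv : v ∈ Q2 β) : nm v ≤ 3 / 2 * β := by
  obtain ⟨⟨h1, h2⟩, ⟨h3, h4⟩⟩ := hv
  refine le_of_sq (by positivity) ?_
  rw [nm_sq]
  have c1 : v.1 ^ 2 ≤ β ^ 2 := sq_le_sq' h1 h2
  have c2 : v.2 ^ 2 ≤ β ^ 2 := sq_le_sq' h3 h4
  nlinarith

lemma fderiv_Yf (hF : ContDiff ℝ 2 F) (a : Par) (z v : ℝ × ℝ) :
    fderiv ℝ (Yf F a) z v = (1 / 4 : ℝ) • (fderiv ℝ F z v + (v.1 • a.2.1 + v.2 • a.2.2)) := by
  have h1 : DifferentiableAt ℝ (pert F (toAff a)) z :=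
    (H709R2.contDiff_pert hF (toAff a)).differentiable (by norm_num) z
  have h2 : fderiv ℝ (Yf F a) z = (1 / 4 : ℝ) • fderiv ℝ (pert F (toAff a)) z :=
    fderiv_const_smul h1 (1 / 4 : ℝ)
  rw [h2, ContinuousLinearMap.smul_apply, H709R2.fderiv_pert hF]
  rfl

lemma Nrm.Yf (h : Nrm F K) (hβ : 0 < β) (hβ1 : β ≤ 1) {a : Par} (ha : a ∈ BB β) :
    Nrm (HB.Yf F a) K := by
  have hcd : ContDiff ℝ 2 (HB.Yf F a) :=
    (H709R2.contDiff_pert h.cd (toAff a)).const_smul (1 / 4 : ℝ)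
  refine ⟨hcd, h.conv, fun z hz v => ?_, fun z hz z' hz' v => ?_⟩
  · rw [fderiv_Yf h.cd, nm_smul, abs_of_pos (by norm_num : (0:ℝ) < 1 / 4)]
    have h1 := nm_add_le (fderiv ℝ F z v) (v.1 • a.2.1 + v.2 • a.2.2)
    have h2 := nm_add_le (v.1 • a.2.1) (v.2 • a.2.2)
    rw [nm_smul, nm_smul] at h2
    have h3 := h.d1 z hz v
    have h4 := nm_Q2 hβ.le ha.2.1
    have h5 := nm_Q2 hβ.le ha.2.2
    have h6 := abs_fst_le v
    have h7 := abs_snd_le v
    have h8 : |v.1| * nm a.2.1 ≤ nm v * (3 / 2) :=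
      mul_le_mul h6 (by linarith) (nm_nonneg _) (nm_nonneg _)
    have h9 : |v.2| * nm a.2.2 ≤ nm v * (3 / 2) :=
      mul_le_mul h7 (by linarith) (nm_nonneg _) (nm_nonneg _)
    linarith
  · rw [fderiv_Yf h.cd, fderiv_Yf h.cd, ← smul_sub, nm_smul,
      abs_of_pos (by norm_num : (0:ℝ) < 1 / 4)]
    have e : fderiv ℝ F z v + (v.1 • a.2.1 + v.2 • a.2.2) -
        (fderiv ℝ F z' v + (v.1 • a.2.1 + v.2 • a.2.2)) = fderiv ℝ F z v - fderiv ℝ F z' v := by
      abel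
    rw [e]
    have h1 := h.d2 z hz z' hz' v
    have h2 : 0 ≤ nm (z - z') * nm v := mul_nonneg (nm_nonneg _) (nm_nonneg _)
    linarith [nm_nonneg (fderiv ℝ F z v - fderiv ℝ F z' v)]

lemma Jac_Yf (hF : ContDiff ℝ 2 F) (a : Par) (z : ℝ × ℝ) :
    Jac (Yf F a) z = Wd (cl F z) a.2 / 16 := by
  rw [Jac_eq, fderiv_Yf hF, fderiv_Yf hF]
  unfold Wd cl wedge
  simp only [Prod.smul_fst, Prod.smul_snd, Prod.fst_add, Prod.snd_add, smul_eq_mul]
  ring

lemma pert_eq (a : Par) (z : ℝ × ℝ) : pert F (toAff a) z = wf F a.2 z + a.1 := by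
  unfold pert wf
  rw [A0_toAff, A1_toAff, A2_toAff]
  abel

lemma V_Yf (hF : ContDiff ℝ 2 F) (a : Par) (z : ℝ × ℝ) :
    V (Yf F a) z = (nm (wf F a.2 z + a.1) ^ 2 +
      ((1 / 1024) * (Wd (cl F z) a.2 / 16) ^ 4) ^ 2) / 16 := by
  unfold V
  rw [Jac_Yf hF]
  unfold Yf
  rw [nm_smul, pert_eq, abs_of_pos (by norm_num : (0:ℝ) < 1 / 4)]
  ring

/-- pointwise estimate of the integral over the constant part -/
lemma lint_V (hβ : 0 < β) (hβ1 : β ≤ 1) (w : ℝ × ℝ) {d : ℝ} (hd : |d / 16| ≤ 1) :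
    ∫⁻ b in Q2 β, ENNReal.ofReal ((nm (w + b) ^ 2 + ((1 / 1024) * (d / 16) ^ 4) ^ 2) / 16)⁻¹ ≤
      ENNReal.ofReal (2800 + 810 * Real.log (1 / β)) + ENNReal.ofReal (101 * β) * isq d := by
  by_cases hd0 : d = 0
  · rw [hd0, isq_zero, ENNReal.mul_top (by
      rw [Ne, ENNReal.ofReal_eq_zero, not_le]; positivity), add_top]
    exact le_top
  obtain ⟨σ, hσ⟩ : ∃ σ, σ = (1 / 1024) * (d / 16) ^ 4 := ⟨_, rfl⟩
  rw [← hσ]
  have hdp : 0 < |d| := abs_pos.2 hd0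
  have hd16 : |d| / 16 ≤ 1 := by rwa [abs_div, abs_of_pos (by norm_num : (0:ℝ) < 16)] at hd
  have e4 : (d / 16) ^ 4 = (|d| / 16) ^ 4 := by
    rw [div_pow, div_pow, ← abs_pow, abs_of_nonneg (show (0:ℝ) ≤ d ^ 4 by positivity)]
  have hσp : 0 < σ := by rw [hσ, e4]; positivity
  have hσ1 : σ ≤ 1 := by
    rw [hσ, e4]
    have : (|d| / 16) ^ 4 ≤ 1 := pow_le_one₀ (by positivity) hd16
    linarith
  have hL : 0 ≤ Real.log (1 / β) := Real.log_nonneg (by rw [le_div_iff₀ hβ]; linarith)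
  -- the integral
  have h1 : ∀ b : ℝ × ℝ, ENNReal.ofReal ((nm (w + b) ^ 2 + σ ^ 2) / 16)⁻¹ =
      ENNReal.ofReal 16 * ENNReal.ofReal (1 / (nm (w + b) ^ 2 + σ ^ 2)) := by
    intro b
    rw [← ENNReal.ofReal_mul (by norm_num)]
    congr 1
    have : 0 < nm (w + b) ^ 2 + σ ^ 2 := by positivity
    field_simp
  simp only [h1]
  have hm : Measurable fun b : ℝ × ℝ => ENNReal.ofReal (1 / (nm (w + b) ^ 2 + σ ^ 2)) := by
    have : Continuous fun b : ℝ × ℝ => 1 / (nm (w + b) ^ 2 + σ ^ 2) :=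
      continuous_const.div (((nm_cont.comp (continuous_const.add continuous_id)).pow 2).add
        continuous_const) fun v => by positivity
    exact ENNReal.measurable_ofReal.comp this.measurable
  rw [lintegral_const_mul _ hm]
  refine (mul_le_mul_right (lint_b hβ hσp w) (ENNReal.ofReal 16)).trans ?_
  rw [isq_eq hd0, ← ENNReal.ofReal_mul (by norm_num), ← ENNReal.ofReal_mul (by positivity),
    ← ENNReal.ofReal_add (by positivity) (by positivity)]
  refine ENNReal.ofReal_le_ofReal ?_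
  -- the logarithm
  obtain ⟨y, hy⟩ : ∃ y, y = |d| ^ (-(1 / 2) : ℝ) := ⟨_, rfl⟩
  rw [← hy]
  have hyp : 0 < y := by rw [hy]; positivity
  have hly : Real.log y = -(1 / 2) * Real.log |d| := by rw [hy, Real.log_rpow hdp]
  have h2 : Real.log (1 + β ^ 2 / σ ^ 2) ≤ Real.log (2 / σ ^ 2) := by
    refine Real.log_le_log (by positivity) ?_
    rw [le_div_iff₀ (by positivity), add_mul, one_mul, div_mul_cancel₀ _ (by positivity)]
    have : β ^ 2 ≤ 1 := pow_le_one₀ hβ.le hβ1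
    have : σ ^ 2 ≤ 1 := pow_le_one₀ hσp.le hσ1
    linarith
  have h3 : Real.log (2 / σ ^ 2) = 53 * Real.log 2 + 16 * Real.log y := by
    rw [Real.log_div (by norm_num) (by positivity), Real.log_pow, hσ, e4,
      Real.log_mul (by norm_num) (by positivity), Real.log_pow, Real.log_div hdp.ne' (by norm_num),
      hly, show (16:ℝ) = 2 ^ 4 by norm_num, Real.log_pow,
      show (1 / 1024 : ℝ) = (2 ^ 10)⁻¹ by norm_num, Real.log_inv, Real.log_pow]
    push_cast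
    ring
  have h4 : Real.log y ≤ y * β / 8 - 1 + 3 * Real.log 2 + Real.log (1 / β) := by
    have h5 := Real.log_le_sub_one_of_pos (show 0 < y * β / 8 by positivity)
    rw [Real.log_div (by positivity) (by norm_num), Real.log_mul hyp.ne' hβ.ne',
      show (8:ℝ) = 2 ^ 3 by norm_num, Real.log_pow] at h5
    rw [one_div, Real.log_inv]
    push_cast at h5
    norm_num at h5 ⊢
    linarith
  have h6 := Real.log_two_lt_d9
  have h7 : Real.log (1 + β ^ 2 / σ ^ 2) ≤ 54.1 + 2 * (β * y) + 16 * Real.log (1 / β) := by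
    have : Real.log (1 + β ^ 2 / σ ^ 2) ≤ 53 * Real.log 2 +
        16 * (y * β / 8 - 1 + 3 * Real.log 2 + Real.log (1 / β)) := by linarith
    nlinarith
  have h8 : π < 3.1416 := Real.pi_lt_d4
  have h9 : 0 < β * y := by positivity
  have h10 : π * Real.log (1 + β ^ 2 / σ ^ 2) ≤
      3.1416 * (54.1 + 2 * (β * y) + 16 * Real.log (1 / β)) := by
    have h11 : 0 ≤ 54.1 + 2 * (β * y) + 16 * Real.log (1 / β) := by positivity
    calc π * Real.log (1 + β ^ 2 / σ ^ 2) ≤ π * (54.1 + 2 * (β * y) + 16 * Real.log (1 / β)) :=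
          mul_le_mul_of_nonneg_left h7 Real.pi_pos.le
      _ ≤ _ := mul_le_mul_of_nonneg_right h8.le h11
  nlinarith

lemma log_nonneg' (hβ : 0 < β) (hβ1 : β ≤ 1) : 0 ≤ Real.log (1 / β) :=
  Real.log_nonneg (by rw [le_div_iff₀ hβ]; linarith)

lemma cl_cont (hF : ContDiff ℝ 2 F) : Continuous (cl F) := by
  have h1 : Continuous (fderiv ℝ F) := hF.continuous_fderiv (by norm_num)
  exact (h1.clm_apply continuous_const).prodMk (h1.clm_apply continuous_const)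

/-- the integrand is jointly measurable -/
lemma V_Yf_meas (hF : ContDiff ℝ 2 F) :
    Measurable fun x : Par × (ℝ × ℝ) => ENNReal.ofReal (V (Yf F x.1) x.2)⁻¹ := by
  have h1 : (fun x : Par × (ℝ × ℝ) => V (Yf F x.1) x.2) = fun x => (nm (wf F x.1.2 x.2 + x.1.1) ^ 2 +
      ((1 / 1024) * (Wd (cl F x.2) x.1.2 / 16) ^ 4) ^ 2) / 16 :=
    funext fun x => V_Yf hF x.1 x.2
  have hc : Continuous fun x : Par × (ℝ × ℝ) => (nm (wf F x.1.2 x.2 + x.1.1) ^ 2 +
      ((1 / 1024) * (Wd (cl F x.2) x.1.2 / 16) ^ 4) ^ 2) / 16 := by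
    have hw : Continuous fun x : Par × (ℝ × ℝ) => wf F x.1.2 x.2 + x.1.1 := by
      unfold wf
      have := hF.continuous
      fun_prop
    have hd : Continuous fun x : Par × (ℝ × ℝ) => Wd (cl F x.2) x.1.2 :=
      Wd_cont.comp (((cl_cont hF).comp continuous_snd).prodMk (by fun_prop))
    exact ((((nm_cont.comp hw).pow 2)).add
      ((continuous_const.mul ((hd.div_const 16).pow 4)).pow 2)).div_const 16
  rw [← h1] at hc
  exact ENNReal.measurable_ofReal.comp hc.measurable.inv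

/-- the integral over the constant part for a fixed point -/
lemma lint_inner (h : Nrm F K) (hβ : 0 < β) (hβ1 : β ≤ 1) {z : ℝ × ℝ} (hz : z ∈ K)
    {m : (ℝ × ℝ) × (ℝ × ℝ)} (hm : m ∈ Q2 β ×ˢ Q2 β) :
    ∫⁻ b in Q2 β, ENNReal.ofReal (V (Yf F (b, m)) z)⁻¹ ≤
      ENNReal.ofReal (2800 + 810 * Real.log (1 / β)) +
        ENNReal.ofReal (101 * β) * isq (Wd (cl F z) m) := by
  have h0 : (((0, 0), m) : Par) ∈ BB β := by
    refine ⟨?_, hm⟩
    unfold Q2
    simp only [mem_prod, mem_Icc]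
    refine ⟨⟨by linarith, hβ.le⟩, ⟨by linarith, hβ.le⟩⟩
  have h1 : |Wd (cl F z) m / 16| ≤ 1 := by
    have := (h.Yf hβ hβ1 h0).jac_le_one hz
    rwa [Jac_Yf h.cd] at this
  have h2 := lint_V hβ hβ1 (wf F m z) h1
  have h3 : ∀ b : ℝ × ℝ, ENNReal.ofReal (V (Yf F (b, m)) z)⁻¹ =
      ENNReal.ofReal ((nm (wf F m z + b) ^ 2 +
        ((1 / 1024) * (Wd (cl F z) m / 16) ^ 4) ^ 2) / 16)⁻¹ := fun b => by
    rw [V_Yf h.cd]
  simp only [h3]
  exact h2

lemma real_est (hβ : 0 < β) {L : ℝ} (hL : 0 ≤ L) :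
    (2800 + 810 * L) * (16 * β ^ 4) + (101 * β) * (144 * β ^ 3) ≤ 60000 * β ^ 4 * (1 + L) := by
  have h4 : 0 < β ^ 4 := by positivity
  have h5 : 0 ≤ β ^ 4 * L := by positivity
  nlinarith

/-- the integral over the linear part -/
lemma lint_outer (hβ : 0 < β) {L : ℝ} (hL : 0 ≤ L) (c : (ℝ × ℝ) × (ℝ × ℝ)) :
    ∫⁻ m in Q2 β ×ˢ Q2 β, (ENNReal.ofReal (2800 + 810 * L) +
      ENNReal.ofReal (101 * β) * isq (Wd c m)) ≤ ENNReal.ofReal (60000 * β ^ 4 * (1 + L)) := by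
  have hmi : Measurable fun m => isq (Wd c m) := isq_meas.comp (Wd_meas _)
  rw [lintegral_add_left measurable_const, lintegral_const_mul _ hmi, lintegral_const,
    Measure.restrict_apply MeasurableSet.univ, univ_inter, Q4_vol hβ]
  have h1 : ENNReal.ofReal (101 * β) * ∫⁻ m in Q2 β ×ˢ Q2 β, isq (Wd c m) ≤
      ENNReal.ofReal (101 * β) * ENNReal.ofReal (144 * β ^ 3) := by
    gcongr
    exact lint_isq_det hβ _
  refine (add_le_add le_rfl h1).trans ?_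
  rw [← ENNReal.ofReal_mul (by positivity), ← ENNReal.ofReal_mul (by positivity),
    ← ENNReal.ofReal_add (by positivity) (by positivity)]
  exact ENNReal.ofReal_le_ofReal (real_est hβ hL)

/-- the integral over the parameters for a fixed point -/
lemma lint_point (h : Nrm F K) (hβ : 0 < β) (hβ1 : β ≤ 1) {z : ℝ × ℝ} (hz : z ∈ K) :
    ∫⁻ a in BB β, ENNReal.ofReal (V (Yf F a) z)⁻¹ ≤
      ENNReal.ofReal (60000 * β ^ 4 * (1 + Real.log (1 / β))) := by
  have hm : Measurable fun a : Par => ENNReal.ofReal (V (Yf F a) z)⁻¹ :=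
    Measurable.comp (g := fun x : Par × (ℝ × ℝ) => ENNReal.ofReal (V (Yf F x.1) x.2)⁻¹)
      (f := fun a : Par => (a, z)) (V_Yf_meas h.cd) measurable_prodMk_right
  have e : ∫⁻ a in BB β, ENNReal.ofReal (V (Yf F a) z)⁻¹ =
      ∫⁻ m in Q2 β ×ˢ Q2 β, ∫⁻ b in Q2 β, ENNReal.ofReal (V (Yf F (b, m)) z)⁻¹ :=
    fub (fun a : Par => ENNReal.ofReal (V (Yf F a) z)⁻¹) hm
  rw [e]
  exact (setLIntegral_mono' ((Q2_meas β).prod (Q2_meas β)) fun m hm =>
    lint_inner h hβ hβ1 hz hm).trans (lint_outer hβ (log_nonneg' hβ hβ1) _)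

lemma closedOrbit_smul {W : ℝ × ℝ → ℝ × ℝ} {C : Set (ℝ × ℝ)} {c : ℝ} (hc : 0 < c)
    (h : ClosedOrbit W C) : ClosedOrbit (fun z => c • W z) C := by
  obtain ⟨γ, T, hT, hd, hp, ⟨s, t, hst⟩, rfl⟩ := h
  refine ⟨fun t => γ (c * t), T / c, by positivity, fun t => ?_, fun t => ?_,
    ⟨s / c, t / c, by simpa [mul_div_cancel₀ _ hc.ne'] using hst⟩, ?_⟩
  · have h1 : HasDerivAt (fun t : ℝ => c * t) c t := by simpa using (hasDerivAt_id t).const_mul c
    exact (hd (c * t)).scomp t h1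
  · show γ (c * (t + T / c)) = γ (c * t)
    rw [mul_add, mul_div_cancel₀ _ hc.ne', hp]
  · ext x
    constructor
    · rintro ⟨t, rfl⟩
      exact ⟨t / c, by simp only [mul_div_cancel₀ _ hc.ne']⟩
    · rintro ⟨t, rfl⟩
      exact ⟨c * t, rfl⟩

lemma Bx_vol {R : ℝ} (hR : 0 ≤ R) : volume (Bx (-R) R (-R) R) = ENNReal.ofReal (4 * R ^ 2) := by
  unfold Bx
  rw [Measure.volume_eq_prod, Measure.prod_prod, Real.volume_Icc,
    ← ENNReal.ofReal_mul (by linarith)]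
  congr 1
  ring

/-- **The smoothed bound for fields of class `C²`.** -/
theorem smooth {R : ℝ} (hR : 0 ≤ R) (h : Nrm F (Bx (-(R + 1)) (R + 1) (-(R + 1)) (R + 1)))
    (hβ : 0 < β) (hβ1 : β ≤ 1) :
    ∃ H : Par → ℝ≥0∞, Measurable H ∧
      (∀ a ∈ BB β, ∃ g : ℝ → ℝ≥0∞, Measurable g ∧ (∀ α ∈ Ioo 0 π,
        ({C | ClosedOrbit (rf (pert F (toAff a)) α) C ∧ C ⊆ Bx (-R) R (-R) R}.encard : ℝ≥0∞) ≤
          g α) ∧ ∫⁻ α, g α ≤ H a) ∧
      ∫⁻ a in BB β, H a ≤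
        ENNReal.ofReal (200000 * (R + 1) ^ 2 * (1 + Real.log (1 / β)) / β ^ 2) *
          volume (BB β) := by
  set K := Bx (-(R + 1)) (R + 1) (-(R + 1)) (R + 1) with hK
  have hL := log_nonneg' hβ hβ1
  have hKm : MeasurableSet K := measurableSet_Icc.prod measurableSet_Icc
  have hK₀ : ∀ z ∈ Bx (-R) R (-R) R, ∀ y, nm (y - z) ≤ 1 → y ∈ K := by
    intro z hz y hy
    have h1 := abs_le.1 ((abs_fst_le (y - z)).trans hy)
    have h2 := abs_le.1 ((abs_snd_le (y - z)).trans hy)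
    simp only [Prod.fst_sub, Prod.snd_sub] at h1 h2
    exact ⟨⟨by linarith [hz.1.1], by linarith [hz.1.2]⟩, ⟨by linarith [hz.2.1], by linarith [hz.2.2]⟩⟩
  have hI : Measurable fun a : Par => ∫⁻ z in K, ENNReal.ofReal (V (Yf F a) z)⁻¹ :=
    (V_Yf_meas h.cd).lintegral_prod_right'
  refine ⟨fun a => 51 * ∫⁻ z in K, ENNReal.ofReal (V (Yf F a) z)⁻¹, hI.const_mul 51,
    fun a ha => ?_, ?_⟩
  · obtain ⟨g, hg, hg1, hg2⟩ := main (h.Yf hβ hβ1 ha) hK₀
    refine ⟨g, hg, fun α hα => le_trans ?_ (hg1 α hα), hg2⟩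
    refine ENat.toENNReal_le.2 (Set.encard_le_encard fun C hC => ⟨?_, hC.2⟩)
    have h1 := closedOrbit_smul (c := 1 / 4) (by norm_num) hC.1
    have h2 : (fun z => (1 / 4 : ℝ) • rf (pert F (toAff a)) α z) = rf (Yf F a) α := by
      funext z
      unfold rf Yf
      rw [H709R2.rot_smul]
    rwa [h2] at h1
  · rw [lintegral_const_mul 51 hI]
    have hsw : ∫⁻ a in BB β, ∫⁻ z in K, ENNReal.ofReal (V (Yf F a) z)⁻¹ =
        ∫⁻ z in K, ∫⁻ a in BB β, ENNReal.ofReal (V (Yf F a) z)⁻¹ :=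
      lintegral_lintegral_swap (f := fun a z => ENNReal.ofReal (V (Yf F a) z)⁻¹)
        (V_Yf_meas h.cd).aemeasurable
    rw [hsw]
    calc 51 * ∫⁻ z in K, ∫⁻ a in BB β, ENNReal.ofReal (V (Yf F a) z)⁻¹ ≤
          51 * ∫⁻ _z in K, ENNReal.ofReal (60000 * β ^ 4 * (1 + Real.log (1 / β))) := by
          gcongr 51 * ?_
          exact setLIntegral_mono' hKm fun z hz => lint_point h hβ hβ1 hz
      _ = ENNReal.ofReal 51 * (ENNReal.ofReal (60000 * β ^ 4 * (1 + Real.log (1 / β))) *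
            ENNReal.ofReal (4 * (R + 1) ^ 2)) := by
          rw [lintegral_const, Measure.restrict_apply MeasurableSet.univ, univ_inter,
            Bx_vol (by linarith)]
          norm_num
      _ ≤ _ := by
          rw [BB_vol hβ, ← ENNReal.ofReal_mul (by positivity), ← ENNReal.ofReal_mul (by norm_num),
            ← ENNReal.ofReal_mul (by positivity)]
          refine ENNReal.ofReal_le_ofReal ?_
          have e : 200000 * (R + 1) ^ 2 * (1 + Real.log (1 / β)) / β ^ 2 * (64 * β ^ 6) =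
              12800000 * ((R + 1) ^ 2 * (1 + Real.log (1 / β)) * β ^ 4) := by
            field_simp
            ring
          rw [e]
          have h0 : 0 ≤ (R + 1) ^ 2 * (1 + Real.log (1 / β)) * β ^ 4 := by positivity
          nlinarith

end

end Pool.Agent.Q62.HB
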