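import Pool.Agent.Q62.HB.Smooth

/-! The smoothed bound for polynomial fields: the exact mean. -/

open Real Set MeasureTheory Topology Filter
open scoped ENNReal

namespace Pool.Agent.Q62.HB

noncomputable section

open Pool.Agent.H709R2 (rot wedge ClosedOrbit Jac Aff pert A0 A1 A2 field Cls cntA)
open Pool.Agent.H709U (dot rf Orb InBox)

variable {F : ℝ × ℝ → ℝ × ℝ} {β : ℝ}

/-- the number of the closed orbits in the square -/
def cnt (F : ℝ × ℝ → ℝ × ℝ) (R : ℝ) (x : ℝ × Par) : ℝ≥0∞ :=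
  (({C | ClosedOrbit (rf (pert F (toAff x.2)) x.1) C ∧ C ⊆ Bx (-R) R (-R) R}.encard : ℕ∞) : ℝ≥0∞)

lemma cnt_eq (F : ℝ × ℝ → ℝ × ℝ) (R : ℝ) (x : ℝ × Par) :
    cnt F R x = cntA F (Bx (-R) R (-R) R) 0 (x.1, toAff x.2) := by
  unfold cnt cntA Cls
  congr 3
  ext C
  simp only [mem_ofPred_eq]
  constructor
  · rintro ⟨h1, h2⟩
    obtain ⟨γ, T, hT, hd, hp, hne, rfl⟩ := h1
    refine ⟨⟨γ, T, hT, hd, hp, hne, rfl⟩, h2, γ 0, ⟨0, rfl⟩, γ 0, ⟨0, rfl⟩, ?_⟩
    simpa using H709R2.sq_nonneg' (γ 0 - γ 0)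
  · rintro ⟨h1, h2, -⟩
    exact ⟨h1, h2⟩

lemma cont_toAff : Continuous toAff := by
  unfold toAff
  refine continuous_pi fun i => ?_
  fin_cases i <;> simp <;> fun_prop

lemma cnt_meas (P Q : MvPolynomial (Fin 2) ℝ) (R : ℝ) : Measurable (cnt (field P Q) R) := by
  have h1 : Measurable (cntA (field P Q) (Bx (-R) R (-R) R) 0) :=
    H709R2.measurable_cntA (n := max P.totalDegree Q.totalDegree) (le_max_left _ _)
      (le_max_right _ _) (isCompact_Icc.prod isCompact_Icc) 0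
  have h2 : Continuous fun x : ℝ × Par => ((x.1, toAff x.2) : ℝ × Aff) :=
    continuous_fst.prodMk (cont_toAff.comp continuous_snd)
  have h3 := h1.comp h2.measurable
  have e : cnt (field P Q) R = cntA (field P Q) (Bx (-R) R (-R) R) 0 ∘
      fun x : ℝ × Par => ((x.1, toAff x.2) : ℝ × Aff) := funext fun x => cnt_eq _ _ x
  rw [e]
  exact h3

/-- reversing the time -/
lemma closedOrbit_neg {W : ℝ × ℝ → ℝ × ℝ} {C : Set (ℝ × ℝ)} (h : ClosedOrbit W C) :
    ClosedOrbit (fun z => -W z) C := by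
  obtain ⟨γ, T, hT, hd, hp, ⟨s, t, hst⟩, rfl⟩ := h
  refine ⟨fun t => γ (-t), T, hT, fun t => ?_, fun t => ?_, ⟨-s, -t, by simpa using hst⟩, ?_⟩
  · have h1 : HasDerivAt (fun t : ℝ => -t) (-1) t := (hasDerivAt_id t).neg
    have h2 := (hd (-t)).scomp t h1
    rw [neg_one_smul] at h2
    exact h2
  · show γ (-(t + T)) = γ (-t)
    have := hp (-(t + T))
    rw [neg_add, neg_add_cancel_right] at this
    rw [neg_add]
    exact this.symm
  · ext x
    constructor
    · rintro ⟨t, rfl⟩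
      exact ⟨-t, by simp⟩
    · rintro ⟨t, rfl⟩
      exact ⟨-t, rfl⟩

lemma rot_add_pi (α : ℝ) (v : ℝ × ℝ) : rot (α + π) v = -rot α v := by
  unfold rot
  rw [Real.cos_add_pi, Real.sin_add_pi]
  ext
  · simp only [Prod.fst_neg]; ring
  · simp only [Prod.snd_neg]; ring

lemma cnt_periodic (F : ℝ × ℝ → ℝ × ℝ) (R α : ℝ) (a : Par) :
    cnt F R (α + π, a) = cnt F R (α, a) := by
  unfold cnt
  congr 3
  ext C
  simp only [mem_ofPred_eq]
  have h1 : rf (pert F (toAff a)) (α + π) = fun z => -rf (pert F (toAff a)) α z := by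
    funext z
    exact rot_add_pi α _
  rw [h1]
  refine and_congr_left fun _ => ⟨fun h => ?_, closedOrbit_neg⟩
  have := closedOrbit_neg h
  simpa using this

/-- the integral over a small interval of angles -/
lemma lint_small {f : ℝ → ℝ≥0∞} (hf : Measurable f) (hp : ∀ x, f (x + π) = f x)
    (hβ : 0 < β) (hβ1 : β ≤ 1) :
    ∫⁻ α in Icc (-β) β, f α ≤ ∫⁻ α in Ioo 0 π, f α := by
  have hpi := Real.pi_gt_three
  have h1 : ∫⁻ α in Icc (-β) β, f α ≤ (∫⁻ α in Ico (-β) 0, f α) + ∫⁻ α in Icc 0 β, f α := by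
    refine le_trans (lintegral_mono_set ?_) (lintegral_union_le _ _ _)
    intro x hx
    rcases lt_or_ge x 0 with h | h
    · exact Or.inl ⟨hx.1, h⟩
    · exact Or.inr ⟨h, hx.2⟩
  have h2 : ∫⁻ α in Ico (-β) 0, f α = ∫⁻ α in Ico (π - β) π, f α := by
    rw [← lintegral_indicator measurableSet_Ico, ← lintegral_indicator measurableSet_Ico]
    have e := lintegral_add_right_eq_self (μ := (volume : Measure ℝ))
      (fun x => indicator (Ico (π - β) π) f x) π
    rw [← e]
    refine lintegral_congr fun x => ?_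
    by_cases hx : x ∈ Ico (-β) 0
    · rw [indicator_of_mem hx, indicator_of_mem (show x + π ∈ Ico (π - β) π from
        ⟨by linarith [hx.1], by linarith [hx.2]⟩), hp]
    · rw [indicator_of_notMem hx, indicator_of_notMem]
      intro h
      exact hx ⟨by linarith [h.1], by linarith [h.2]⟩
  have h3 : ∫⁻ α in Icc 0 β, f α = ∫⁻ α in Ioo 0 β, f α :=
    (setLIntegral_congr Ioo_ae_eq_Icc).symm
  rw [h2, h3] at h1
  refine h1.trans ?_
  rw [← lintegral_union measurableSet_Ioo]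
  · refine lintegral_mono_set ?_
    rintro x (hx | hx)
    · exact ⟨by linarith [hx.1], hx.2⟩
    · exact ⟨hx.1, by linarith [hx.2]⟩
  · rw [Set.disjoint_left]
    intro x hx hx'
    linarith [hx.1, hx'.2]

/-- **The smoothed bound for polynomial fields.** -/
theorem smoothP {P Q : MvPolynomial (Fin 2) ℝ} {R : ℝ} (hR : 0 ≤ R)
    (h : Nrm (field P Q) (Bx (-(R + 1)) (R + 1) (-(R + 1)) (R + 1)))
    (hβ : 0 < β) (hβ1 : β ≤ 1) :
    Measurable (cnt (field P Q) R) ∧
    ∫⁻ x in Ioo 0 π ×ˢ BB β, cnt (field P Q) R x ≤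
      ENNReal.ofReal (200000 * (R + 1) ^ 2 * (1 + Real.log (1 / β)) / β ^ 2) * volume (BB β) ∧
    ∫⁻ x in Icc (-β) β ×ˢ BB β, cnt (field P Q) R x ≤
      ENNReal.ofReal (100000 * (R + 1) ^ 2 * (1 + Real.log (1 / β)) / β ^ 3) *
        volume (Icc (-β) β ×ˢ BB β) := by
  have hm := cnt_meas P Q R
  have hL := log_nonneg' hβ hβ1
  obtain ⟨H, hH, hg, hI⟩ := smooth hR h hβ hβ1
  have hfub : ∀ A : Set ℝ, ∫⁻ x in A ×ˢ BB β, cnt (field P Q) R x =
      ∫⁻ a in BB β, ∫⁻ α in A, cnt (field P Q) R (α, a) := by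
    intro A
    have h1 : (volume : Measure (ℝ × Par)).restrict (A ×ˢ BB β) =
        ((volume : Measure ℝ).restrict A).prod ((volume : Measure Par).restrict (BB β)) := by
      rw [Measure.prod_restrict]
      rfl
    rw [h1]
    exact lintegral_prod_symm _ hm.aemeasurable
  have hma : ∀ a : Par, Measurable fun α : ℝ => cnt (field P Q) R (α, a) := fun a =>
    Measurable.comp (g := cnt (field P Q) R) (f := fun α : ℝ => (α, a)) hm measurable_prodMk_right
  have key : ∫⁻ x in Ioo 0 π ×ˢ BB β, cnt (field P Q) R x ≤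
      ENNReal.ofReal (200000 * (R + 1) ^ 2 * (1 + Real.log (1 / β)) / β ^ 2) *
        volume (BB β) := by
    rw [hfub]
    refine (setLIntegral_mono' (BB_meas β) fun a ha => ?_).trans hI
    obtain ⟨g, -, hg1, hg2⟩ := hg a ha
    refine (setLIntegral_mono' measurableSet_Ioo fun α hα => hg1 α hα).trans ?_
    exact (setLIntegral_le_lintegral _ _).trans hg2
  refine ⟨hm, key, ?_⟩
  have h2 : ∫⁻ x in Icc (-β) β ×ˢ BB β, cnt (field P Q) R x ≤
      ∫⁻ x in Ioo 0 π ×ˢ BB β, cnt (field P Q) R x := by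
    rw [hfub, hfub]
    refine lintegral_mono fun a => ?_
    exact lint_small (hma a) (fun α => cnt_periodic _ R α a) hβ hβ1
  refine (h2.trans key).trans (le_of_eq ?_)
  have h3 : volume (Icc (-β) β ×ˢ BB β) = ENNReal.ofReal (2 * β) * volume (BB β) := by
    rw [Measure.volume_eq_prod ℝ Par, Measure.prod_prod, Real.volume_Icc]
    congr 2
    ring
  rw [h3, ← mul_assoc, ← ENNReal.ofReal_mul (by positivity)]
  congr 2
  field_simp
  ring

end

end Pool.Agent.Q62.HB
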