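import Pool.Agent.Q62.HB.Small

/-! The weight for the large closed orbits, Newton's method, and the minimal period. -/

open Real Set MeasureTheory Topology Filter
open scoped ENNReal

namespace Pool.Agent.Q62.HB

noncomputable section

open Pool.Agent.H709R2 (rot wedge ClosedOrbit divW divRot Jac)
open Pool.Agent.H709U (dot rf Orb InBox)

variable {X : ℝ × ℝ → ℝ × ℝ} {K : Set (ℝ × ℝ)}

/-- the denominator of the weight -/
def V (X : ℝ × ℝ → ℝ × ℝ) (z : ℝ × ℝ) : ℝ := nm (X z) ^ 2 + (1 / 4096) ^ 2 * Jac X z ^ 8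

lemma Nrm.jac_contDiff (h : Nrm X K) : ContDiff ℝ 1 (Jac X) := by
  have h1 : ContDiff ℝ 1 (fderiv ℝ X) := h.cd.fderiv_right (by norm_num)
  have h2 : ∀ v : ℝ × ℝ, ContDiff ℝ 1 fun z => fderiv ℝ X z v := fun v => h1.clm_apply contDiff_const
  have h3 : Jac X = fun z => (fderiv ℝ X z (1, 0)).1 * (fderiv ℝ X z (0, 1)).2 -
      (fderiv ℝ X z (1, 0)).2 * (fderiv ℝ X z (0, 1)).1 := rfl
  rw [h3]
  exact ((contDiff_fst.comp (h2 _)).mul (contDiff_snd.comp (h2 _))).sub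
    ((contDiff_snd.comp (h2 _)).mul (contDiff_fst.comp (h2 _)))

lemma Nrm.V_contDiff (h : Nrm X K) : ContDiff ℝ 1 (V X) := by
  have h1 : ContDiff ℝ 1 X := h.cd.of_le (by norm_num)
  have h2 : V X = fun z => ((X z).1 ^ 2 + (X z).2 ^ 2) + (1 / 4096) ^ 2 * Jac X z ^ 8 := by
    funext z; unfold V; rw [nm_sq]
  rw [h2]
  exact (((contDiff_fst.comp h1).pow 2).add ((contDiff_snd.comp h1).pow 2)).add
    (contDiff_const.mul (h.jac_contDiff.pow 8))

lemma V_nonneg (X : ℝ × ℝ → ℝ × ℝ) (z : ℝ × ℝ) : 0 ≤ V X z := by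
  unfold V
  have : (0:ℝ) ≤ Jac X z ^ 8 := by
    rw [show (8:ℕ) = 2 * 4 by norm_num, pow_mul]; positivity
  have := nm_nonneg (X z)
  positivity

lemma V_pos {z : ℝ × ℝ} (hz : X z ≠ 0) : 0 < V X z := by
  unfold V
  have h1 : (0:ℝ) ≤ Jac X z ^ 8 := by
    rw [show (8:ℕ) = 2 * 4 by norm_num, pow_mul]; positivity
  have h2 := nm_pos hz
  positivity

lemma V_pos' {z : ℝ × ℝ} (hz : Jac X z ≠ 0) : 0 < V X z := by
  unfold V
  have h1 : (0:ℝ) < Jac X z ^ 8 := by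
    rw [show (8:ℕ) = 2 * 4 by norm_num, pow_mul]; positivity
  have h2 := nm_nonneg (X z)
  positivity

/-- bound of the derivative of the determinant -/
lemma Nrm.jac_fderiv (h : Nrm X K) {z : ℝ × ℝ} (hz : K ∈ 𝓝 z) (v : ℝ × ℝ) :
    |fderiv ℝ (Jac X) z v| ≤ 2 * nm v := by
  have hzK : z ∈ K := mem_of_mem_nhds hz
  have h1 : HasDerivAt (fun t : ℝ => z + t • v) v 0 := by
    have := ((hasDerivAt_id (0:ℝ)).smul_const v).const_add z
    simpa using this
  have h2 : HasFDerivAt (Jac X) (fderiv ℝ (Jac X) z) (z + (0:ℝ) • v) := by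
    rw [zero_smul, add_zero]
    exact (h.jac_contDiff.differentiable (by norm_num) z).hasFDerivAt
  have h3 : HasDerivAt (fun t : ℝ => Jac X (z + t • v)) (fderiv ℝ (Jac X) z v) 0 :=
    HasFDerivAt.comp_hasDerivAt (f := fun t : ℝ => z + t • v) (0:ℝ) h2 h1
  have h4 : ∀ᶠ t : ℝ in 𝓝 0, z + t • v ∈ K := by
    have : Tendsto (fun t : ℝ => z + t • v) (𝓝 0) (𝓝 z) := by
      have := h1.continuousAt.tendsto
      simpa using this
    exact this hz
  have h5 := h3.le_of_lip' (C := 2 * nm v) (mul_nonneg zero_le_two (nm_nonneg v)) (by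
    filter_upwards [h4] with t ht
    have h6 := h.jac_lip hzK ht
    rw [add_sub_cancel_left, nm_smul] at h6
    simp only [zero_smul, add_zero, sub_zero, Real.norm_eq_abs]
    linarith)
  exact h5

/-- the divergence with the weight `1 / V` -/
lemma Nrm.divW_V (h : Nrm X K) {z : ℝ × ℝ} (hz : K ∈ 𝓝 z) (hX : X z ≠ 0) (α : ℝ) :
    |divW (fun z => (V X z)⁻¹) X α z| ≤ 5 * (V X z)⁻¹ := by
  have hzK : z ∈ K := mem_of_mem_nhds hz
  have hVp := V_pos hX
  have hV0 := hVp.ne'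
  have hVd : HasFDerivAt (V X) (fderiv ℝ (V X) z) z :=
    (h.V_contDiff.differentiable (by norm_num) z).hasFDerivAt
  have hw : HasFDerivAt (fun z => (V X z)⁻¹) ((-(V X z ^ 2)⁻¹) • fderiv ℝ (V X) z) z :=
    (hasDerivAt_inv hV0).comp_hasFDerivAt z hVd
  -- the derivative of `V`
  have hJ : HasFDerivAt (Jac X) (fderiv ℝ (Jac X) z) z :=
    (h.jac_contDiff.differentiable (by norm_num) z).hasFDerivAt
  have hVval : ∀ y, fderiv ℝ (V X) z y = 2 * dot (X z) (fderiv ℝ X z y) +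
      (1 / 4096) ^ 2 * (8 * Jac X z ^ 7 * fderiv ℝ (Jac X) z y) := by
    intro y
    have hx1 : HasFDerivAt (fun z => (X z).1) ((ContinuousLinearMap.fst ℝ ℝ ℝ).comp
        (fderiv ℝ X z)) z := (ContinuousLinearMap.fst ℝ ℝ ℝ).hasFDerivAt.comp z (h.fd z)
    have hx2 : HasFDerivAt (fun z => (X z).2) ((ContinuousLinearMap.snd ℝ ℝ ℝ).comp
        (fderiv ℝ X z)) z := (ContinuousLinearMap.snd ℝ ℝ ℝ).hasFDerivAt.comp z (h.fd z)
    have h1 := ((hx1.pow 2).add (hx2.pow 2)).add ((hJ.pow 8).const_mul ((1 / 4096 : ℝ) ^ 2))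
    have h2 : V X = fun z => ((X z).1 ^ 2 + (X z).2 ^ 2) + (1 / 4096) ^ 2 * Jac X z ^ 8 := by
      funext z; unfold V; rw [nm_sq]
    rw [h2, HasFDerivAt.fderiv (f := fun z => ((X z).1 ^ 2 + (X z).2 ^ 2) +
      (1 / 4096) ^ 2 * Jac X z ^ 8) h1]
    unfold dot
    simp
    ring
  obtain ⟨y, hy⟩ : ∃ y, y = rot α (X z) := ⟨_, rfl⟩
  have hny : nm y = nm (X z) := by rw [hy, nm_rot]
  have b1 : |dot (X z) (fderiv ℝ X z y)| ≤ nm (X z) ^ 2 := by
    refine (dot_le _ _).trans ?_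
    have := h.d1 z hzK y
    rw [hny] at this
    nlinarith [nm_nonneg (X z)]
  have b2 := h.jac_fderiv hz y
  rw [hny] at b2
  have b3 := h.divRot_le hzK α
  have b4 := h.jac_le_one hzK
  have hval : divW (fun z => (V X z)⁻¹) X α z =
      (-(fderiv ℝ (V X) z y) + divRot X α z * V X z) / V X z ^ 2 := by
    unfold divW
    rw [hw.fderiv, hy]
    simp only [ContinuousLinearMap.smul_apply, smul_eq_mul]
    field_simp
  obtain ⟨x, hx⟩ : ∃ x, x = nm (X z) := ⟨_, rfl⟩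
  obtain ⟨j, hj⟩ : ∃ j, j = |Jac X z| := ⟨_, rfl⟩
  have hx0 : 0 ≤ x := hx ▸ nm_nonneg _
  have hj0 : 0 ≤ j := hj ▸ abs_nonneg _
  have eV : V X z = x ^ 2 + (1 / 4096) ^ 2 * j ^ 8 := by
    unfold V
    rw [← hx, hj, ← abs_pow, abs_of_nonneg (show (0:ℝ) ≤ Jac X z ^ 8 by
      rw [show (8:ℕ) = 2 * 4 by norm_num, pow_mul]; positivity)]
  have c1 : |fderiv ℝ (V X) z y| ≤ 2 * x ^ 2 + (1 / 4096) ^ 2 * (8 * j ^ 7 * (2 * x)) := by
    rw [hVval]
    refine (abs_add_le _ _).trans ?_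
    rw [abs_mul, abs_mul ((1 / 4096 : ℝ) ^ 2), abs_mul (8 * Jac X z ^ 7), abs_mul (8:ℝ),
      abs_pow (Jac X z), ← hj, abs_of_pos (by norm_num : (0:ℝ) < 2), abs_of_pos (by norm_num : (0:ℝ) < (1 / 4096) ^ 2),
      abs_of_pos (by norm_num : (0:ℝ) < 8)]
    rw [hx]
    gcongr
  have c2 : 2 * x ^ 2 + (1 / 4096) ^ 2 * (8 * j ^ 7 * (2 * x)) ≤ 3 * V X z := by
    rw [eV]
    have e1 : 0 ≤ (x - 8 * (1 / 4096) ^ 2 * j ^ 7) ^ 2 := sq_nonneg _
    rw [← hj] at b4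
    have e2 : j ^ 14 ≤ j ^ 8 := pow_le_pow_of_le_one hj0 b4 (by norm_num)
    have e3 : 0 ≤ j ^ 8 := by positivity
    nlinarith
  rw [hval, abs_div, abs_of_nonneg (sq_nonneg (V X z)), div_le_iff₀ (by positivity)]
  have c3 : |-(fderiv ℝ (V X) z y) + divRot X α z * V X z| ≤ 3 * V X z + 2 * V X z := by
    refine (abs_add_le _ _).trans ?_
    rw [abs_neg, abs_mul (divRot X α z), abs_of_pos hVp]
    have := mul_le_mul_of_nonneg_right b3 hVp.le
    linarith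
  refine c3.trans (le_of_eq ?_)
  field_simp
  ring

/-- Newton's method: a zero near a point where the field is small -/
theorem newton (h : Nrm X K) {z₀ : ℝ × ℝ} (hb : ∀ y, nm (y - z₀) ≤ 1 → y ∈ K)
    (hJ : 0 < |Jac X z₀|) (hs : nm (X z₀) ≤ |Jac X z₀| ^ 2 / 100) :
    ∃ p, X p = 0 ∧ nm (p - z₀) ≤ 3 * nm (X z₀) / |Jac X z₀| := by
  obtain ⟨j, hj⟩ : ∃ j, j = |Jac X z₀| := ⟨_, rfl⟩
  obtain ⟨x, hx⟩ : ∃ x, x = nm (X z₀) := ⟨_, rfl⟩
  have hz₀ : z₀ ∈ K := hb z₀ (by rw [sub_self, nm_zero]; norm_num)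
  have hj1 : j ≤ 1 := hj ▸ h.jac_le_one hz₀
  rw [← hj] at hJ
  rw [← hj, ← hx] at hs
  rw [← hj, ← hx]
  have hx0 : 0 ≤ x := hx ▸ nm_nonneg _
  rcases hx0.eq_or_lt with h0 | h0
  · refine ⟨z₀, ?_, ?_⟩
    · exact nm_eq_zero (by rw [← hx, ← h0])
    · rw [sub_self, nm_zero, ← h0]; simp
  obtain ⟨s, hsdef⟩ : ∃ s, s = 3 * x / j := ⟨_, rfl⟩
  have hsp : 0 < s := by rw [hsdef]; positivity
  have hsj : s * j = 3 * x := by rw [hsdef]; field_simp
  have hs1 : s ≤ 3 * j / 100 := by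
    have : s * j ≤ (3 * j / 100) * j := by rw [hsj]; nlinarith
    exact le_of_mul_le_mul_right this hJ
  rw [← hsdef]
  set B : Set (ℝ × ℝ) := {y | nm (y - z₀) ≤ s} with hB
  have hBc : IsCompact B := by
    refine IsCompact.of_isClosed_subset ((isCompact_Icc (a := z₀.1 - s) (b := z₀.1 + s)).prod
      (isCompact_Icc (a := z₀.2 - s) (b := z₀.2 + s)))
      (isClosed_le (nm_cont.comp (continuous_id.sub continuous_const)) continuous_const) ?_
    intro y hy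
    have hy' : nm (y - z₀) ≤ s := hy
    have h1 := abs_le.1 (abs_fst_le (y - z₀))
    have h2 := abs_le.1 (abs_snd_le (y - z₀))
    simp only [Prod.fst_sub, Prod.snd_sub] at h1 h2
    exact ⟨⟨by linarith [h1.1], by linarith [h1.2]⟩, ⟨by linarith [h2.1], by linarith [h2.2]⟩⟩
  have hBK : ∀ y ∈ B, y ∈ K := fun y hy => hb y (le_trans hy (by linarith))
  have hz₀B : z₀ ∈ B := by
    show nm (z₀ - z₀) ≤ s
    rw [sub_self, nm_zero]; exact hsp.le
  obtain ⟨p, hpB, hpmin⟩ := hBc.exists_isMinOn ⟨z₀, hz₀B⟩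
    (f := fun y => nm (X y) ^ 2) ((nm_cont.comp h.cd.continuous).pow 2).continuousOn
  have hmin0 : nm (X p) ^ 2 ≤ x ^ 2 := by
    have := hpmin hz₀B
    simp only [mem_ofPred_eq] at this
    rw [hx]; exact this
  have hpx : nm (X p) ≤ x := le_of_sq hx0 hmin0
  have hpK := hBK p hpB
  have hlt : nm (p - z₀) < s := by
    refine lt_of_le_of_ne hpB (fun he => ?_)
    have h1 := h.taylor hz₀ hpK
    have h2 := h.jac_lower hz₀ (p - z₀)
    rw [← hj, he] at h2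
    rw [he] at h1
    have h3 := nm_sub_le (fderiv ℝ X z₀ (p - z₀)) (X p - X z₀)
    rw [nm_sub_comm (fderiv ℝ X z₀ (p - z₀)) (X p - X z₀)] at h3
    have h4 := nm_add_le (X p) (-X z₀)
    rw [nm_neg, ← sub_eq_add_neg, ← hx] at h4
    have h5 : s ^ 2 / 2 < x := by
      have : s ^ 2 / 2 ≤ s * (3 * j / 100) / 2 := by nlinarith
      nlinarith
    nlinarith
  have hnear : B ∈ 𝓝 p := by
    have : IsOpen {y : ℝ × ℝ | nm (y - z₀) < s} :=
      isOpen_lt (nm_cont.comp (continuous_id.sub continuous_const)) continuous_const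
    exact Filter.mem_of_superset (this.mem_nhds hlt)
      (fun y (hy : nm (y - z₀) < s) => (le_of_lt hy : nm (y - z₀) ≤ s))
  have hloc : IsLocalMin (fun y => nm (X y) ^ 2) p := hpmin.isLocalMin hnear
  have hcrit : ∀ v, dot (X p) (fderiv ℝ X p v) = 0 := by
    intro v
    have hx1 : HasFDerivAt (fun z => (X z).1) ((ContinuousLinearMap.fst ℝ ℝ ℝ).comp
        (fderiv ℝ X p)) p := (ContinuousLinearMap.fst ℝ ℝ ℝ).hasFDerivAt.comp p (h.fd p)
    have hx2 : HasFDerivAt (fun z => (X z).2) ((ContinuousLinearMap.snd ℝ ℝ ℝ).comp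
        (fderiv ℝ X p)) p := (ContinuousLinearMap.snd ℝ ℝ ℝ).hasFDerivAt.comp p (h.fd p)
    have h1 := (hx1.pow 2).add (hx2.pow 2)
    have h2 : (fun y => nm (X y) ^ 2) = fun z => (X z).1 ^ 2 + (X z).2 ^ 2 := by
      funext z; rw [nm_sq]
    rw [h2] at hloc
    have h3 := hloc.hasFDerivAt_eq_zero h1
    have h4 := congrArg (fun L : (ℝ × ℝ) →L[ℝ] ℝ => L v) h3
    simp at h4
    unfold dot
    linarith
  have hJp : Jac X p ≠ 0 := by
    intro hc
    have h1 := h.jac_lip hz₀ hpK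
    rw [hc, zero_sub, abs_neg, ← hj] at h1
    linarith
  refine ⟨p, ?_, hlt.le⟩
  have h1 := hcrit (1, 0)
  have h2 := hcrit (0, 1)
  rw [Jac_eq] at hJp
  unfold dot at h1 h2
  unfold wedge at hJp
  ext
  · have : (X p).1 * ((fderiv ℝ X p (1, 0)).1 * (fderiv ℝ X p (0, 1)).2 -
        (fderiv ℝ X p (1, 0)).2 * (fderiv ℝ X p (0, 1)).1) = 0 := by
      linear_combination (fderiv ℝ X p (0, 1)).2 * h1 - (fderiv ℝ X p (1, 0)).2 * h2
    exact (mul_eq_zero.1 this).resolve_right hJp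
  · have : (X p).2 * ((fderiv ℝ X p (1, 0)).1 * (fderiv ℝ X p (0, 1)).2 -
        (fderiv ℝ X p (1, 0)).2 * (fderiv ℝ X p (0, 1)).1) = 0 := by
      linear_combination (fderiv ℝ X p (1, 0)).1 * h2 - (fderiv ℝ X p (0, 1)).1 * h1
    exact (mul_eq_zero.1 this).resolve_right hJp

/-- the period is at least two -/
theorem period_ge (h : Nrm X K) {α T : ℝ} {γ : ℝ → ℝ × ℝ} (hγ : Orb (rf X α) γ T)
    (hK : ∀ t, γ t ∈ K) : 2 ≤ T := by
  by_contra hT
  push Not at hT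
  have hγc := orb_cont hγ
  have hXc := h.cd.continuous
  obtain ⟨t₀, ht₀⟩ := exists_min (φ := fun t => -nm (X (γ t))) hγ.pos
    (nm_cont.comp (hXc.comp hγc)).neg (fun t => by beta_reduce; rw [hγ.per])
  have hmax : ∀ t, nm (X (γ t)) ≤ nm (X (γ t₀)) := fun t => by linarith [ht₀ t]
  obtain ⟨v, hv⟩ : ∃ v, v = nm (X (γ t₀)) := ⟨_, rfl⟩
  have hvp : 0 < v := by
    rw [hv]
    refine nm_pos (fun hc => hγ.ne t₀ ?_)
    unfold rf
    rw [hc, rot_zero']
  rw [← hv] at hmax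
  set f : ℝ → ℝ := fun t => dot (X (γ t)) (X (γ t₀)) with hf
  have hfd : ∀ t, HasDerivAt f (dot (fderiv ℝ X (γ t) (rot α (X (γ t)))) (X (γ t₀))) t := by
    intro t
    exact hasDerivAt_dot ((h.fd (γ t)).comp_hasDerivAt t (hγ.ode t)) _
  have hf0 : f t₀ = v ^ 2 := by rw [hf, hv, ← dot_self]
  have hflip : ∀ t, v ^ 2 - v ^ 2 * |t - t₀| ≤ f t := by
    intro t
    have := convex_univ.norm_image_sub_le_of_norm_hasDerivWithin_le (s := univ) (f := f)
      (f' := fun t => dot (fderiv ℝ X (γ t) (rot α (X (γ t)))) (X (γ t₀))) (C := v ^ 2)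
      (fun t _ => (hfd t).hasDerivWithinAt) (fun t _ => by
        rw [Real.norm_eq_abs]
        refine (dot_le _ _).trans ?_
        rw [← hv, sq]
        refine mul_le_mul_of_nonneg_right ?_ hvp.le
        refine (h.d1 _ (hK t) _).trans ?_
        rw [nm_rot]
        exact hmax t) (mem_univ t₀) (mem_univ t)
    rw [Real.norm_eq_abs, Real.norm_eq_abs, hf0] at this
    linarith [(abs_le.1 this).1]
  have hgd : ∀ t, HasDerivAt (fun t => dot (γ t) (rot α (X (γ t₀)))) (f t) t := by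
    intro t
    have h1 := hasDerivAt_dot (hγ.ode t) (rot α (X (γ t₀)))
    refine h1.congr_deriv ?_
    simp only [hf]
    unfold rf dot rot
    simp only
    have := Real.sin_sq_add_cos_sq α
    linear_combination ((X (γ t)).1 * (X (γ t₀)).1 + (X (γ t)).2 * (X (γ t₀)).2) * this
  have hTp := hγ.pos
  have hmono : StrictMonoOn (fun t => dot (γ t) (rot α (X (γ t₀))))
      (Icc (t₀ - T / 2) (t₀ + T / 2)) := by
    refine strictMonoOn_of_deriv_pos (convex_Icc _ _)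
      (fun t _ => (hgd t).continuousAt.continuousWithinAt) (fun t ht => ?_)
    rw [interior_Icc] at ht
    rw [(hgd t).deriv]
    refine lt_of_lt_of_le ?_ (hflip t)
    have h1 : |t - t₀| < 1 := by
      rw [abs_lt]
      constructor <;> linarith [ht.1, ht.2]
    nlinarith [sq_pos_of_pos hvp]
  have h1 := hmono (left_mem_Icc.2 (by linarith)) (right_mem_Icc.2 (by linarith))
    (by linarith : t₀ - T / 2 < t₀ + T / 2)
  have h2 : γ (t₀ + T / 2) = γ (t₀ - T / 2) := by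
    rw [show t₀ + T / 2 = t₀ - T / 2 + T by ring, hγ.per]
  simp only [h2, lt_self_iff_false] at h1

end

end Pool.Agent.Q62.HB
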